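import Pool.Agent.Helper79.PS.Goals
import Pool.Agent.Helper3.RS.FROB
import Pool.Agent.Helper59.RS.FROB2
import Pool.Agent.Helper22.RS.MUEQ
import Pool.Agent.Helper12.RS.CNT
import Pool.Agent.Helper73.RS.CNTW
import Pool.Agent.Helper81.RS.AUTO

/-!
Goal A8 of project PS.
-/

open Module Matrix

namespace Pool.Agent.Helper79.PS

open Pool.Agent.Helper10.RS

universe u

section
variable {K : Type u} [Field K]

theorem tr_sq (h2 : (2 : K) = 0) (Y : Matrix (Fin 3) (Fin 3) K) :
    (Y * Y).trace = Y.trace ^ 2 := by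
  rw [Matrix.trace_fin_three, Matrix.trace_fin_three]
  simp only [Matrix.mul_apply, Fin.sum_univ_three]
  linear_combination (Y 0 1 * Y 1 0 + Y 0 2 * Y 2 0 + Y 1 2 * Y 2 1 - Y 0 0 * Y 1 1 -
    Y 0 0 * Y 2 2 - Y 1 1 * Y 2 2) * h2

theorem ch3 (Y : Matrix (Fin 3) (Fin 3) K) (hd : Y.det = 1) :
    ∃ b : K, Y ^ 3 - Y.trace • Y ^ 2 + b • Y - 1 = 0 := by
  have h1 := Matrix.aeval_self_charpoly Y
  have hdeg : Y.charpoly.natDegree = 3 := by
    rw [Matrix.charpoly_natDegree_eq_dim, Fintype.card_fin]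
  refine ⟨Y.charpoly.coeff 1, ?_⟩
  rw [Polynomial.aeval_eq_sum_range, hdeg, Finset.sum_range_succ, Finset.sum_range_succ,
    Finset.sum_range_succ, Finset.sum_range_one] at h1
  have h3 : Y.charpoly.coeff 3 = 1 := by
    have := Matrix.charpoly_monic Y
    rw [Polynomial.Monic, Polynomial.leadingCoeff, hdeg] at this
    exact this
  have h2 : Y.charpoly.coeff 2 = -Y.trace := by
    rw [Matrix.trace_eq_neg_charpoly_coeff, Fintype.card_fin, neg_neg]
  have h0 : Y.charpoly.coeff 0 = -1 := by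
    have := Matrix.det_eq_sign_charpoly_coeff Y
    rw [hd, Fintype.card_fin] at this
    linear_combination this
  rw [h3, h2, h0] at h1
  rw [← h1]
  simp only [pow_zero, pow_one]
  module

theorem no_order5 (h2 : (2 : K) = 0) (Y : Matrix (Fin 3) (Fin 3) K) (hd : Y.det = 1)
    (h5 : Y ^ 5 = 1) (P Q : Matrix (Fin 3) (Fin 3) K) (hPQ : Q * P = 1)
    (hc : P * Y * Q = Y ^ 2) : Y = 1 := by
  obtain ⟨a, ha⟩ : ∃ a, a = Y.trace := ⟨_, rfl⟩
  have htr : (Y ^ 2).trace = a := by
    rw [← hc, Matrix.trace_mul_comm, ← Matrix.mul_assoc, hPQ, Matrix.one_mul, ha]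
  have ha2 : a ^ 2 = a := by
    have := tr_sq h2 Y
    rw [← sq, htr, ← ha] at this
    exact this.symm
  have htr4 : (Y ^ 4).trace = a := by
    have := tr_sq h2 (Y ^ 2)
    rw [← pow_add, htr, ha2] at this
    exact this
  have htr8 : (Y ^ 8).trace = a := by
    have := tr_sq h2 (Y ^ 4)
    rw [← pow_add, htr4, ha2] at this
    exact this
  have htr3 : (Y ^ 3).trace = a := by
    have : Y ^ 8 = Y ^ 3 := by
      rw [show (8 : ℕ) = 5 + 3 from rfl, pow_add, h5, one_mul]
    rw [← this, htr8]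
  obtain ⟨b, hb⟩ := ch3 Y hd
  have htb := congrArg Matrix.trace hb
  rw [← ha] at hb htb
  rw [Matrix.trace_sub, Matrix.trace_add, Matrix.trace_sub, Matrix.trace_smul, Matrix.trace_smul,
    htr3, htr, ← ha, Matrix.trace_one, Fintype.card_fin, Matrix.trace_zero, smul_eq_mul,
    smul_eq_mul] at htb
  have ha1 : a = 1 := by
    have h6 : a * (a - 1) = 0 := by linear_combination ha2
    rcases mul_eq_zero.1 h6 with h | h
    · exfalso
      rw [h] at htb
      have : (1 : K) = 0 := by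
        push_cast at htb
        linear_combination -htb - h2
      exact one_ne_zero this
    · exact sub_eq_zero.1 h
  have hb1 : b = 1 := by
    rw [ha1] at htb
    push_cast at htb
    linear_combination htb + h2
  rw [ha1, hb1, one_smul, one_smul] at hb
  -- Y^3 - Y^2 + Y - 1 = 0
  have h4 : Y ^ 4 = 1 := by
    have h6 : (Y ^ 3 - Y ^ 2 + Y - 1) * (Y + 1) = 0 := by rw [hb, zero_mul]
    have h7 : (Y ^ 3 - Y ^ 2 + Y - 1) * (Y + 1) = Y ^ 4 - 1 := by noncomm_ring
    rw [h7] at h6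
    exact sub_eq_zero.1 h6
  calc Y = Y ^ 4 * Y := by rw [h4, one_mul]
    _ = Y ^ 5 := by rw [← pow_succ]
    _ = 1 := h5

end

theorem p_a8 : S_A8.{u} := by
  intro K _ _ hK heq
  classical
  haveI := Fintype.ofFinite K
  have h2 : (2 : K) = 0 := by
    have h1 : ((Fintype.card K : ℕ) : K) = 0 := FiniteField.cast_card_eq_zero K
    rw [← Nat.card_eq_fintype_card, hK] at h1
    have h3 : (2 : K) * 2 = 0 := by
      push_cast at h1
      linear_combination h1
    rcases mul_eq_zero.1 h3 with h | h <;> exact h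
  haveI : Finite (Matrix.SpecialLinearGroup (Fin 3) K) := Subtype.finite
  haveI : Finite (Matrix.ProjectiveSpecialLinearGroup (Fin 3) K) :=
    Quotient.finite _
  obtain ⟨hcard, hreg⟩ := Pool.Agent.Helper22.RS.p_mueq.{0, u}
    (fun G _ _ p hp => ⟨Pool.Agent.Helper3.RS.p_frob G p hp, Pool.Agent.Helper59.RS.p_frob2 G p hp⟩)
    (fun G _ _ p hp => ⟨Pool.Agent.Helper3.RS.p_frob G p hp, Pool.Agent.Helper59.RS.p_frob2 G p hp⟩)
    (alternatingGroup (Fin 8)) (Matrix.ProjectiveSpecialLinearGroup (Fin 3) K) heq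
  have hA : Nat.card (alternatingGroup (Fin 8)) = 20160 := by
    have := two_mul_nat_card_alternatingGroup (α := Fin 8)
    rw [Nat.card_perm, Nat.card_eq_fintype_card (α := Fin 8), Fintype.card_fin] at this
    have h8 : Nat.factorial 8 = 40320 := by decide
    rw [h8] at this
    omega
  have hL : Nat.card (Matrix.ProjectiveSpecialLinearGroup (Fin 3) K) = 20160 := by
    rw [← hcard, hA]
  have hr5 : reg (alternatingGroup (Fin 8)) 5 = 16128 := by
    have h := (Pool.Agent.Helper12.RS.p_cnt Pool.Agent.Helper73.RS.p_cntw).2.2 8 5 (by norm_num)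
      (by norm_num) (by norm_num)
    have h8 : ((Nat.factorial 8 : ℕ) : ℚ) = 40320 := by
      have : Nat.factorial 8 = 40320 := by decide
      rw [this]; norm_num
    have haa : aa 5 8 = 4 / 5 := by
      unfold aa
      norm_num
    have hbb : bb 5 8 = 0 := by
      unfold bb
      norm_num
    rw [h8, haa, hbb] at h
    have h9 : (reg (alternatingGroup (Fin 8)) 5 : ℚ) = 16128 := by
      rw [h]; norm_num
    exact_mod_cast h9
  have hrL : reg (Matrix.ProjectiveSpecialLinearGroup (Fin 3) K) 5 = 16128 := by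
    rw [← hreg 5 (by norm_num), hr5]
  haveI : Fact (Nat.Prime 5) := ⟨by norm_num⟩
  obtain ⟨x, hx⟩ := exists_prime_orderOf_dvd_card' (G := Matrix.ProjectiveSpecialLinearGroup (Fin 3) K) 5
    (by rw [hL]; norm_num)
  have hconj := Pool.Agent.Helper81.RS.p_auto (Matrix.ProjectiveSpecialLinearGroup (Fin 3) K) 5
    (by norm_num) (by rw [hL]; norm_num) (by rw [hrL, hL])
    (Subgroup.zpowers x) (by rw [Nat.card_zpowers, hx]) x (Subgroup.mem_zpowers x) (x ^ 2)
    (Subgroup.pow_mem _ (Subgroup.mem_zpowers x) 2)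
    (by
      intro h
      rw [h, orderOf_one] at hx
      exact absurd hx (by norm_num))
    (by
      intro h
      have := orderOf_dvd_of_pow_eq_one h
      rw [hx] at this
      exact absurd this (by norm_num))
  obtain ⟨g, hg⟩ := hconj
  -- lift
  let π : Matrix.SpecialLinearGroup (Fin 3) K →* Matrix.ProjectiveSpecialLinearGroup (Fin 3) K :=
    QuotientGroup.mk' _
  obtain ⟨z, hz⟩ : ∃ z, π z = x := QuotientGroup.mk'_surjective _ x
  obtain ⟨G, hG⟩ : ∃ z, π z = g := QuotientGroup.mk'_surjective _ g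
  have hker : ∀ c, π c = 1 → c ∈ Subgroup.center (Matrix.SpecialLinearGroup (Fin 3) K) := by
    intro c hc
    exact (QuotientGroup.eq_one_iff c).1 hc
  have hcen3 : ∀ c ∈ Subgroup.center (Matrix.SpecialLinearGroup (Fin 3) K), c ^ 3 = 1 := by
    intro c hc
    obtain ⟨r, hr, hs⟩ := Matrix.SpecialLinearGroup.mem_center_iff.1 hc
    rw [Fintype.card_fin] at hr
    apply Subtype.ext
    show (c : Matrix (Fin 3) (Fin 3) K) ^ 3 = 1
    rw [← hs, ← map_pow, hr, map_one]
  obtain ⟨y, hy⟩ : ∃ y, y = z ^ 6 := ⟨_, rfl⟩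
  have hπy : π y = x := by
    have h5 : x ^ 5 = 1 := by rw [← hx]; exact pow_orderOf_eq_one x
    rw [hy, map_pow, hz, show (6 : ℕ) = 5 + 1 from rfl, pow_succ, h5, one_mul]
  have hy5 : y ^ 5 = 1 := by
    have h5 : x ^ 5 = 1 := by rw [← hx]; exact pow_orderOf_eq_one x
    have h6 : π (z ^ 5) = 1 := by rw [map_pow, hz, h5]
    have h7 := hcen3 _ (hker _ h6)
    rw [hy, ← pow_mul]
    have : z ^ (6 * 5) = ((z ^ 5) ^ 3) ^ 2 := by rw [← pow_mul, ← pow_mul]
    rw [this, h7, one_pow]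
  obtain ⟨c, hc⟩ : ∃ c, c = (y ^ 2)⁻¹ * (G * y * G⁻¹) := ⟨_, rfl⟩
  have hcc : c ∈ Subgroup.center (Matrix.SpecialLinearGroup (Fin 3) K) := by
    apply hker
    rw [hc, map_mul, map_mul, map_mul, map_inv, map_inv, map_pow, hπy, hG, hg]
    group
  have hc1 : G * y * G⁻¹ = y ^ 2 * c := by rw [hc]; group
  have hc5 : c ^ 5 = 1 := by
    have h8 : (G * y * G⁻¹) ^ 5 = 1 := by
      rw [conj_pow, hy5]; group
    have h9 : Commute (y ^ 2) c := (Subgroup.mem_center_iff.1 hcc (y ^ 2))
    rw [hc1, h9.mul_pow, ← pow_mul, mul_comm 2 5, pow_mul, hy5, one_pow, one_mul] at h8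
    exact h8
  have hc0 : c = 1 := by
    have h3 := hcen3 c hcc
    calc c = (c ^ 3) ^ 2 * (c ^ 5)⁻¹ := by group
      _ = 1 := by rw [h3, hc5]; simp
  rw [hc0, mul_one] at hc1
  have hfin := no_order5 h2 (y : Matrix (Fin 3) (Fin 3) K) y.2
    (by
      have := congrArg Subtype.val hy5
      exact this)
    (G : Matrix (Fin 3) (Fin 3) K) ((G⁻¹ : Matrix.SpecialLinearGroup (Fin 3) K) : Matrix (Fin 3) (Fin 3) K)
    (by
      have := congrArg Subtype.val (inv_mul_cancel G)
      exact this)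
    (by
      have := congrArg Subtype.val hc1
      exact this)
  have hy1 : y = 1 := Subtype.ext hfin
  rw [hy1, map_one] at hπy
  rw [← hπy, orderOf_one] at hx
  exact absurd hx (by norm_num)

end Pool.Agent.Helper79.PS
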