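import Pool.Agent.Helper79.PS.Goals

/-!
Goals BG and BO of project PS.
-/

open Module

namespace Pool.Agent.Helper79.PS

universe u v w

section
variable {F : Type u} {V : Type v} {R : Type w} [Field F] [AddCommGroup V] [Module F V]
  [Group R]

theorem kn_of_le (B : LinearMap.BilinForm F V) (ρ : R →* (V ≃ₗ[F] V)) (A : Submodule F V)
    (hRA : ∀ g, ∀ a ∈ A, ρ g a ∈ A) (h : A ≤ B.orthogonal A) : kn B ρ A = Nat.card R := by
  unfold kn
  apply Nat.card_congr
  exact
    { toFun := fun g => g.1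
      invFun := fun g => ⟨g, fun a ha => h (A.sub_mem (hRA g a ha) ha)⟩
      left_inv := fun g => rfl
      right_inv := fun g => rfl }

end

theorem p_bg : S_BG.{u, v, w} := by
  intro hS F V R _ _ _ _ _ _ _ p _ _ B x ρ d A hB hr hx hR hρ hc
  obtain ⟨N, hN⟩ : ∃ N, N = nd B A := ⟨_, rfl⟩
  induction N using Nat.strong_induction_on generalizing A with
  | _ N ih =>
  intro hd hxA hRA
  have hq : 0 < Nat.card F := Nat.card_pos
  by_cases hle : A ≤ B.orthogonal A
  · rw [kn_of_le B ρ A hRA hle]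
    exact Nat.le_mul_of_pos_left _ (pow_pos hq _)
  · obtain ⟨A1, e, hA1, hxA1, hRA1, he1, hde, -, h⟩ :=
      hS F V R p B x ρ d A hB hr hx hR hρ hc hd hxA hRA hle
    have hd1 : ∀ A0 U : Submodule F V, U ≤ A1 → A0 < U → (∀ a ∈ A0, x a ∈ A0) →
        (∀ a ∈ U, x a ∈ U) → finrank F A0 + d ≤ finrank F U :=
      fun A0 U h1 h2 h3 h4 => hd A0 U (h1.trans hA1) h2 h3 h4
    rcases h with ⟨h1, h2⟩ | ⟨h1, h2, -⟩
    · have h3 := ih (nd B A1) (by omega) A1 rfl hd1 hxA1 hRA1
      refine h3.trans ?_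
      refine Nat.mul_le_mul ?_ (Nat.pow_le_pow_left h2 _)
      apply Nat.pow_le_pow_right hq
      apply Nat.pow_le_pow_left
      omega
    · have h3 := ih (nd B A1) (by omega) A1 rfl hd1 hxA1 hRA1
      refine h3.trans ?_
      calc Nat.card F ^ (nd B A1 ^ 2) * kn B ρ A1 ^ (4 * d)
          ≤ Nat.card F ^ (nd B A1 ^ 2) * (Nat.card F ^ (nd B A - e) * kn B ρ A) ^ (4 * d) :=
            Nat.mul_le_mul le_rfl (Nat.pow_le_pow_left h2 _)
        _ = Nat.card F ^ (nd B A1 ^ 2 + (nd B A - e) * (4 * d)) * kn B ρ A ^ (4 * d) := by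
            rw [mul_pow, ← pow_mul, ← mul_assoc, ← pow_add]
        _ ≤ Nat.card F ^ (nd B A ^ 2) * kn B ρ A ^ (4 * d) := by
            apply Nat.mul_le_mul _ le_rfl
            apply Nat.pow_le_pow_right hq
            have e2 : nd B A - e = nd B A1 + e := by omega
            rw [e2, ← h1]
            nlinarith [Nat.mul_le_mul hde (le_refl (nd B A1 + e))]

theorem p_bo : S_BO.{u, v, w} := by
  intro hS F V R _ _ _ _ _ _ _ p _ _ B ρ A hB hsym h2F hR hρ
  obtain ⟨N, hN⟩ : ∃ N, N = nd B A := ⟨_, rfl⟩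
  induction N using Nat.strong_induction_on generalizing A with
  | _ N ih =>
  intro hRA
  have hq : 0 < Nat.card F := Nat.card_pos
  by_cases hle : A ≤ B.orthogonal A
  · rw [kn_of_le B ρ A hRA hle]
    exact Nat.le_mul_of_pos_left _ (pow_pos hq _)
  · obtain ⟨A1, e, hA1, hxA1, hRA1, he1, hde, hex, h⟩ :=
      hS F V R p B (LinearEquiv.refl F V) ρ 1 A hB hsym.isRefl (fun _ _ => rfl) hR hρ
        (fun _ _ => rfl) (fun A0 U _ h2 _ _ => by
          have := Submodule.finrank_lt_finrank_of_lt h2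
          omega) (fun a ha => ha) hRA hle
    have he : e = 1 := hex (fun _ => rfl)
    subst he
    rcases h with ⟨h1, h2⟩ | ⟨h1, -, h2⟩
    · have h3 := ih (nd B A1) (by omega) A1 rfl hRA1
      refine h3.trans ?_
      refine Nat.mul_le_mul ?_ (Nat.pow_le_pow_left h2 _)
      apply Nat.pow_le_pow_right hq
      apply Nat.pow_le_pow_left
      omega
    · have h2' := h2 hsym h2F rfl
      have h3 := ih (nd B A1) (by omega) A1 rfl hRA1
      refine h3.trans ?_
      calc Nat.card F ^ ((nd B A1 - 1) ^ 2) * kn B ρ A1 ^ 4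
          ≤ Nat.card F ^ ((nd B A1 - 1) ^ 2) * (Nat.card F ^ (nd B A - 2) * kn B ρ A) ^ 4 :=
            Nat.mul_le_mul le_rfl (Nat.pow_le_pow_left h2' _)
        _ = Nat.card F ^ ((nd B A1 - 1) ^ 2 + (nd B A - 2) * 4) * kn B ρ A ^ 4 := by
            rw [mul_pow, ← pow_mul, ← mul_assoc, ← pow_add]
        _ ≤ Nat.card F ^ ((nd B A - 1) ^ 2) * kn B ρ A ^ 4 := by
            apply Nat.mul_le_mul _ le_rfl
            apply Nat.pow_le_pow_right hq
            obtain ⟨M, hM⟩ : ∃ M, nd B A1 = M := ⟨_, rfl⟩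
            have hA : nd B A = M + 2 := by omega
            rw [hM, hA]
            rcases Nat.eq_zero_or_pos M with h0 | h0
            · subst h0
              norm_num
            · obtain ⟨M', rfl⟩ : ∃ M', M = M' + 1 := ⟨M - 1, by omega⟩
              have e1 : M' + 1 - 1 = M' := by omega
              have e2 : M' + 1 + 2 - 2 = M' + 1 := by omega
              have e3 : M' + 1 + 2 - 1 = M' + 2 := by omega
              rw [e1, e2, e3]
              nlinarith

end Pool.Agent.Helper79.PS
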