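import Pool.Agent.Helper79.PS.Goals

/-!
The centre of the symplectic group over a field is `±1`.
-/

open Module Matrix

namespace Pool.Agent.Helper79.PS

universe u

theorem up_mem {F : Type u} [Field F] {n : ℕ} (S : Matrix (Fin n) (Fin n) F) (hS : Sᵀ = S) :
    Matrix.fromBlocks 1 S 0 1 ∈ Matrix.symplecticGroup (Fin n) F := by
  rw [SymplecticGroup.fromBlocks_mem_iff]
  simp [hS]

theorem low_mem {F : Type u} [Field F] {n : ℕ} (S : Matrix (Fin n) (Fin n) F) (hS : Sᵀ = S) :
    Matrix.fromBlocks 1 0 S 1 ∈ Matrix.symplecticGroup (Fin n) F := by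
  rw [SymplecticGroup.fromBlocks_mem_iff]
  simp [hS]

theorem center_eq (F : Type u) [Field F] (n : ℕ) :
    Subgroup.center (Matrix.symplecticGroup (Fin n) F) = Subgroup.zpowers (neg1 n F) := by
  apply le_antisymm
  · intro z hz
    rw [Subgroup.mem_center_iff] at hz
    obtain ⟨A, hA⟩ : ∃ A, A = (z : Matrix (Fin n ⊕ Fin n) (Fin n ⊕ Fin n) F).toBlocks₁₁ := ⟨_, rfl⟩
    obtain ⟨Bm, hBm⟩ : ∃ A, A = (z : Matrix (Fin n ⊕ Fin n) (Fin n ⊕ Fin n) F).toBlocks₁₂ := ⟨_, rfl⟩
    obtain ⟨C, hC⟩ : ∃ A, A = (z : Matrix (Fin n ⊕ Fin n) (Fin n ⊕ Fin n) F).toBlocks₂₁ := ⟨_, rfl⟩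
    obtain ⟨D, hD⟩ : ∃ A, A = (z : Matrix (Fin n ⊕ Fin n) (Fin n ⊕ Fin n) F).toBlocks₂₂ := ⟨_, rfl⟩
    have hzm : (z : Matrix (Fin n ⊕ Fin n) (Fin n ⊕ Fin n) F) = Matrix.fromBlocks A Bm C D := by
      rw [hA, hBm, hC, hD, Matrix.fromBlocks_toBlocks]
    have hup : ∀ S : Matrix (Fin n) (Fin n) F, Sᵀ = S → S * C = 0 ∧ S * D = A * S := by
      intro S hS
      have h1 := congrArg Subtype.val (hz ⟨_, up_mem S hS⟩)
      have h2 : Matrix.fromBlocks 1 S 0 1 * Matrix.fromBlocks A Bm C D =
          Matrix.fromBlocks A Bm C D * Matrix.fromBlocks 1 S 0 1 := by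
        rw [← hzm]; exact h1
      rw [Matrix.fromBlocks_multiply, Matrix.fromBlocks_multiply] at h2
      obtain ⟨e1, e2, e3, e4⟩ := Matrix.fromBlocks_inj.1 h2
      simp only [Matrix.one_mul, Matrix.mul_one, Matrix.zero_mul, Matrix.mul_zero, zero_add,
        add_zero] at e1 e2 e3 e4
      refine ⟨left_eq_add.1 e1.symm, ?_⟩
      rw [add_comm Bm] at e2
      exact add_right_cancel e2
    have hlow : ∀ S : Matrix (Fin n) (Fin n) F, Sᵀ = S → Bm * S = 0 := by
      intro S hS
      have h1 := congrArg Subtype.val (hz ⟨_, low_mem S hS⟩)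
      have h2 : Matrix.fromBlocks 1 0 S 1 * Matrix.fromBlocks A Bm C D =
          Matrix.fromBlocks A Bm C D * Matrix.fromBlocks 1 0 S 1 := by
        rw [← hzm]; exact h1
      rw [Matrix.fromBlocks_multiply, Matrix.fromBlocks_multiply] at h2
      obtain ⟨e1, e2, e3, e4⟩ := Matrix.fromBlocks_inj.1 h2
      simp only [Matrix.one_mul, Matrix.mul_one, Matrix.zero_mul, Matrix.mul_zero, zero_add,
        add_zero] at e1 e2 e3 e4
      exact left_eq_add.1 e1
    have hC0 : C = 0 := by
      have := (hup 1 Matrix.transpose_one).1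
      rwa [Matrix.one_mul] at this
    have hB0 : Bm = 0 := by
      have := hlow 1 Matrix.transpose_one
      rwa [Matrix.mul_one] at this
    have hAD : D = A := by
      have := (hup 1 Matrix.transpose_one).2
      rwa [Matrix.one_mul, Matrix.mul_one] at this
    have hcomm : ∀ S : Matrix (Fin n) (Fin n) F, Sᵀ = S → S * A = A * S := by
      intro S hS
      have := (hup S hS).2
      rwa [hAD] at this
    have hoff : ∀ i j, j ≠ i → A j i = 0 := by
      intro i j hji
      have h1 := hcomm (Matrix.single i i 1) (by rw [Matrix.transpose_single])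
      have h2 := congrFun (congrFun h1 j) i
      rw [Matrix.single_mul_apply_of_ne _ _ _ _ _ hji] at h2
      rw [Matrix.mul_single_apply_same, mul_one] at h2
      exact h2.symm
    have hdiag : ∀ i j, i ≠ j → A i i = A j j := by
      intro i j hij
      have h1 := hcomm (Matrix.single i j 1 + Matrix.single j i 1)
        (by rw [Matrix.transpose_add, Matrix.transpose_single, Matrix.transpose_single, add_comm])
      have h2 := congrFun (congrFun h1 i) j
      rw [Matrix.add_mul, Matrix.mul_add, Matrix.add_apply, Matrix.add_apply,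
        Matrix.single_mul_apply_same, Matrix.single_mul_apply_of_ne _ _ _ _ _ hij,
        Matrix.mul_single_apply_same, Matrix.mul_single_apply_of_ne _ _ _ _ _ (Ne.symm hij)] at h2
      rw [mul_one, one_mul, add_zero, add_zero] at h2
      exact h2.symm
    have hsymp := z.2
    rw [hzm, SymplecticGroup.fromBlocks_mem_iff] at hsymp
    have h1 : Aᵀ * A = 1 := by
      have := hsymp.2.2
      rw [hAD, hC0, Matrix.transpose_zero, Matrix.zero_mul, sub_zero] at this
      exact this
    rcases Nat.eq_zero_or_pos n with hn | hn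
    · subst hn
      have : z = 1 := by
        apply Subtype.ext
        ext i
        rcases i with i | i <;> exact i.elim0
      rw [this]
      exact Subgroup.one_mem _
    · obtain ⟨a, ha⟩ : ∃ a, a = A ⟨0, hn⟩ ⟨0, hn⟩ := ⟨_, rfl⟩
      have hAs : A = a • (1 : Matrix (Fin n) (Fin n) F) := by
        ext i j
        rw [Matrix.smul_apply, smul_eq_mul, Matrix.one_apply]
        by_cases hij : i = j
        · subst hij
          rw [if_pos rfl, mul_one, ha]
          by_cases hi : i = ⟨0, hn⟩
          · rw [hi]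
          · exact hdiag _ _ hi
        · rw [if_neg hij, mul_zero]
          exact hoff j i hij
      have ha2 : a * a = 1 := by
        rw [hAs, Matrix.transpose_smul, Matrix.transpose_one, Matrix.smul_mul, Matrix.one_mul,
          smul_smul] at h1
        have := congrFun (congrFun h1 ⟨0, hn⟩) ⟨0, hn⟩
        rw [Matrix.smul_apply, Matrix.one_apply_eq, smul_eq_mul, mul_one] at this
        exact this
      have h3 : (a - 1) * (a + 1) = 0 := by linear_combination ha2
      rcases mul_eq_zero.1 h3 with h | h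
      · have : z = 1 := by
          apply Subtype.ext
          rw [hzm, hC0, hB0, hAD, hAs, sub_eq_zero.1 h, one_smul, Matrix.fromBlocks_one]
          rfl
        rw [this]
        exact Subgroup.one_mem _
      · have : z = neg1 n F := by
          apply Subtype.ext
          rw [hzm, hC0, hB0, hAD, hAs, eq_neg_of_add_eq_zero_left h, neg_one_smul]
          show _ = (-1 : Matrix (Fin n ⊕ Fin n) (Fin n ⊕ Fin n) F)
          rw [← Matrix.fromBlocks_one, Matrix.fromBlocks_neg, neg_zero]
        rw [this]
        exact Subgroup.mem_zpowers _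
  · rw [Subgroup.zpowers_le, Subgroup.mem_center_iff]
    intro g
    apply Subtype.ext
    simp [neg1]

end Pool.Agent.Helper79.PS
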