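import Pool.Agent.Helper79.PS.Goals

/-!
Goal CLS of project PS.
-/

namespace Pool.Agent.Helper79.PS

universe u

theorem p_cls : S_CLS.{u} := by
  intro G _ _ p a k _ Y ha hconj hR
  classical
  have hp : p.Prime := Fact.out
  obtain ⟨P, hP⟩ := Sylow.exists_subgroup_card_pow_prime p ha
  letI act : MulAction P Y :=
    { smul := fun g y => ⟨g.1 * y.1 * g.1⁻¹, hconj g.1 y.1 y.2⟩
      one_smul := by
        intro y
        apply Subtype.ext
        show (1 : G) * y.1 * (1 : G)⁻¹ = y.1
        simp
      mul_smul := by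
        intro g h y
        apply Subtype.ext
        show (g.1 * h.1) * y.1 * (g.1 * h.1)⁻¹ = g.1 * (h.1 * y.1 * h.1⁻¹) * g.1⁻¹
        group }
  have hsm : ∀ (g : P) (y : Y), (g • y).1 = g.1 * y.1 * g.1⁻¹ := fun _ _ => rfl
  have horb : ∀ y : Y, p ^ (k + 1) ∣ Nat.card (MulAction.orbit P y) := by
    intro y
    haveI := Fintype.ofFinite P
    haveI := Fintype.ofFinite (MulAction.orbit P y)
    haveI := Fintype.ofFinite (MulAction.stabilizer P y)
    have h1 := MulAction.card_orbit_mul_card_stabilizer_eq_card_group P y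
    rw [← Nat.card_eq_fintype_card, ← Nat.card_eq_fintype_card, ← Nat.card_eq_fintype_card, hP] at h1
    obtain ⟨b, hba, hb⟩ := (Nat.dvd_prime_pow hp).1 (Dvd.intro_left _ h1)
    let R : Subgroup G := (MulAction.stabilizer P y).map P.subtype
    have hRc : Nat.card R = p ^ b := by
      rw [← hb]
      exact Nat.card_congr
        ((MulAction.stabilizer P y).equivMapOfInjective _ P.subtype_injective).toEquiv.symm
    have hRp : IsPGroup p R := IsPGroup.of_card hRc
    have h2 := hR y.1 y.2 R hRp (by
      rintro _ ⟨g, hg, rfl⟩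
      have h3 : (g • y).1 = y.1 := congrArg Subtype.val (MulAction.mem_stabilizer_iff.1 hg)
      rw [hsm] at h3
      exact mul_inv_eq_iff_eq_mul.1 h3)
    rw [hRc, ← pow_add] at h2
    have h4 : b + k < a := (Nat.pow_lt_pow_iff_right hp.one_lt).1 h2
    have h5 : Nat.card (MulAction.orbit P y) = p ^ (a - b) := by
      rw [hb] at h1
      have h6 : p ^ a = p ^ (a - b) * p ^ b := by
        rw [← pow_add]
        congr 1
        omega
      rw [h6] at h1
      exact Nat.eq_of_mul_eq_mul_right (pow_pos hp.pos b) h1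
    rw [h5]
    exact pow_dvd_pow p (by omega)
  have hc := Nat.card_congr (MulAction.selfEquivSigmaOrbits P Y)
  haveI := Fintype.ofFinite (Quotient (MulAction.orbitRel P Y))
  rw [Nat.card_sigma] at hc
  rw [show Nat.card Y = _ from hc]
  apply Finset.dvd_sum
  intro ω _
  exact horb _

end Pool.Agent.Helper79.PS
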