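import Pool.Agent.Helper79.PS.Step

/-!
Common lemmas for the goals SPX and OX of project PS.
-/

open Module

namespace Pool.Agent.Helper79.PS

universe u v w

theorem fin_bound (r q n s k : ℕ) (hq : 1 < q) (hk : k ≠ 0) (h : r ^ k ≤ q ^ s)
    (hs : s + k * n < k * n ^ 2) : r * q ^ n < q ^ (n ^ 2) := by
  apply lt_of_pow_lt_pow_left₀ k (Nat.zero_le _)
  calc (r * q ^ n) ^ k = r ^ k * q ^ (k * n) := by rw [mul_pow, ← pow_mul, mul_comm n k]
    _ ≤ q ^ s * q ^ (k * n) := Nat.mul_le_mul h le_rfl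
    _ = q ^ (s + k * n) := by rw [pow_add]
    _ < q ^ (k * n ^ 2) := Nat.pow_lt_pow_right hq hs
    _ = (q ^ (n ^ 2)) ^ k := by rw [← pow_mul, mul_comm]

section
variable {F : Type u} {V : Type v} {R : Type w} [Field F] [AddCommGroup V] [Module F V]
  [Group R]

/-- pointwise stabilizer of `A` in `R` -/
def fixSub (ρ : R →* (V ≃ₗ[F] V)) (A : Submodule F V) : Subgroup R where
  carrier := {g | ∀ a ∈ A, ρ g a = a}
  one_mem' := by
    intro a _
    rw [map_one]; rfl
  mul_mem' := by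
    intro g h hg hh a ha
    rw [map_mul]
    show ρ g (ρ h a) = a
    rw [hh a ha, hg a ha]
  inv_mem' := by
    intro g hg a ha
    have h1 : ρ g⁻¹ (ρ g a) = a := by
      have : ρ g⁻¹ (ρ g a) = (ρ g⁻¹ * ρ g) a := rfl
      rw [this, ← map_mul, inv_mul_cancel, map_one]
      rfl
    rw [hg a ha] at h1
    exact h1

theorem mem_fixSub (ρ : R →* (V ≃ₗ[F] V)) (A : Submodule F V) (g : R) :
    g ∈ fixSub ρ A ↔ ∀ a ∈ A, ρ g a = a := Iff.rfl

theorem nd_of_inf (B : LinearMap.BilinForm F V) (A : Submodule F V)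
    (h : A ⊓ B.orthogonal A = ⊥) : nd B A = finrank F A := by
  unfold nd
  rw [h, finrank_bot, Nat.sub_zero]

theorem kn_of_inf (B : LinearMap.BilinForm F V) (ρ : R →* (V ≃ₗ[F] V)) (A : Submodule F V)
    (hRA : ∀ g, ∀ a ∈ A, ρ g a ∈ A)
    (h : A ⊓ B.orthogonal A = ⊥) : kn B ρ A = Nat.card (fixSub ρ A) := by
  unfold kn
  apply Nat.card_congr
  refine
    { toFun := fun g => ⟨g.1, fun a ha => ?_⟩
      invFun := fun g => ⟨g.1, fun a ha => ?_⟩
      left_inv := fun g => rfl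
      right_inv := fun g => rfl }
  · have h1 : ρ g.1 a - a ∈ A ⊓ B.orthogonal A := ⟨A.sub_mem (hRA _ a ha) ha, g.2 a ha⟩
    rw [h, Submodule.mem_bot] at h1
    exact sub_eq_zero.1 h1
  · rw [g.2 a ha, sub_self]
    exact Submodule.zero_mem _

/-- restriction of the action to an invariant subspace -/
def resHom (ρ : R →* (V ≃ₗ[F] V)) (E : Submodule F V) (hE : ∀ g, ∀ a ∈ E, ρ g a ∈ E) :
    R →* (E ≃ₗ[F] E) where
  toFun g := LinearEquiv.ofLinear ((ρ g : V →ₗ[F] V).restrict (hE g))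
    ((ρ g⁻¹ : V →ₗ[F] V).restrict (hE g⁻¹))
    (by
      ext a
      show ρ g (ρ g⁻¹ a.1) = a.1
      have : ρ g (ρ g⁻¹ a.1) = (ρ g * ρ g⁻¹) a.1 := rfl
      rw [this, ← map_mul, mul_inv_cancel, map_one]
      rfl)
    (by
      ext a
      show ρ g⁻¹ (ρ g a.1) = a.1
      have : ρ g⁻¹ (ρ g a.1) = (ρ g⁻¹ * ρ g) a.1 := rfl
      rw [this, ← map_mul, inv_mul_cancel, map_one]
      rfl)
  map_one' := by
    ext a
    show ρ 1 a.1 = a.1
    rw [map_one]; rfl
  map_mul' g h := by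
    ext a
    show ρ (g * h) a.1 = ρ g (ρ h a.1)
    rw [map_mul]; rfl

theorem resHom_apply (ρ : R →* (V ≃ₗ[F] V)) (E : Submodule F V) (hE : ∀ g, ∀ a ∈ E, ρ g a ∈ E)
    (g : R) (a : E) : ((resHom ρ E hE g) a : V) = ρ g a.1 := rfl

theorem fix_top (ρ : R →* (V ≃ₗ[F] V)) (hinj : Function.Injective ρ) (g : R)
    (h : ∀ v, ρ g v = v) : g = 1 := by
  apply hinj
  rw [map_one]
  ext v
  exact h v

theorem mem_ker_sub' (x : V ≃ₗ[F] V) (c : F) (v : V) :
    v ∈ LinearMap.ker ((x : V →ₗ[F] V) - c • LinearMap.id) ↔ x v = c • v := by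
  rw [LinearMap.mem_ker]
  simp [sub_eq_zero]

theorem eig_orth' (B : LinearMap.BilinForm F V) (x : V ≃ₗ[F] V)
    (hx : ∀ u v, B (x u) (x v) = B u v) (c d : F) (hcd : c * d ≠ 1) (u v : V)
    (hu : x u = c • u) (hv : x v = d • v) : B u v = 0 := by
  have h := hx u v
  rw [hu, hv] at h
  simp only [map_smul, LinearMap.smul_apply, smul_eq_mul] at h
  have h2 : (c * d - 1) * B u v = 0 := by linear_combination h
  rcases mul_eq_zero.1 h2 with h3 | h3
  · exact absurd (by linear_combination h3) hcd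
  · exact h3

theorem dim2 [FiniteDimensional F V] (x : V ≃ₗ[F] V) (A : Submodule F V)
    (hno : ∀ (c : F) (v : V), v ∈ A → x v = c • v → v = 0) (A0 U : Submodule F V)
    (hUA : U ≤ A) (hlt : A0 < U) (hx0 : ∀ a ∈ A0, x a ∈ A0) (hxU : ∀ a ∈ U, x a ∈ U) :
    finrank F A0 + 2 ≤ finrank F U := by
  by_contra hcon
  have h1 := Submodule.finrank_lt_finrank_of_lt hlt
  have h2 : finrank F U = finrank F A0 + 1 := by omega
  obtain ⟨u, huU, huA⟩ := SetLike.exists_of_lt hlt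
  have h3 : A0 ⊔ (F ∙ u) ≤ U := sup_le hlt.le (by
    rw [Submodule.span_singleton_le_iff_mem]; exact huU)
  have h4 : A0 ⊔ (F ∙ u) = U := by
    apply Submodule.eq_of_le_of_finrank_le h3
    have h5 : A0 < A0 ⊔ (F ∙ u) := by
      refine lt_of_le_of_ne le_sup_left ?_
      intro h
      apply huA
      rw [h]
      exact Submodule.mem_sup_right (Submodule.mem_span_singleton_self u)
    have := Submodule.finrank_lt_finrank_of_lt h5
    omega
  have h5 : x u ∈ A0 ⊔ (F ∙ u) := by rw [h4]; exact hxU u huU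
  obtain ⟨a0, ha0, y, hy, hay⟩ := Submodule.mem_sup.1 h5
  obtain ⟨c, rfl⟩ := Submodule.mem_span_singleton.1 hy
  have h6 : ∀ y ∈ U, x y - c • y ∈ A0 := by
    intro y hy
    rw [← h4] at hy
    obtain ⟨a, ha, z, hz, rfl⟩ := Submodule.mem_sup.1 hy
    obtain ⟨t, rfl⟩ := Submodule.mem_span_singleton.1 hz
    have e1 : x (a + t • u) - c • (a + t • u) = (x a - c • a) + t • (x u - c • u) := by
      rw [map_add, map_smul]
      module
    have e2 : x u - c • u = a0 := by rw [← hay]; abel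
    rw [e1, e2]
    exact A0.add_mem (A0.sub_mem (hx0 a ha) (A0.smul_mem c ha)) (A0.smul_mem t ha0)
  let f : U →ₗ[F] A0 :=
    LinearMap.codRestrict A0 (((x : V →ₗ[F] V) - c • LinearMap.id).comp U.subtype)
      (fun y => by simpa using h6 y.1 y.2)
  have hf : Function.Injective f := by
    rw [← LinearMap.ker_eq_bot, Submodule.eq_bot_iff]
    intro y hy
    have h7 : x y.1 - c • y.1 = 0 := by
      have := congrArg Subtype.val (LinearMap.mem_ker.1 hy)
      simpa [f] using this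
    apply Subtype.ext
    exact hno c y.1 (hUA y.2) (sub_eq_zero.1 h7)
  have := LinearMap.finrank_le_finrank_of_injective hf
  omega

end

section
variable {F : Type u} {V : Type v} {R : Type w} [Field F] [Finite F] [AddCommGroup V]
  [Module F V] [FiniteDimensional F V] [Group R] [Finite R] {p : ℕ} [Fact p.Prime] [CharP F p]

/-- `R`-invariant decomposition, symplectic -/
theorem two (hS : S_STEP.{u, v, w}) (hBG : S_BG.{u, v, w}) (B : LinearMap.BilinForm F V)
    (hB : B.Nondegenerate) (hr : B.IsRefl) (ρ : R →* (V ≃ₗ[F] V)) (hR : IsPGroup p R)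
    (hρ : ∀ g u v, B (ρ g u) (ρ g v) = B u v) (hinj : Function.Injective ρ)
    (A : Submodule F V) (hRA : ∀ g, ∀ a ∈ A, ρ g a ∈ A) (hA : A ⊓ B.orthogonal A = ⊥) :
    Nat.card R ^ 4 ≤ Nat.card F ^ (finrank F A ^ 2 + finrank F (B.orthogonal A) ^ 2) := by
  have hd : ∀ (X A0 U : Submodule F V), U ≤ X → A0 < U → (∀ a ∈ A0, (LinearEquiv.refl F V) a ∈ A0) →
      (∀ a ∈ U, (LinearEquiv.refl F V) a ∈ U) → finrank F A0 + 1 ≤ finrank F U :=
    fun X A0 U _ h2 _ _ => by
      have := Submodule.finrank_lt_finrank_of_lt h2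
      omega
  have h1 := hBG hS F V R p B (LinearEquiv.refl F V) ρ 1 A hB hr (fun _ _ => rfl) hR hρ
    (fun _ _ => rfl) (hd A) (fun a ha => ha) hRA
  rw [nd_of_inf B A hA, kn_of_inf B ρ A hRA hA] at h1
  have hR' : IsPGroup p (fixSub ρ A) := hR.to_subgroup _
  have hPA : ∀ g, ∀ a ∈ B.orthogonal A, ρ g a ∈ B.orthogonal A :=
    fun g => perp_inv (ρ g) (hρ g) A (hRA g)
  have hA' : B.orthogonal A ⊓ B.orthogonal (B.orthogonal A) = ⊥ := by
    rw [LinearMap.BilinForm.orthogonal_orthogonal hB hr, inf_comm, hA]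
  let ρ' : fixSub ρ A →* (V ≃ₗ[F] V) := ρ.comp (fixSub ρ A).subtype
  have h2 := hBG hS F V (fixSub ρ A) p B (LinearEquiv.refl F V) ρ' 1 (B.orthogonal A) hB hr
    (fun _ _ => rfl) hR' (fun g => hρ g.1)
    (fun _ _ => rfl) (hd _) (fun a ha => ha) (fun g => hPA g.1)
  rw [nd_of_inf B _ hA', kn_of_inf B ρ' _ (fun g => hPA g.1) hA'] at h2
  have h3 : Nat.card (fixSub ρ' (B.orthogonal A)) = 1 := by
    rw [Nat.card_eq_one_iff_unique]
    refine ⟨⟨?_⟩, ⟨1⟩⟩
    have key : ∀ g : fixSub ρ' (B.orthogonal A), g = 1 := by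
      intro g
      apply Subtype.ext
      apply Subtype.ext
      apply fix_top ρ hinj
      intro v
      have h4 : A ⊔ B.orthogonal A = ⊤ := by
        have h5 := perp_inf hB hr A (B.orthogonal A)
        rw [hA, LinearMap.BilinForm.orthogonal_orthogonal hB hr,
          LinearMap.BilinForm.orthogonal_bot] at h5
        rw [sup_comm]
        exact h5.symm
      have h6 : v ∈ A ⊔ B.orthogonal A := by rw [h4]; trivial
      obtain ⟨a, ha, b, hb, rfl⟩ := Submodule.mem_sup.1 h6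
      have h7 : ρ g.1.1 a = a := g.1.2 a ha
      have h8 : ρ g.1.1 b = b := g.2 b hb
      rw [map_add, h7, h8]
    intro g h
    rw [key g, key h]
  rw [h3] at h2
  simp only [mul_one, one_pow] at h1 h2
  calc Nat.card R ^ 4 ≤ Nat.card F ^ (finrank F A ^ 2) * Nat.card (fixSub ρ A) ^ 4 := h1
    _ ≤ Nat.card F ^ (finrank F A ^ 2) * Nat.card F ^ (finrank F (B.orthogonal A) ^ 2) :=
        Nat.mul_le_mul le_rfl h2
    _ = _ := by rw [pow_add]

/-- faithful action on a maximal totally isotropic subspace -/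
theorem iso_bound (hPGL : S_PGL.{u, v, w}) (B : LinearMap.BilinForm F V)
    (hB : B.Nondegenerate) (ρ : R →* (V ≃ₗ[F] V)) (hR : IsPGroup p R)
    (hρ : ∀ g u v, B (ρ g u) (ρ g v) = B u v)
    (E E' : Submodule F V) (hE : ∀ g, ∀ a ∈ E, ρ g a ∈ E) (hE' : ∀ g, ∀ a ∈ E', ρ g a ∈ E')
    (hi' : ∀ u ∈ E', ∀ v ∈ E', B u v = 0) (C : Submodule F V)
    (hC : ∀ g, ∀ a ∈ C, ρ g a = a) (hCE : ∀ u ∈ C, ∀ v ∈ E', B u v = 0)
    (hinj : Function.Injective ρ) (htop : C ⊔ (E ⊔ E') = ⊤) :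
    Nat.card R ≤ Nat.card F ^ (finrank F E * (finrank F E - 1) / 2) := by
  refine hPGL F E R p (resHom ρ E hE) hR ?_
  rw [injective_iff_map_eq_one]
  intro g hg
  have h1 : ∀ u ∈ E, ρ g u = u := by
    intro u hu
    have := resHom_apply ρ E hE g ⟨u, hu⟩
    rw [hg] at this
    exact this.symm
  apply fix_top ρ hinj
  have h2 : ∀ w ∈ E', ρ g w = w := by
    intro w hw
    have hy : ρ g w - w ∈ E' := E'.sub_mem (hE' g w hw) hw
    apply sub_eq_zero.1
    apply hB.2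
    intro v
    have hv : v ∈ C ⊔ (E ⊔ E') := by rw [htop]; trivial
    obtain ⟨c, hc, z, hz, rfl⟩ := Submodule.mem_sup.1 hv
    obtain ⟨u, hu, u', hu', rfl⟩ := Submodule.mem_sup.1 hz
    have e1 : B c (ρ g w - w) = 0 := hCE c hc _ hy
    have e2 : B u' (ρ g w - w) = 0 := hi' u' hu' _ hy
    have e3 : B u (ρ g w - w) = 0 := by
      have : B u (ρ g w) = B u w := by
        conv_lhs => rw [← h1 u hu]
        rw [hρ]
      rw [map_sub, this, sub_self]
    rw [map_add, map_add, LinearMap.add_apply, LinearMap.add_apply, e1, e2, e3]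
    simp
  intro v
  have hv : v ∈ C ⊔ (E ⊔ E') := by rw [htop]; trivial
  obtain ⟨c, hc, z, hz, rfl⟩ := Submodule.mem_sup.1 hv
  obtain ⟨u, hu, u', hu', rfl⟩ := Submodule.mem_sup.1 hz
  rw [map_add, map_add, hC g c hc, h1 u hu, h2 u' hu']

end

end Pool.Agent.Helper79.PS
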