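import Pool.Agent.Helper79.PS.Step

/-!
Goal EIG of project PS.
-/

open Module

namespace Pool.Agent.Helper79.PS

universe u v

section
variable {F : Type u} {V : Type v} [Field F] [AddCommGroup V] [Module F V]

theorem mem_ker_sub (x : V ≃ₗ[F] V) (c : F) (v : V) :
    v ∈ LinearMap.ker ((x : V →ₗ[F] V) - c • LinearMap.id) ↔ x v = c • v := by
  rw [LinearMap.mem_ker]
  simp [sub_eq_zero]

theorem eig_key (x : V ≃ₗ[F] V) (m : ℕ) (c : F) (hm : (m : F) ≠ 0) (hxm : ∀ v, (x ^ m) v = v)
    (hc : c ≠ 0) (u v : V) (h1 : x v = c • v) (h2 : x u - c • u = v) : v = 0 := by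
  have h3 : x u = c • u + v := by rw [← h2]; abel
  have key : ∀ k : ℕ, c • (x ^ k) u = c ^ (k + 1) • u + ((k : F) * c ^ k) • v := by
    intro k
    induction k with
    | zero => simp
    | succ k ih =>
      have e1 : (x ^ (k + 1)) u = x ((x ^ k) u) := by
        rw [pow_succ']; rfl
      rw [e1, ← map_smul, ih, map_add, map_smul, map_smul, h1, h3, smul_add, smul_smul, smul_smul]
      rw [add_assoc, ← add_smul]
      congr 1
      · rw [pow_succ c (k + 1)]
      · congr 1
        push_cast
        ring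
  have h4 := key m
  rw [hxm] at h4
  by_contra hv
  -- apply x - c
  have h5 : c • v = c ^ (m + 1) • v := by
    have h6 := congrArg (fun y => x y - c • y) h4
    simp only [map_smul, map_add, h1, h3] at h6
    have h7 : c • v = c • (c • u + v) - c • c • u := by
      rw [smul_add]; abel
    rw [h7, h6]
    simp only [smul_add, smul_smul]
    rw [mul_comm (c ^ (m + 1)) c, mul_comm ((m : F) * c ^ m) c]
    abel
  have h8 : c ^ m = 1 := by
    have h9 : (c - c ^ (m + 1)) • v = 0 := by rw [sub_smul, ← h5, sub_self]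
    rcases smul_eq_zero.1 h9 with h | h
    · have : c * (c ^ m - 1) = 0 := by
        rw [pow_succ] at h
        linear_combination -h
      rcases mul_eq_zero.1 this with h | h
      · exact absurd h hc
      · linear_combination h
    · exact absurd h hv
  rw [pow_succ, h8, one_mul, mul_one] at h4
  have h10 : (m : F) • v = 0 := by
    have := h4.symm
    rwa [add_eq_left] at this
  rcases smul_eq_zero.1 h10 with h | h
  · exact hm h
  · exact hv h

theorem eig_orth (B : LinearMap.BilinForm F V) (x : V ≃ₗ[F] V)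
    (hx : ∀ u v, B (x u) (x v) = B u v) (c d : F) (hcd : c * d ≠ 1) (u v : V)
    (hu : x u = c • u) (hv : x v = d • v) : B u v = 0 := by
  have h := hx u v
  rw [hu, hv] at h
  simp only [map_smul, LinearMap.smul_apply, smul_eq_mul] at h
  have h2 : (c * d - 1) * B u v = 0 := by linear_combination h
  rcases mul_eq_zero.1 h2 with h3 | h3
  · exact absurd (by linear_combination h3) hcd
  · exact h3

theorem eig_perp [FiniteDimensional F V] (B : LinearMap.BilinForm F V) (x : V ≃ₗ[F] V)
    (hB : B.Nondegenerate) (hr : B.IsRefl)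
    (hx : ∀ u v, B (x u) (x v) = B u v) (c : F) (hc : c ≠ 0) :
    B.orthogonal (LinearMap.ker ((x : V →ₗ[F] V) - c • LinearMap.id)) ≤
      LinearMap.range ((x : V →ₗ[F] V) - c⁻¹ • LinearMap.id) := by
  have h1 : B.orthogonal (LinearMap.range ((x : V →ₗ[F] V) - c⁻¹ • LinearMap.id)) ≤
      LinearMap.ker ((x : V →ₗ[F] V) - c • LinearMap.id) := by
    intro u hu
    rw [mem_ker_sub]
    have h2 : ∀ w, B w (x.symm u - c⁻¹ • u) = 0 := by
      intro w
      have h3 : B (x w - c⁻¹ • w) u = 0 := hu _ ⟨w, by simp⟩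
      have h4 : B (x w) u = B w (x.symm u) := by
        conv_lhs => rw [← x.apply_symm_apply u]
        rw [hx]
      rw [map_sub, LinearMap.sub_apply, h4, map_smul, LinearMap.smul_apply] at h3
      rw [map_sub, map_smul]
      exact h3
    have h5 : x.symm u - c⁻¹ • u = 0 := hB.2 _ h2
    have h6 : x.symm u = c⁻¹ • u := sub_eq_zero.1 h5
    have h7 := congrArg x h6
    rw [x.apply_symm_apply, map_smul] at h7
    rw [h7, smul_smul, mul_inv_cancel₀ hc, one_smul, ← h7]
  have h2 := LinearMap.BilinForm.orthogonal_le (B := B) h1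
  rwa [LinearMap.BilinForm.orthogonal_orthogonal hB hr] at h2

end

theorem p_eig : S_EIG.{u, v} := by
  intro F V _ _ _ _ B x m c A hB hr hx hm hxm hc hA
  have hci : c⁻¹ ≠ 0 := inv_ne_zero hc
  constructor
  · rw [Submodule.eq_bot_iff]
    rintro a ⟨haA, haP⟩
    have hp1 : a ∈ LinearMap.range ((x : V →ₗ[F] V) - c⁻¹ • LinearMap.id) :=
      eig_perp B x hB hr hx c hc
        (LinearMap.BilinForm.orthogonal_le (by rw [hA]; exact le_sup_left) haP)
    have hp2 : a ∈ LinearMap.range ((x : V →ₗ[F] V) - c • LinearMap.id) := by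
      have := eig_perp B x hB hr hx c⁻¹ hci
        (LinearMap.BilinForm.orthogonal_le (by rw [hA]; exact le_sup_right) haP)
      rwa [inv_inv] at this
    obtain ⟨u1, hu1⟩ := hp1
    obtain ⟨u2, hu2⟩ := hp2
    have hu1' : x u1 - c⁻¹ • u1 = a := by simpa using hu1
    have hu2' : x u2 - c • u2 = a := by simpa using hu2
    rw [hA] at haA
    obtain ⟨v, hv, w, hw, hvw⟩ := Submodule.mem_sup.1 haA
    rw [mem_ker_sub] at hv hw
    by_cases hcc : c = c⁻¹
    · have ha : x a = c • a := by
        rw [← hvw, map_add, hv, hw, smul_add, ← hcc]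
      exact eig_key x m c hm hxm hc u2 a ha hu2'
    · have hd : c⁻¹ - c ≠ 0 := sub_ne_zero.2 (Ne.symm hcc)
      have hd' : c - c⁻¹ ≠ 0 := sub_ne_zero.2 hcc
      have hv0 : v = 0 := by
        apply eig_key x m c hm hxm hc (u2 - (c⁻¹ - c)⁻¹ • w) v hv
        have e1 : x (u2 - (c⁻¹ - c)⁻¹ • w) - c • (u2 - (c⁻¹ - c)⁻¹ • w) =
            (x u2 - c • u2) - ((c⁻¹ - c)⁻¹ * (c⁻¹ - c)) • w := by
          rw [map_sub, map_smul, hw]
          module
        rw [e1, hu2', inv_mul_cancel₀ hd, one_smul, ← hvw]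
        abel
      have hw0 : w = 0 := by
        apply eig_key x m c⁻¹ hm hxm hci (u1 - (c - c⁻¹)⁻¹ • v) w hw
        have e1 : x (u1 - (c - c⁻¹)⁻¹ • v) - c⁻¹ • (u1 - (c - c⁻¹)⁻¹ • v) =
            (x u1 - c⁻¹ • u1) - ((c - c⁻¹)⁻¹ * (c - c⁻¹)) • v := by
          rw [map_sub, map_smul, hv]
          module
        rw [e1, hu1', inv_mul_cancel₀ hd', one_smul, ← hvw]
        abel
      rw [← hvw, hv0, hw0, add_zero]
  · intro hcc u v hu hv
    apply eig_orth B x hx c c _ u v hu hv
    intro h
    apply hcc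
    field_simp
    linear_combination h

end Pool.Agent.Helper79.PS
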