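import Pool.Agent.Helper79.PS.Main
import Pool.Agent.Helper79.PS.A8
import Pool.Agent.Helper79.PS.Center

/-!
Final form of project PS.
-/

namespace Pool.Agent.Helper79.PS

open Pool.Agent.Helper10.RS

universe u

theorem main_aux (F : Type u) [Field F] [Finite F] (n : ℕ) (h2F : (2 : F) ≠ 0) (hn : 3 ≤ n)
    (N : Subgroup (Matrix.symplecticGroup (Fin n) F)) [hN : N.Normal]
    (h : N = Subgroup.zpowers (neg1 n F)) :
    muSet (Matrix.symplecticGroup (Fin n) F ⧸ N) ≠
      muSet (commutator (Matrix.orthogonalGroup (Fin (2 * n + 1)) F)) := by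
  subst h
  exact p_main.{u} F n h2F hn

theorem final (F : Type u) [Field F] [Finite F] (n : ℕ) (h2F : (2 : F) ≠ 0) (hn : 3 ≤ n) :
    muSet (Matrix.symplecticGroup (Fin n) F ⧸ Subgroup.center (Matrix.symplecticGroup (Fin n) F)) ≠
      muSet (commutator (Matrix.orthogonalGroup (Fin (2 * n + 1)) F)) :=
  main_aux F n h2F hn _ (center_eq F n)

end Pool.Agent.Helper79.PS
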