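import Pool.Agent.Helper79.PS.Goals

/-!
Goals PGL and SPL of project PS.
-/

open Module Matrix

namespace Pool.Agent.Helper79.PS

universe u v w

theorem card_GL_eq (F : Type u) [Field F] [Finite F] (p : ℕ) [Fact p.Prime] [CharP F p] (n : ℕ) :
    ∃ c, Nat.card (GL (Fin n) F) = Nat.card F ^ (n * (n - 1) / 2) * c ∧ Nat.Coprime p c := by
  haveI := Fintype.ofFinite F
  have hp : p.Prime := Fact.out
  rw [Matrix.card_GL_field, ← Nat.card_eq_fintype_card]
  obtain ⟨q, hq⟩ : ∃ q, q = Nat.card F := ⟨_, rfl⟩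
  have hpq : p ∣ q := by
    rw [hq, Nat.card_eq_fintype_card]
    obtain ⟨k, hp, hn⟩ := FiniteField.card F p
    rw [hn]
    exact dvd_pow_self p k.ne_zero
  have hq1 : 1 < q := by rw [hq]; exact Finite.one_lt_card
  rw [← hq]
  refine ⟨∏ i : Fin n, (q ^ (n - (i : ℕ)) - 1), ?_, ?_⟩
  · have h1 : ∀ i : Fin n, q ^ n - q ^ (i : ℕ) = q ^ (i : ℕ) * (q ^ (n - (i : ℕ)) - 1) := by
      intro i
      rw [Nat.mul_sub, ← pow_add, mul_one]
      congr 2
      have := i.2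
      omega
    rw [Finset.prod_congr rfl (fun i _ => h1 i), Finset.prod_mul_distrib]
    congr 1
    rw [Finset.prod_pow_eq_pow_sum]
    congr 1
    rw [Fin.sum_univ_eq_sum_range (fun i => i) n, Finset.sum_range_id]
  · apply Nat.Coprime.prod_right
    intro i _
    rw [Nat.Prime.coprime_iff_not_dvd hp]
    intro h
    have h2 : p ∣ q ^ (n - (i : ℕ)) := dvd_pow hpq (by have := i.2; omega)
    have h3 : 1 ≤ q ^ (n - (i : ℕ)) := Nat.one_le_pow _ _ (by omega)
    have h4 : p ∣ 1 := by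
      have := Nat.dvd_sub h2 h
      have e : q ^ (n - (i : ℕ)) - (q ^ (n - (i : ℕ)) - 1) = 1 := by omega
      rwa [e] at this
    exact hp.one_lt.ne' (Nat.dvd_one.1 h4)

theorem p_pgl : S_PGL.{u, v, w} := by
  intro F W R _ _ _ _ _ _ _ p _ _ ρ hR hinj
  have hp : p.Prime := Fact.out
  obtain ⟨c, hc, hpc⟩ := card_GL_eq F p (finrank F W)
  let b := Module.finBasis F W
  let φ : (W ≃ₗ[F] W) ≃* GL (Fin (finrank F W)) F :=
    (LinearMap.GeneralLinearGroup.generalLinearEquiv F W).symm.trans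
      (Matrix.GeneralLinearGroup.toLin' b).symm
  let f : R →* GL (Fin (finrank F W)) F := (φ : (W ≃ₗ[F] W) →* _).comp ρ
  have hf : Function.Injective f := φ.injective.comp hinj
  have h1 : Nat.card R ∣ Nat.card (GL (Fin (finrank F W)) F) := Subgroup.card_dvd_of_injective f hf
  obtain ⟨k, hk⟩ := (IsPGroup.iff_card).1 hR
  rw [hc] at h1
  have h2 : Nat.Coprime (Nat.card R) c := by
    rw [hk]
    exact Nat.Coprime.pow_left k hpc
  have h3 := h2.dvd_of_dvd_mul_right h1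
  exact Nat.le_of_dvd (pow_pos Nat.card_pos _) h3

/-- symmetric matrices -/
def symEquiv (F : Type u) [Field F] (n : ℕ) :
    {S : Matrix (Fin n) (Fin n) F // Sᵀ = S} ≃ (Sym2 (Fin n) → F) where
  toFun S := Sym2.lift ⟨fun i j => S.1 i j, fun i j => by
    have := congrFun (congrFun S.2 i) j
    exact this.symm⟩
  invFun f := ⟨Matrix.of fun i j => f s(i, j), by
    ext i j
    show f s(j, i) = f s(i, j)
    rw [Sym2.eq_swap]⟩
  left_inv S := by
    apply Subtype.ext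
    ext i j
    rfl
  right_inv f := by
    funext z
    induction z using Sym2.ind with
    | _ i j => rfl

theorem card_sym (F : Type u) [Field F] [Finite F] (n : ℕ) :
    Nat.card {S : Matrix (Fin n) (Fin n) F // Sᵀ = S} = Nat.card F ^ ((n + 1).choose 2) := by
  rw [Nat.card_congr (symEquiv F n), Nat.card_fun, Nat.card_eq_fintype_card (α := Sym2 (Fin n)),
    Sym2.card, Fintype.card_fin]

/-- the Siegel parabolic -/
def siegel (F : Type u) [Field F] (n : ℕ) : Subgroup (Matrix.symplecticGroup (Fin n) F) where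
  carrier := {g | (g : Matrix (Fin n ⊕ Fin n) (Fin n ⊕ Fin n) F).toBlocks₂₁ = 0}
  one_mem' := by
    show (1 : Matrix (Fin n ⊕ Fin n) (Fin n ⊕ Fin n) F).toBlocks₂₁ = 0
    ext i j
    simp [Matrix.toBlocks₂₁]
  mul_mem' := by
    intro g h hg hh
    show ((g : Matrix (Fin n ⊕ Fin n) (Fin n ⊕ Fin n) F) * (h : Matrix (Fin n ⊕ Fin n) (Fin n ⊕ Fin n) F)).toBlocks₂₁ = 0
    have hg' : (g : Matrix (Fin n ⊕ Fin n) (Fin n ⊕ Fin n) F).toBlocks₂₁ = 0 := hg
    have hh' : (h : Matrix (Fin n ⊕ Fin n) (Fin n ⊕ Fin n) F).toBlocks₂₁ = 0 := hh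
    rw [← Matrix.fromBlocks_toBlocks (g : Matrix (Fin n ⊕ Fin n) (Fin n ⊕ Fin n) F),
      ← Matrix.fromBlocks_toBlocks (h : Matrix (Fin n ⊕ Fin n) (Fin n ⊕ Fin n) F), Matrix.fromBlocks_multiply,
      Matrix.toBlocks_fromBlocks₂₁, hg', hh']
    simp
  inv_mem' := by
    intro g hg
    have hg' : (g : Matrix (Fin n ⊕ Fin n) (Fin n ⊕ Fin n) F).toBlocks₂₁ = 0 := hg
    show ((g⁻¹ : Matrix.symplecticGroup (Fin n) F) : Matrix (Fin n ⊕ Fin n) (Fin n ⊕ Fin n) F).toBlocks₂₁ = 0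
    rw [SymplecticGroup.coe_inv, ← Matrix.fromBlocks_toBlocks (g : Matrix (Fin n ⊕ Fin n) (Fin n ⊕ Fin n) F), hg',
      Matrix.fromBlocks_transpose, Matrix.J, Matrix.fromBlocks_neg, Matrix.fromBlocks_multiply,
      Matrix.fromBlocks_multiply, Matrix.toBlocks_fromBlocks₂₁]
    simp

theorem mem_siegel (F : Type u) [Field F] (n : ℕ) (g : Matrix.symplecticGroup (Fin n) F) :
    g ∈ siegel F n ↔ (g : Matrix (Fin n ⊕ Fin n) (Fin n ⊕ Fin n) F).toBlocks₂₁ = 0 := Iff.rfl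

theorem card_siegel (F : Type u) [Field F] [Finite F] (n : ℕ) :
    Nat.card (siegel F n) = Nat.card (GL (Fin n) F) *
      Nat.card {S : Matrix (Fin n) (Fin n) F // Sᵀ = S} := by
  rw [← Nat.card_prod]
  symm
  -- the map (A, S) ↦ (A, A S; 0, A⁻ᵀ)
  have hmem : ∀ (A : GL (Fin n) F) (S : {S : Matrix (Fin n) (Fin n) F // Sᵀ = S}),
      Matrix.fromBlocks (A : Matrix (Fin n) (Fin n) F) ((A : Matrix (Fin n) (Fin n) F) * S.1) 0
        ((A⁻¹ : GL (Fin n) F) : Matrix (Fin n) (Fin n) F)ᵀ ∈ Matrix.symplecticGroup (Fin n) F := by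
    intro A S
    rw [SymplecticGroup.fromBlocks_mem_iff]
    have h1 : (A : Matrix (Fin n) (Fin n) F)ᵀ * ((A⁻¹ : GL (Fin n) F) : Matrix _ _ F)ᵀ = 1 := by
      rw [← Matrix.transpose_mul, ← Units.val_mul, inv_mul_cancel]
      simp
    have h2 : ((A⁻¹ : GL (Fin n) F) : Matrix (Fin n) (Fin n) F) * (A : Matrix (Fin n) (Fin n) F) = 1 := by
      rw [← Units.val_mul, inv_mul_cancel]
      simp
    refine ⟨by simp, ?_, ?_⟩
    · rw [Matrix.transpose_mul, Matrix.mul_assoc, h1, Matrix.mul_one, Matrix.transpose_transpose,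
        ← Matrix.mul_assoc, h2, Matrix.one_mul, S.2]
    · rw [h1]
      simp
  let f : GL (Fin n) F × {S : Matrix (Fin n) (Fin n) F // Sᵀ = S} → siegel F n := fun AS =>
    ⟨⟨_, hmem AS.1 AS.2⟩, by
      rw [mem_siegel]
      exact Matrix.toBlocks_fromBlocks₂₁ _ _ _ _⟩
  have hf : Function.Bijective f := by
    constructor
    · rintro ⟨A, S⟩ ⟨A', S'⟩ h
      have h1 : Matrix.fromBlocks (A : Matrix (Fin n) (Fin n) F) ((A : Matrix (Fin n) (Fin n) F) * S.1) 0
          ((A⁻¹ : GL (Fin n) F) : Matrix (Fin n) (Fin n) F)ᵀ =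
          Matrix.fromBlocks (A' : Matrix (Fin n) (Fin n) F) ((A' : Matrix (Fin n) (Fin n) F) * S'.1) 0
          ((A'⁻¹ : GL (Fin n) F) : Matrix (Fin n) (Fin n) F)ᵀ :=
        congrArg (fun z => z.1.1) h
      obtain ⟨e1, e2, -, -⟩ := Matrix.fromBlocks_inj.1 h1
      have hA : A = A' := Units.ext e1
      subst hA
      have e3 : S.1 = S'.1 := by
        have := congrArg (fun M => ((A⁻¹ : GL (Fin n) F) : Matrix (Fin n) (Fin n) F) * M) e2
        simp only [← Matrix.mul_assoc] at this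
        rw [← Units.val_mul, inv_mul_cancel] at this
        simpa using this
      rw [Subtype.ext e3]
    · rintro ⟨g, hg⟩
      obtain ⟨A, hA⟩ : ∃ A, A = (g : Matrix (Fin n ⊕ Fin n) (Fin n ⊕ Fin n) F).toBlocks₁₁ := ⟨_, rfl⟩
      obtain ⟨Bm, hBm⟩ : ∃ A, A = (g : Matrix (Fin n ⊕ Fin n) (Fin n ⊕ Fin n) F).toBlocks₁₂ := ⟨_, rfl⟩
      obtain ⟨D, hD⟩ : ∃ A, A = (g : Matrix (Fin n ⊕ Fin n) (Fin n ⊕ Fin n) F).toBlocks₂₂ := ⟨_, rfl⟩
      have hgm : (g : Matrix (Fin n ⊕ Fin n) (Fin n ⊕ Fin n) F) = Matrix.fromBlocks A Bm 0 D := by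
        rw [hA, hBm, hD, ← (mem_siegel F n g).1 hg, Matrix.fromBlocks_toBlocks]
      have h1 := g.2
      rw [hgm, SymplecticGroup.fromBlocks_mem_iff] at h1
      obtain ⟨-, h2, h3⟩ := h1
      have h4 : Aᵀ * D = 1 := by simpa using h3
      have h5 : D * Aᵀ = 1 := mul_eq_one_comm.1 h4
      have h6 : A * Dᵀ = 1 := by
        have := congrArg Matrix.transpose h5
        rwa [Matrix.transpose_mul, Matrix.transpose_transpose, Matrix.transpose_one] at this
      have h7 : Dᵀ * A = 1 := mul_eq_one_comm.1 h6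
      let U : GL (Fin n) F := ⟨A, Dᵀ, h6, h7⟩
      have hS : (Dᵀ * Bm)ᵀ = Dᵀ * Bm := by
        rw [Matrix.transpose_mul, Matrix.transpose_transpose, h2]
      refine ⟨(U, ⟨Dᵀ * Bm, hS⟩), ?_⟩
      apply Subtype.ext
      apply Subtype.ext
      show Matrix.fromBlocks A (A * (Dᵀ * Bm)) 0 (Dᵀ)ᵀ = (g : Matrix (Fin n ⊕ Fin n) (Fin n ⊕ Fin n) F)
      rw [hgm, ← Matrix.mul_assoc, h6, Matrix.one_mul, Matrix.transpose_transpose]
  exact Nat.card_congr (Equiv.ofBijective f hf)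

theorem p_spl : S_SPL.{u} := by
  intro F _ _ n
  haveI := Fintype.ofFinite F
  obtain ⟨p, hp⟩ := CharP.exists F
  haveI : Fact p.Prime := ⟨CharP.char_is_prime F p⟩
  obtain ⟨c, hc, -⟩ := card_GL_eq F p n
  have h1 := Subgroup.card_subgroup_dvd_card (siegel F n)
  rw [card_siegel, card_sym, hc] at h1
  refine dvd_trans ?_ h1
  refine ⟨c, ?_⟩
  have e : n ^ 2 = n * (n - 1) / 2 + (n + 1).choose 2 := by
    rw [← Nat.choose_two_right]
    clear h1 hc
    induction n with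
    | zero => rfl
    | succ n ih =>
      have e1 : (n + 1 + 1).choose 2 = (n + 1).choose 1 + (n + 1).choose 2 :=
        Nat.choose_succ_succ' (n + 1) 1
      have e2 : (n + 1).choose 2 = n.choose 1 + n.choose 2 := Nat.choose_succ_succ' n 1
      rw [Nat.choose_one_right] at e1 e2
      nlinarith
  rw [e, pow_add]
  ring

end Pool.Agent.Helper79.PS
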