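import Pool.Agent.Helper10.RS.Goals

/-!
Goals of project PS (MP_82322d_al): `mu(PSp_2n(q)) ≠ mu(Ω_2n+1(q))` for `q` odd and `n ≥ 3`, and
`mu(A_8) ≠ mu(L_3(4))`.

Each goal is a `Prop`; prove it as a theorem `theorem p_xxx : S_XXX` (universe polymorphic) in a file of
your own which imports this one.  Never import the file of an unproved goal: take other goals as
hypotheses.  `q = Nat.card F`, `p` is the characteristic.
-/

open Module

namespace Pool.Agent.Helper79.PS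

open Pool.Agent.Helper10.RS

universe u v w

section
variable {F V : Type*} [Field F] [AddCommGroup V] [Module F V]

/-- The dimension of `A` modulo its radical. -/
noncomputable def nd (B : LinearMap.BilinForm F V) (A : Submodule F V) : ℕ :=
  finrank F A - finrank F (A ⊓ B.orthogonal A : Submodule F V)

/-- The number of elements of `R` which act trivially on `A` modulo `A^⊥`. -/
noncomputable def kn (B : LinearMap.BilinForm F V) {R : Type*} [Group R]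
    (ρ : R →* (V ≃ₗ[F] V)) (A : Submodule F V) : ℕ :=
  Nat.card {g : R // ∀ a ∈ A, ρ g a - a ∈ B.orthogonal A}

end

/-- (STEP) -/
def S_STEP : Prop := ∀ (F : Type u) (V : Type v) (R : Type w) [Field F] [Finite F]
  [AddCommGroup V] [Module F V] [FiniteDimensional F V] [Group R] [Finite R]
  (p : ℕ) [Fact p.Prime] [CharP F p] (B : LinearMap.BilinForm F V) (x : V ≃ₗ[F] V)
  (ρ : R →* (V ≃ₗ[F] V)) (d : ℕ) (A : Submodule F V),
  B.Nondegenerate → B.IsRefl → (∀ u v, B (x u) (x v) = B u v) → IsPGroup p R →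
  (∀ g u v, B (ρ g u) (ρ g v) = B u v) → (∀ g u, ρ g (x u) = x (ρ g u)) →
  (∀ A0 U : Submodule F V, U ≤ A → A0 < U → (∀ a ∈ A0, x a ∈ A0) → (∀ a ∈ U, x a ∈ U) →
    finrank F A0 + d ≤ finrank F U) →
  (∀ a ∈ A, x a ∈ A) → (∀ g, ∀ a ∈ A, ρ g a ∈ A) → ¬ A ≤ B.orthogonal A →
  ∃ (A1 : Submodule F V) (e : ℕ), A1 ≤ A ∧ (∀ a ∈ A1, x a ∈ A1) ∧
    (∀ g, ∀ a ∈ A1, ρ g a ∈ A1) ∧ 1 ≤ e ∧ d ≤ e ∧ ((∀ u, x u = u) → e = 1) ∧
    ((nd B A1 + e = nd B A ∧ kn B ρ A1 ≤ kn B ρ A) ∨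
     (nd B A1 + 2 * e = nd B A ∧ kn B ρ A1 ≤ Nat.card F ^ (nd B A - e) * kn B ρ A ∧
      (B.IsSymm → (2 : F) ≠ 0 → e = 1 →
        kn B ρ A1 ≤ Nat.card F ^ (nd B A - 2) * kn B ρ A)))

/-- (BG) General bound, from STEP by strong induction on `nd B A` (for all `A`).

Proof. If `A ≤ A^⊥`, all `g` are counted by `kn` (`ρ g a - a ∈ A ≤ A^⊥`), so `kn B ρ A = |R|`. Otherwise
STEP gives `A1`, `e ≥ d` (the hypothesis on the subspaces of `A` is inherited by `A1 ≤ A`). With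
`N = nd B A`, `N1 = nd B A1`: in the first case `N1 = N - e`, `|R|^(4d) ≤ q^(N1²) (kn A1)^(4d)
≤ q^(N²) (kn A)^(4d)`; in the second `N1 = N - 2e`, `|R|^(4d) ≤ q^(N1² + 4d(N-e)) (kn A)^(4d)` and
`N² - N1² = 4e(N-e) ≥ 4d(N-e)`. -/
def S_BG : Prop := S_STEP.{u, v, w} → ∀ (F : Type u) (V : Type v) (R : Type w) [Field F] [Finite F]
  [AddCommGroup V] [Module F V] [FiniteDimensional F V] [Group R] [Finite R]
  (p : ℕ) [Fact p.Prime] [CharP F p] (B : LinearMap.BilinForm F V) (x : V ≃ₗ[F] V)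
  (ρ : R →* (V ≃ₗ[F] V)) (d : ℕ) (A : Submodule F V),
  B.Nondegenerate → B.IsRefl → (∀ u v, B (x u) (x v) = B u v) → IsPGroup p R →
  (∀ g u v, B (ρ g u) (ρ g v) = B u v) → (∀ g u, ρ g (x u) = x (ρ g u)) →
  (∀ A0 U : Submodule F V, U ≤ A → A0 < U → (∀ a ∈ A0, x a ∈ A0) → (∀ a ∈ U, x a ∈ U) →
    finrank F A0 + d ≤ finrank F U) →
  (∀ a ∈ A, x a ∈ A) → (∀ g, ∀ a ∈ A, ρ g a ∈ A) →
  Nat.card R ^ (4 * d) ≤ Nat.card F ^ (nd B A ^ 2) * kn B ρ A ^ (4 * d)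

/-- (BO) Bound for symmetric forms, from STEP (`x = 1`, `d = 1`, so `e = 1`), strong induction on
`nd B A` for all `A`.

Proof. As in BG; `N1 = N - 1` in the first case; in the second `N1 = N - 2`, `N ≥ 2` and
`(N1 - 1)² + 4 (N - 2) ≤ (N - 1)²` (natural subtraction). If not `A ≤ A^⊥` then `N ≥ 1`. -/
def S_BO : Prop := S_STEP.{u, v, w} → ∀ (F : Type u) (V : Type v) (R : Type w) [Field F] [Finite F]
  [AddCommGroup V] [Module F V] [FiniteDimensional F V] [Group R] [Finite R]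
  (p : ℕ) [Fact p.Prime] [CharP F p] (B : LinearMap.BilinForm F V)
  (ρ : R →* (V ≃ₗ[F] V)) (A : Submodule F V),
  B.Nondegenerate → B.IsSymm → (2 : F) ≠ 0 → IsPGroup p R →
  (∀ g u v, B (ρ g u) (ρ g v) = B u v) → (∀ g, ∀ a ∈ A, ρ g a ∈ A) →
  Nat.card R ^ 4 ≤ Nat.card F ^ ((nd B A - 1) ^ 2) * kn B ρ A ^ 4

/-- (PGL) A `p`-group of linear automorphisms of an `n`-dimensional space has order `≤ q^(n(n-1)/2)`.

Proof. `W ≃ₗ[F] W` is `GL n F` up to isomorphism; `Matrix.card_GL_field`: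
`|GL_n| = ∏_{i<n} (q^n - q^i) = q^(n(n-1)/2) ∏ (q^(n-i) - 1)`, the second factor is prime to `p`; the
order of `R` is a power of `p` which divides `|GL_n|`. -/
def S_PGL : Prop := ∀ (F : Type u) (W : Type v) (R : Type w) [Field F] [Finite F]
  [AddCommGroup W] [Module F W] [FiniteDimensional F W] [Group R] [Finite R]
  (p : ℕ) [Fact p.Prime] [CharP F p] (ρ : R →* (W ≃ₗ[F] W)), IsPGroup p R →
  Function.Injective ρ → Nat.card R ≤ Nat.card F ^ (finrank F W * (finrank F W - 1) / 2)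

/-- (EIG) Eigenspaces of a `p`-regular isometry.

Proof. Let `V_c = ker (x - c)`. (i) `ker (x - c) ∩ im (x - c) = 0`: if `v = x u - c u`, `x v = c v`,
then `x^k u = c^k u + k c^(k-1) v`, so `(c^m - 1) u + m c^(m-1) v = 0`; apply `x - c`:
`(c^m - 1) v = 0`; if `v ≠ 0` then `c^m = 1`, `m c^(m-1) v = 0`, contradiction. (ii) `v ∈ V_c`, `w ∈ V_d`:
`B v w = B (x v) (x w) = c d B v w`, so `B v w = 0` if `c d ≠ 1`. (iii) `V_c^⊥ = im (x - c⁻¹)`: `⊇`:
`B v (x w) = B (x⁻¹ v) w = c⁻¹ B v w`, i.e. `B v (x w - c⁻¹ w) = 0`; equality by dimensions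
(`finrank_orthogonal`, rank-nullity, and `finrank V_c = finrank V_(c⁻¹)` - or: `⊆` is what is used:
`im (x - c⁻¹)^⊥ ≤ V_c` as `0 = B u (x w - c⁻¹ w) = B (x⁻¹ u - c⁻¹ u) w` for all `w` gives
`x⁻¹ u = c⁻¹ u`; then take `^⊥` again). Let `A = V_c ⊔ V_(c⁻¹)`, `a = v + w ∈ A ∩ A^⊥`; then
`a ∈ im (x - c⁻¹) ∩ im (x - c)`. If `c = c⁻¹` then `A = V_c` and (i) gives `a = 0`. If `c ≠ c⁻¹`:
`w ∈ im (x - c)` because `x w - c w = (c⁻¹ - c) w`, so `v ∈ im (x - c) ∩ V_c`, `v = 0`; same for `w`. -/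
def S_EIG : Prop := ∀ (F : Type u) (V : Type v) [Field F]
  [AddCommGroup V] [Module F V] [FiniteDimensional F V]
  (B : LinearMap.BilinForm F V) (x : V ≃ₗ[F] V) (m : ℕ) (c : F) (A : Submodule F V),
  B.Nondegenerate → B.IsRefl → (∀ u v, B (x u) (x v) = B u v) → (m : F) ≠ 0 →
  (∀ v, (x ^ m) v = v) → c ≠ 0 →
  A = LinearMap.ker ((x : V →ₗ[F] V) - c • LinearMap.id) ⊔
    LinearMap.ker ((x : V →ₗ[F] V) - c⁻¹ • LinearMap.id) →
  A ⊓ B.orthogonal A = ⊥ ∧ (c ≠ c⁻¹ → ∀ u v, x u = c • u → x v = c • v → B u v = 0)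

/-- (SPX) Symplectic case: `|R| q^n < q^(n²)`.

Proof (BG, PGL, EIG). `B` is reflexive and nondegenerate. A subspace `A` with `A ⊓ A^⊥ = ⊥` is not of
dimension `1` (`B a a = 0`), `A^⊥ ⊓ A^⊥⊥ = ⊥` too (`A^⊥⊥ = A`), `nd B A = finrank A`, and
`kn B ρ A` is the number of the `g ∈ R` with `ρ g a = a` on `A`. (A) Suppose there is an `R`-invariant
`A` with `A ⊓ A^⊥ = ⊥`, `0 ≠ A ≠ V`, `a = dim A`, `b = dim A^⊥ = 2n - a`, both `≥ 2`. BG with `x = 1`,
`d = 1` for `A` and for the subgroup `R'` of the `g ∈ R` trivial on `A` acting on `A^⊥`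
(`kn = 1` there because `ρ` is injective and `A ⊔ A^⊥ = ⊤`): `|R|^4 ≤ q^(a² + b²)`,
`a² + b² ≤ 4 + (2n-2)²`, and `4 + (2n-2)² + 4n < 4 n²` as `n ≥ 3`. (B) Let `c ∈ F` be an eigenvalue of
`x` (`c ≠ 0`), `A = V_c ⊔ V_(c⁻¹)` (invariant under `R`). If `A ≠ V`, (A) applies. If `A = V`, then
`c ≠ c⁻¹` (otherwise `x = c`, `c = ±1`); `V_c`, `V_(c⁻¹)` are totally isotropic (EIG), so both have
dimension `≤ n`, hence `= n`; `R` acts faithfully on `V_c` (if `g` is trivial on `V_c`, then for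
`w ∈ V_(c⁻¹)`: `g w - w ∈ V_(c⁻¹)` is orthogonal to `V_c = g V_c` and to `V_(c⁻¹)`, so is `0`); PGL:
`|R| ≤ q^(n(n-1)/2)` and `n(n-1)/2 + n < n²`. (C) If `x` has no eigenvalue in `F`: BG for `A = V`,
`d = 2`: if `A0 < U` are `x`-invariant and `dim U = dim A0 + 1`, `u ∈ U \ A0`, `x u = c u + a0`, then
`x - c` maps `U` into `A0` and is injective, contradiction. `kn B ρ V = 1`, so `|R|^8 ≤ q^(4n²)`,
`|R|^2 ≤ q^(n²)`, `n² + 2n < 2 n²`. -/
def S_SPX : Prop := S_STEP.{u, v, w} → S_BG.{u, v, w} → S_PGL.{u, v, w} → S_EIG.{u, v} →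
  ∀ (F : Type u) (V : Type v) (R : Type w) [Field F] [Finite F]
  [AddCommGroup V] [Module F V] [FiniteDimensional F V] [Group R] [Finite R]
  (p : ℕ) [Fact p.Prime] [CharP F p] (B : LinearMap.BilinForm F V) (x : V ≃ₗ[F] V)
  (ρ : R →* (V ≃ₗ[F] V)) (n m : ℕ), 3 ≤ n → finrank F V = 2 * n → (2 : F) ≠ 0 →
  B.Nondegenerate → B.IsAlt → (∀ u v, B (x u) (x v) = B u v) → IsPGroup p R →
  (∀ g u v, B (ρ g u) (ρ g v) = B u v) → (∀ g u, ρ g (x u) = x (ρ g u)) →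
  Function.Injective ρ → (m : F) ≠ 0 → (∀ v, (x ^ m) v = v) →
  (∃ v, x v ≠ v) → (∃ v, x v ≠ -v) →
  Nat.card R * Nat.card F ^ n < Nat.card F ^ (n ^ 2)

/-- (OX) Orthogonal case: `|R| q^n < q^(n²)`.

Proof (BG, BO, PGL, EIG). `V₁ = ker (x - 1)`, `W = V₁^⊥`, `V₁ ⊓ W = ⊥` (EIG, `c = 1`), both invariant
under `R`, `x`. `x` has no eigenvalue `1` on `W`. If `y` is an isometry of a nondegenerate space `W`
of dimension `k` with `y - 1` invertible then `det y = (-1)^k` (`y - 1 = -y (y⁻¹ - 1)`, and `y⁻¹` is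
the adjoint of `y`, so `det (y⁻¹ - 1) = det (y - 1)`). As `det x = 1`, `dim W` is even; it is not `0`
(`x ≠ 1`), so `N2 = dim W ≥ 2` is even, `N1 = dim V₁ = 2n + 1 - N2` is odd. (A) General: if
`V = V₁ ⊥ V₂` or `V = V₁ ⊥ V₂ ⊥ V₃` with `R`-invariant non-zero nondegenerate subspaces of dimension
`d_i` then `|R|^4 ≤ q^(∑ (d_i - 1)²)` (BO for `V₁`, then for the subgroup of `R` trivial on `V₁`, and
so on). If `N1 ≥ 3`: `(N1 - 1)² + (N2 - 1)² ≤ (2n-2)² + 1` and `(2n-2)² + 1 + 4n < 4n²`. If `N1 = 1`: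
`dim W = 2n`. If `W = A ⊥ A'` with non-zero `R`-invariant parts of dimensions `a`, `b`, `a + b = 2n`:
`(a-1)² + (b-1)² ≤ (2n-2)²`. If `x` has an eigenvalue `c ∈ F` on `W` (`c ≠ 1`, `c ≠ 0`) put
`A = (V_c ⊔ V_(c⁻¹))` (contained in `W`, nondegenerate by EIG). If `A ≠ W` use the above. If `A = W`
and `c = c⁻¹` then `c = -1`, `x = -1` on `W`, and with `V₁ = ⟨v⟩`, `B v v ≠ 0`,
`x u = (2 B(u,v)/B(v,v)) v - u`, excluded. If `A = W`, `c ≠ c⁻¹`: `V_c`, `V_(c⁻¹)` are totally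
isotropic, of dimension `n` each, `R` acts trivially on `V₁` (BO: `|R| ≤ kn V₁`, so all of `R`) and
faithfully on `V_c` (as in SPX); PGL: `|R| ≤ q^(n(n-1)/2)`. If `x` has no eigenvalue on `W`: BG for
`A = W`, `d = 2` (as in SPX, relative to `U ≤ W`): `|R|^8 ≤ q^(4n²)`. -/
def S_OX : Prop := S_STEP.{u, v, w} → S_BG.{u, v, w} → S_BO.{u, v, w} → S_PGL.{u, v, w} →
  S_EIG.{u, v} → ∀ (F : Type u) (V : Type v) (R : Type w) [Field F] [Finite F]
  [AddCommGroup V] [Module F V] [FiniteDimensional F V] [Group R] [Finite R]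
  (p : ℕ) [Fact p.Prime] [CharP F p] (B : LinearMap.BilinForm F V) (x : V ≃ₗ[F] V)
  (ρ : R →* (V ≃ₗ[F] V)) (n m : ℕ), 3 ≤ n → finrank F V = 2 * n + 1 → (2 : F) ≠ 0 →
  B.Nondegenerate → B.IsSymm → (∀ u v, B (x u) (x v) = B u v) → IsPGroup p R →
  (∀ g u v, B (ρ g u) (ρ g v) = B u v) → (∀ g u, ρ g (x u) = x (ρ g u)) →
  Function.Injective ρ → (m : F) ≠ 0 → (∀ v, (x ^ m) v = v) →
  LinearMap.det (x : V →ₗ[F] V) = 1 → (∃ v, x v ≠ v) →
  (∀ v, B v v ≠ 0 → ∃ u, x u ≠ (2 * B u v / B v v) • v - u) →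
  Nat.card R * Nat.card F ^ n < Nat.card F ^ (n ^ 2)

/-- (CLS) Counting a union of conjugacy classes modulo a power of `p`.

Proof. Let `P ≤ G` have order `p^a` (`Sylow.exists_subgroup_card_pow_prime`). `P` acts on `Y` by
conjugation; the orbit of `y` has `p^a / |C_P(y)|` elements, and `C_P(y)` is a `p`-subgroup commuting
with `y`, of order `p^b` with `b + k < a`; so all orbits are divisible by `p^(k+1)`. -/
def S_CLS : Prop := ∀ (G : Type u) [Group G] [Finite G] (p a k : ℕ) [Fact p.Prime] (Y : Set G),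
  p ^ a ∣ Nat.card G → (∀ g y, y ∈ Y → g * y * g⁻¹ ∈ Y) →
  (∀ y ∈ Y, ∀ R : Subgroup G, IsPGroup p R → (∀ g ∈ R, g * y = y * g) →
    Nat.card R * p ^ k < p ^ a) →
  p ^ (k + 1) ∣ Nat.card Y

/-- (SPL) `q^(n²)` divides `|Sp_2n(F)|`.

Proof. The subgroup of the block matrices `(A, B; 0, D)` in `Sp` (`Matrix.fromBlocks`,
`SymplecticGroup.fromBlocks_mem_iff` with `C = 0`: `Bᵀ D = Dᵀ B`, `Aᵀ D = 1`) is in bijection with the
pairs (`A ∈ GL n F`, symmetric matrix `A⁻¹ B`), so has order `|GL_n| q^(n(n+1)/2)`; `|GL_n|`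
(`Matrix.card_GL_field`) is divisible by `q^(n(n-1)/2)`. The symmetric matrices are the functions on
`Sym2 (Fin n)` (`Sym2.card`). -/
def S_SPL : Prop := ∀ (F : Type u) [Field F] [Finite F] (n : ℕ),
  Nat.card F ^ (n ^ 2) ∣ Nat.card (Matrix.symplecticGroup (Fin n) F)

/-- (SPC) The number of `p`-regular elements of `Sp_2n(F)`.

Proof (CLS, SPL, SPX). `q = p^f`; CLS for `G = Sp`, `a = f n²`, `k = f n` and `Y` = the `p`-regular
elements different from `±1`: for `y ∈ Y` and a `p`-subgroup `R` commuting with `y` apply `hX` (this is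
SPX) with `V = Fin n ⊕ Fin n → F`, `B = Matrix.toBilin' (J)`, `x` = the action of `y` by `mulVec`, `ρ`
= the action of `R`, `m = orderOf y`. The form is nondegenerate, alternating, and invariant
(`SymplecticGroup.mem_iff'`). `1`, `-1` are `p`-regular (`p ≠ 2`), and `1 ≠ -1`. Then
`p^(fn+1) = p q^n` divides `|Y|` and the number is `2 + |Y|`. -/
def S_SPC : Prop := S_CLS.{u} → S_SPL.{u} → (∀ (F : Type u) (V : Type u) (R : Type u) [Field F]
  [Finite F] [AddCommGroup V] [Module F V] [FiniteDimensional F V] [Group R] [Finite R]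
  (p : ℕ) [Fact p.Prime] [CharP F p] (B : LinearMap.BilinForm F V) (x : V ≃ₗ[F] V)
  (ρ : R →* (V ≃ₗ[F] V)) (n m : ℕ), 3 ≤ n → finrank F V = 2 * n → (2 : F) ≠ 0 →
  B.Nondegenerate → B.IsAlt → (∀ u v, B (x u) (x v) = B u v) → IsPGroup p R →
  (∀ g u v, B (ρ g u) (ρ g v) = B u v) → (∀ g u, ρ g (x u) = x (ρ g u)) →
  Function.Injective ρ → (m : F) ≠ 0 → (∀ v, (x ^ m) v = v) →
  (∃ v, x v ≠ v) → (∃ v, x v ≠ -v) →
  Nat.card R * Nat.card F ^ n < Nat.card F ^ (n ^ 2)) →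
  ∀ (F : Type u) [Field F] [Finite F] (p n : ℕ) [Fact p.Prime] [CharP F p],
  3 ≤ n → (2 : F) ≠ 0 →
  ∃ k : ℕ, reg (Matrix.symplecticGroup (Fin n) F) p = 2 + p * Nat.card F ^ n * k

/-- The number of the solutions of `v_1² + ... + v_m² = c` in `F`. -/
noncomputable def nv (F : Type u) [Field F] (m : ℕ) (c : F) : ℕ :=
  Nat.card {v : Fin m → F // ∑ i, v i ^ 2 = c}

/-- (NV) Numbers of representations by sums of squares.

Proof. `T(c) = nv F 2 c`. For `c ≠ 0`, `T(c) = T(1)`: `c = a² + b²` (`FiniteField` : every element is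
a sum of two squares), `(x, y) ↦ (a x - b y, b x + a y)`. `T(0) = 1` if `-1` is not a square and
`2q - 1` if it is. `q² = T(0) + (q-1) T(1)`, so `T(c) = q - e`, `T(0) = q - e + q e` with `e = 1` if
`-1` is a square and `e = -1` if not. So `nv (m+2) c = ∑_a T(a) nv m (c - a) = (q - e) q^m + q e nv m c`,
`nv 0 c = 0` for `c ≠ 0`, `nv 1 c = 2` or `0`. Induction. -/
def S_NV : Prop := ∀ (F : Type u) [Field F] [Finite F], (2 : F) ≠ 0 → ∃ e : ℤ, (e = 1 ∨ e = -1) ∧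
  ∀ (n : ℕ) (c : F), c ≠ 0 →
    (nv F (2 * (n + 1)) c : ℤ) = (Nat.card F : ℤ) ^ (2 * n + 1) - e ^ (n + 1) * (Nat.card F : ℤ) ^ n ∧
    (IsSquare c → (nv F (2 * n + 1) c : ℤ) =
      (Nat.card F : ℤ) ^ (2 * n) + e ^ n * (Nat.card F : ℤ) ^ n) ∧
    (¬ IsSquare c → (nv F (2 * n + 1) c : ℤ) =
      (Nat.card F : ℤ) ^ (2 * n) - e ^ n * (Nat.card F : ℤ) ^ n)

/-- The negative of the reflection in `v`, as a matrix. -/
def nr {F : Type u} [Field F] {m : ℕ} (v : Fin m → F) : Matrix (Fin m) (Fin m) F :=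
  (2 / (v ⬝ᵥ v)) • Matrix.vecMulVec v v - 1

/-- (OME) The elements `- r_v` of `Ω_2n+1`.

Proof. (1) `nr v` is orthogonal: symmetric of square `1`. (2) `O` is transitive on the vectors of norm
`a ≠ 0` (Witt): for `u ≠ v` of norm `a`, `u - v` or `u + v` has non-zero norm
(`‖u-v‖ + ‖u+v‖ = 4a`), and the reflection in `u - v` maps `u` to `v`, that in `u + v` maps `u` to `-v`.
(3) `nr e₀ ∈ [O, O]`: it is `diag (1, -1, ..., -1)`, a product of `n` matrices `D i j` (`-1` at two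
places `i ≠ j`, `1` elsewhere), and `D i j = [R_i, P]` (`R_i = diag (.., -1 at i, ..)`, `P` the
permutation matrix of the swap of `i` and `j`). `nr (g v) = g (nr v) g⁻¹`, `nr (t v) = nr v`, so
`nr v ∈ [O, O]` if `v ⬝ᵥ v = t² ≠ 0`. (4) Let `S` be the set of the vectors of norm `1`, `sgn : O → ±1`
the sign of the permutation of `S`. It is trivial on `[O, O]`. The reflection `r_v` is an involution on
`S` with `M(v)` fixed points (the vectors of norm `1` orthogonal to `v`), so its sign is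
`(-1)^((|S| - M(v))/2)`. `M(e₀) = nv (2n) 1`; let `a` be a non-square, `‖v‖ = a`; double counting of the
pairs `u ⊥ v'`, `‖u‖ = 1`, `‖v'‖ = a` with (2): `nv (2n+1) a * M(v) = nv (2n+1) 1 * nv (2n) a`. With NV
(`q^n - e^n ≠ 0`): `M(v) = q^(n-1) (q^n + e^n)`, `M(e₀) = q^(n-1) (q^n - e^n)`. So the signs of `r_v` and
`r_e₀`, hence of `nr v` and `nr e₀`, differ, and `nr v ∉ [O, O]` by (3). -/
def S_OME : Prop := S_NV.{u} → ∀ (F : Type u) [Field F] [Finite F] (n : ℕ), (2 : F) ≠ 0 → 1 ≤ n →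
  ∀ v : Fin (2 * n + 1) → F, v ⬝ᵥ v ≠ 0 →
  ∃ h : nr v ∈ Matrix.orthogonalGroup (Fin (2 * n + 1)) F,
    ((⟨nr v, h⟩ : Matrix.orthogonalGroup (Fin (2 * n + 1)) F) ∈
      commutator (Matrix.orthogonalGroup (Fin (2 * n + 1)) F) ↔ IsSquare (v ⬝ᵥ v))

/-- (OC) The number of `p`-regular elements of `Ω_2n+1(F)`.

Proof (CLS, OX, OME). `Ω = commutator O`. The `p`-regular elements of `Ω` are `1`, the `nr v` with
`v ⬝ᵥ v = 1` (for square `v ⬝ᵥ v = t²` replace `v` by `v / t`; `nr v` is an involution, `p ≠ 2`;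
`nr v = nr w` iff `w = ± v` for vectors of norm `1`, so their number is `nv (2n+1) 1 / 2`; `nr v ≠ 1`),
and the rest `Y`, which is invariant under conjugation. For `y ∈ Y` (`det y = 1` since `y ∈ [O, O]`) and
a `p`-subgroup `R` of `Ω` commuting with `y` apply `hX` (this is OX) with `V = Fin (2n+1) → F`,
`B = Matrix.toBilin' 1` (dot product), `x` = `mulVec` by `y`, `m = orderOf y`. CLS with `q = p^f`,
`a = f n²`, `k = f n`. -/
def S_OC : Prop := S_CLS.{u} → (∀ (F : Type u) [Field F] [Finite F] (n : ℕ), (2 : F) ≠ 0 → 1 ≤ n →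
  ∀ v : Fin (2 * n + 1) → F, v ⬝ᵥ v ≠ 0 →
  ∃ h : nr v ∈ Matrix.orthogonalGroup (Fin (2 * n + 1)) F,
    ((⟨nr v, h⟩ : Matrix.orthogonalGroup (Fin (2 * n + 1)) F) ∈
      commutator (Matrix.orthogonalGroup (Fin (2 * n + 1)) F) ↔ IsSquare (v ⬝ᵥ v))) →
  (∀ (F : Type u) (V : Type u) (R : Type u) [Field F] [Finite F]
  [AddCommGroup V] [Module F V] [FiniteDimensional F V] [Group R] [Finite R]
  (p : ℕ) [Fact p.Prime] [CharP F p] (B : LinearMap.BilinForm F V) (x : V ≃ₗ[F] V)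
  (ρ : R →* (V ≃ₗ[F] V)) (n m : ℕ), 3 ≤ n → finrank F V = 2 * n + 1 → (2 : F) ≠ 0 →
  B.Nondegenerate → B.IsSymm → (∀ u v, B (x u) (x v) = B u v) → IsPGroup p R →
  (∀ g u v, B (ρ g u) (ρ g v) = B u v) → (∀ g u, ρ g (x u) = x (ρ g u)) →
  Function.Injective ρ → (m : F) ≠ 0 → (∀ v, (x ^ m) v = v) →
  LinearMap.det (x : V →ₗ[F] V) = 1 → (∃ v, x v ≠ v) →
  (∀ v, B v v ≠ 0 → ∃ u, x u ≠ (2 * B u v / B v v) • v - u) →
  Nat.card R * Nat.card F ^ n < Nat.card F ^ (n ^ 2)) →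
  ∀ (F : Type u) [Field F] [Finite F] (p n : ℕ) [Fact p.Prime] [CharP F p],
  3 ≤ n → (2 : F) ≠ 0 →
  Nat.card F ^ (n ^ 2) ∣ Nat.card (commutator (Matrix.orthogonalGroup (Fin (2 * n + 1)) F)) →
  ∃ k : ℕ, 2 * reg (commutator (Matrix.orthogonalGroup (Fin (2 * n + 1)) F)) p =
    2 + nv F (2 * n + 1) 1 + 2 * (p * Nat.card F ^ n * k)

/-- (A8) `mu(A_8) ≠ mu(L_3(4))`.

Proof. `Pool.Agent.Helper22.RS.p_mueq` (with `p_frob`, `p_frob2`) gives equal orders (`20160`) and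
`reg L 5 = reg A_8 5 = 4/5 * 20160` (`Pool.Agent.Helper12.RS.p_cnt` with `Helper73.RS.p_cntw`:
`aa 5 8 = 4/5`, `bb 5 8 = 0`, or count directly). By `Pool.Agent.Helper81.RS.p_auto` (`25 ∤ 20160`), for
`x` of order `5` in `L = PSL_3(K)` (Cauchy), `x` and `x²`, `x⁴` are conjugate. Lift `x` to `y ∈ SL_3(K)`,
`y^5 = 1` (centre of order `3`: `y = z^6` for any lift `z` of `x`). Then `y² ∼ ω y`, `ω³ = 1` scalar;
5th powers: `ω^5 = 1`, `ω = 1`. So `tr y = tr y² = (tr y)²` (characteristic 2), `a = tr y ∈ {0, 1}`, and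
`tr y⁻¹ = tr y⁴ = a⁴ = a`; the characteristic polynomial of `y` is `t³ + a t² + a t + 1`, so by
Cayley-Hamilton `y³ = 1` or `(y + 1)³ = 0`, `y⁴ = 1`; with `y⁵ = 1`, `y = 1`, contradiction. -/
def S_A8 : Prop := ∀ (K : Type u) [Field K] [Finite K], Nat.card K = 4 →
  muSet (alternatingGroup (Fin 8)) ≠ muSet (Matrix.ProjectiveSpecialLinearGroup (Fin 3) K)

/-- `-1` in the symplectic group. -/
def neg1 (n : ℕ) (F : Type u) [Field F] : Matrix.symplecticGroup (Fin n) F :=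
  ⟨-1, SymplecticGroup.neg_mem (one_mem _)⟩

instance neg1_normal (n : ℕ) (F : Type u) [Field F] :
    (Subgroup.zpowers (neg1 n F)).Normal := by
  constructor
  intro a ha g
  have hc : ∀ g : Matrix.symplecticGroup (Fin n) F, g * neg1 n F = neg1 n F * g := by
    intro g
    apply Subtype.ext
    simp [neg1]
  obtain ⟨k, rfl⟩ := ha
  have h2 : Commute g (neg1 n F ^ k) := Commute.zpow_right (hc g) k
  refine ⟨k, ?_⟩
  show neg1 n F ^ k = g * neg1 n F ^ k * g⁻¹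
  rw [h2.eq, mul_inv_cancel_right]

/-- MAIN. -/
def MAIN : Prop := ∀ (F : Type u) [Field F] [Finite F] (n : ℕ), (2 : F) ≠ 0 → 3 ≤ n →
  muSet (Matrix.symplecticGroup (Fin n) F ⧸ Subgroup.zpowers (neg1 n F)) ≠
    muSet (commutator (Matrix.orthogonalGroup (Fin (2 * n + 1)) F))

end Pool.Agent.Helper79.PS
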