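import Pool.Agent.Helper79.PS.Goals

/-!
Goal NV of project PS.
-/

open Module

namespace Pool.Agent.Helper79.PS

universe u

section
variable (F : Type u) [Field F] [Finite F]

/-- the number of pairs with `x² + y² = c` -/
noncomputable def tt (c : F) : ℕ := Nat.card {z : F × F // z.1 ^ 2 + z.2 ^ 2 = c}

theorem sum_two_sq (c : F) : ∃ a b : F, a ^ 2 + b ^ 2 = c := by
  haveI := Fintype.ofFinite F
  obtain ⟨p, hp⟩ := CharP.exists F
  by_cases h2 : p = 2
  · subst h2
    obtain ⟨a, ha⟩ : ∃ a : F, a ^ 2 = c := by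
      have h1 : Function.Injective (fun a : F => a ^ 2) := by
        intro a b h
        have h3 : (a - b) ^ 2 = 0 := by
          have : (2 : F) = 0 := by
            have := CharP.cast_eq_zero F 2
            exact_mod_cast this
          have h4 : a ^ 2 = b ^ 2 := h
          linear_combination h4 - (a * b - b ^ 2) * this
        exact sub_eq_zero.1 (pow_eq_zero_iff (by norm_num) |>.1 h3)
      exact (Finite.surjective_of_injective h1) c
    exact ⟨a, 0, by rw [ha]; ring⟩
  · haveI : Fact p.Prime := ⟨CharP.char_is_prime F p⟩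
    obtain ⟨n, hp', hn⟩ := FiniteField.card F p
    have hodd : Fintype.card F % 2 = 1 := by
      rw [hn]
      have : Odd p := hp'.odd_of_ne_two h2
      exact Nat.odd_iff.1 (this.pow)
    obtain ⟨a, b, hab⟩ := FiniteField.exists_root_sum_quadratic
      (f := (Polynomial.X ^ 2 : Polynomial F)) (g := Polynomial.X ^ 2 - Polynomial.C c)
      (Polynomial.degree_X_pow 2) (Polynomial.degree_X_pow_sub_C (by norm_num) c) hodd
    refine ⟨a, b, ?_⟩
    simp only [Polynomial.eval_pow, Polynomial.eval_X, Polynomial.eval_sub,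
      Polynomial.eval_C] at hab
    linear_combination hab

theorem tt_eq (c : F) (hc : c ≠ 0) : tt F c = tt F 1 := by
  obtain ⟨a, b, hab⟩ := sum_two_sq F c
  symm
  unfold tt
  apply Nat.card_congr
  refine
    { toFun := fun z => ⟨(a * z.1.1 - b * z.1.2, b * z.1.1 + a * z.1.2), ?_⟩
      invFun := fun z => ⟨((a * z.1.1 + b * z.1.2) / c, (a * z.1.2 - b * z.1.1) / c), ?_⟩
      left_inv := ?_
      right_inv := ?_ }
  · have h := z.2
    show (a * z.1.1 - b * z.1.2) ^ 2 + (b * z.1.1 + a * z.1.2) ^ 2 = c
    rw [← hab]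
    linear_combination (a ^ 2 + b ^ 2) * h
  · have h := z.2
    show ((a * z.1.1 + b * z.1.2) / c) ^ 2 + ((a * z.1.2 - b * z.1.1) / c) ^ 2 = 1
    field_simp
    linear_combination (a ^ 2 + b ^ 2) * h + c * hab
  · rintro ⟨⟨s, t⟩, hz⟩
    apply Subtype.ext
    apply Prod.ext
    · show (a * (a * s - b * t) + b * (b * s + a * t)) / c = s
      rw [← hab]
      rw [← hab] at hc
      field_simp
      ring
    · show (a * (b * s + a * t) - b * (a * s - b * t)) / c = t
      rw [← hab]
      rw [← hab] at hc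
      field_simp
      ring
  · rintro ⟨⟨s, t⟩, hz⟩
    apply Subtype.ext
    apply Prod.ext
    · show a * ((a * s + b * t) / c) - b * ((a * t - b * s) / c) = s
      rw [← hab]
      rw [← hab] at hc
      field_simp
      ring
    · show b * ((a * s + b * t) / c) + a * ((a * t - b * s) / c) = t
      rw [← hab]
      rw [← hab] at hc
      field_simp
      ring

theorem tt_sum : ∀ [Fintype F], ∑ c : F, tt F c = Nat.card F ^ 2 := by
  intro _
  classical
  have h1 : Nat.card (F × F) = ∑ c : F, tt F c := by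
    unfold tt
    rw [← Nat.card_sigma]
    apply Nat.card_congr
    exact (Equiv.sigmaFiberEquiv (fun z : F × F => z.1 ^ 2 + z.2 ^ 2)).symm
  rw [← h1, Nat.card_prod, sq]

end

theorem tt_all (F : Type u) [Field F] [Finite F] (h2F : (2 : F) ≠ 0) :
    ∃ e : ℤ, (e = 1 ∨ e = -1) ∧
    (∀ c : F, c ≠ 0 → (tt F c : ℤ) = Nat.card F - e) ∧
    (tt F 0 : ℤ) = Nat.card F - e + Nat.card F * e := by
  classical
  haveI := Fintype.ofFinite F
  have hsum : (tt F 0 : ℤ) + (Nat.card F - 1) * tt F 1 = Nat.card F ^ 2 := by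
    have h1 := tt_sum F
    rw [← Finset.add_sum_erase _ _ (Finset.mem_univ (0 : F)),
      Finset.sum_congr rfl (g := fun _ => tt F 1)
        (fun c hc => tt_eq F c (Finset.ne_of_mem_erase hc)), Finset.sum_const,
      Finset.card_erase_of_mem (Finset.mem_univ _), Finset.card_univ, smul_eq_mul,
      ← Nat.card_eq_fintype_card] at h1
    have hq : 1 ≤ Nat.card F := Nat.card_pos
    zify [hq] at h1
    exact h1
  have hq1 : (1 : ℤ) < Nat.card F := by
    exact_mod_cast Finite.one_lt_card (α := F)
  by_cases hsq : ∃ i : F, i ^ 2 = -1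
  · obtain ⟨i, hi⟩ := hsq
    have hi0 : i ≠ 0 := by
      rintro rfl
      have : (1 : F) = 0 := by linear_combination hi
      exact one_ne_zero this
    refine ⟨1, Or.inl rfl, ?_⟩
    -- tt 0 = 2q - 1
    have h0 : tt F 0 = 2 * Nat.card F - 1 := by
      have h1 : {z : F × F | z.1 ^ 2 + z.2 ^ 2 = 0} =
          Set.range (fun t : F => (i * t, t)) ∪ Set.range (fun t : F => (-i * t, t)) := by
        ext ⟨x, y⟩
        simp only [Set.mem_setOf_eq, Set.mem_union, Set.mem_range, Prod.mk.injEq]
        constructor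
        · intro h
          have h3 : (x - i * y) * (x + i * y) = 0 := by
            linear_combination h - y ^ 2 * hi
          rcases mul_eq_zero.1 h3 with h4 | h4
          · left; exact ⟨y, by linear_combination -h4, rfl⟩
          · right; exact ⟨y, by linear_combination -h4, rfl⟩
        · rintro (⟨t, h3, rfl⟩ | ⟨t, h3, rfl⟩)
          · rw [← h3]; linear_combination t ^ 2 * hi
          · rw [← h3]; linear_combination t ^ 2 * hi
      have h2 : Set.range (fun t : F => (i * t, t)) ∩ Set.range (fun t : F => (-i * t, t)) =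
          {(0, 0)} := by
        ext ⟨x, y⟩
        simp only [Set.mem_inter_iff, Set.mem_range, Prod.mk.injEq, Set.mem_singleton_iff]
        constructor
        · rintro ⟨⟨t, h3, rfl⟩, ⟨s, h4, h5⟩⟩
          subst h5
          have h6 : 2 * (i * s) = 0 := by linear_combination h3 - h4
          rcases mul_eq_zero.1 h6 with h7 | h7
          · exact absurd h7 h2F
          · rcases mul_eq_zero.1 h7 with h8 | h8
            · exact absurd h8 hi0
            · subst h8
              exact ⟨by rw [← h3]; ring, rfl⟩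
        · rintro ⟨rfl, rfl⟩
          exact ⟨⟨0, by ring, rfl⟩, ⟨0, by ring, rfl⟩⟩
      have hr : ∀ j : F, (Set.range (fun t : F => (j * t, t))).ncard = Nat.card F := by
        intro j
        rw [← Set.image_univ, Set.ncard_image_of_injective _
          (fun a b h => (Prod.mk.inj h).2), Set.ncard_univ]
      have h3 := Set.ncard_union_add_ncard_inter (Set.range (fun t : F => (i * t, t)))
        (Set.range (fun t : F => (-i * t, t)))
      rw [h2, hr, hr, Set.ncard_singleton, ← h1] at h3
      have h4 : tt F 0 = {z : F × F | z.1 ^ 2 + z.2 ^ 2 = 0}.ncard := rfl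
      omega
    have hq : 1 ≤ 2 * Nat.card F := by
      have : 1 ≤ Nat.card F := Nat.card_pos
      omega
    have h0' : (tt F 0 : ℤ) = 2 * Nat.card F - 1 := by
      rw [h0]
      push_cast [hq]
      ring
    have h1 : (tt F 1 : ℤ) = Nat.card F - 1 := by
      rw [h0'] at hsum
      have : ((Nat.card F : ℤ) - 1) * (tt F 1 - (Nat.card F - 1)) = 0 := by linear_combination hsum
      rcases mul_eq_zero.1 this with h | h
      · omega
      · omega
    refine ⟨fun c hc => by rw [tt_eq F c hc, h1], ?_⟩
    rw [h0']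
    ring
  · refine ⟨-1, Or.inr rfl, ?_⟩
    have h0 : tt F 0 = 1 := by
      unfold tt
      rw [Nat.card_eq_one_iff_unique]
      refine ⟨⟨?_⟩, ⟨⟨(0, 0), by simp⟩⟩⟩
      have key : ∀ z : {z : F × F // z.1 ^ 2 + z.2 ^ 2 = 0}, z.1 = (0, 0) := by
        rintro ⟨⟨x, y⟩, h⟩
        have h' : x ^ 2 + y ^ 2 = 0 := h
        have hy : y = 0 := by
          by_contra hy
          apply hsq
          refine ⟨x / y, ?_⟩
          field_simp
          linear_combination h'
        subst hy
        have hx : x ^ 2 = 0 := by linear_combination h'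
        have hx' : x = 0 := by
          exact pow_eq_zero_iff (by norm_num) |>.1 hx
        subst hx'
        rfl
      intro z w
      apply Subtype.ext
      rw [key z, key w]
    have h1 : (tt F 1 : ℤ) = Nat.card F + 1 := by
      rw [h0] at hsum
      have : ((Nat.card F : ℤ) - 1) * (tt F 1 - (Nat.card F + 1)) = 0 := by
        push_cast at hsum
        linear_combination hsum
      rcases mul_eq_zero.1 this with h | h
      · omega
      · omega
    refine ⟨fun c hc => by rw [tt_eq F c hc, h1]; ring, ?_⟩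
    rw [h0]
    push_cast
    ring

theorem nv_step (F : Type u) [Field F] [Fintype F] (m : ℕ) (c : F) :
    nv F (m + 2) c = ∑ a : F, tt F a * nv F m (c - a) := by
  classical
  unfold nv tt
  simp_rw [← Nat.card_prod]
  rw [← Nat.card_sigma]
  apply Nat.card_congr
  refine
    { toFun := fun v => ⟨v.1 0 ^ 2 + v.1 1 ^ 2, ⟨(v.1 0, v.1 1), rfl⟩,
        ⟨fun i => v.1 i.succ.succ, ?_⟩⟩
      invFun := fun z => ⟨Fin.cons z.2.1.1.1 (Fin.cons z.2.1.1.2 z.2.2.1), ?_⟩
      left_inv := ?_
      right_inv := ?_ }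
  · have h := v.2
    rw [Fin.sum_univ_succ, Fin.sum_univ_succ] at h
    have h' : v.1 0 ^ 2 + (v.1 1 ^ 2 + ∑ i : Fin m, v.1 i.succ.succ ^ 2) = c := h
    linear_combination h'
  · rw [Fin.sum_univ_succ, Fin.sum_univ_succ]
    have h1 := z.2.1.2
    have h2 := z.2.2.2
    simp only [Fin.cons_zero, Fin.cons_succ]
    linear_combination h1 + h2
  · rintro ⟨v, hv⟩
    apply Subtype.ext
    funext i
    refine Fin.cases rfl (fun i => ?_) i
    refine Fin.cases rfl (fun i => rfl) i
  · rintro ⟨a, ⟨⟨x, y⟩, hxy⟩, ⟨v, hv⟩⟩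
    have hxy' : x ^ 2 + y ^ 2 = a := hxy
    subst hxy'
    rfl

theorem nv_total (F : Type u) [Field F] [Fintype F] (m : ℕ) :
    ∑ a : F, nv F m a = Nat.card F ^ m := by
  classical
  have h1 : Nat.card (Fin m → F) = ∑ c : F, nv F m c := by
    unfold nv
    rw [← Nat.card_sigma]
    apply Nat.card_congr
    exact (Equiv.sigmaFiberEquiv (fun v : Fin m → F => ∑ i, v i ^ 2)).symm
  rw [← h1, Nat.card_fun, Nat.card_eq_fintype_card (α := Fin m), Fintype.card_fin]

theorem p_nv : S_NV.{u} := by
  intro F _ _ h2F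
  classical
  haveI := Fintype.ofFinite F
  obtain ⟨e, he, hT, hT0⟩ := tt_all F h2F
  refine ⟨e, he, ?_⟩
  have he2 : e * e = 1 := by rcases he with h | h <;> rw [h] <;> norm_num
  obtain ⟨q, hq⟩ : ∃ q : ℤ, q = Nat.card F := ⟨_, rfl⟩
  have hstep : ∀ (m : ℕ) (c : F), (nv F (m + 2) c : ℤ) = (q - e) * q ^ m + q * e * nv F m c := by
    intro m c
    rw [nv_step]
    push_cast
    have h1 : ∀ a : F, (tt F a : ℤ) * nv F m (c - a) =
        (q - e) * nv F m (c - a) + (if a = 0 then q * e * nv F m c else 0) := by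
      intro a
      by_cases ha : a = 0
      · rw [if_pos ha, ha, hT0, sub_zero, hq]
        ring
      · rw [if_neg ha, hT a ha, hq, add_zero]
    rw [Finset.sum_congr rfl (fun a _ => h1 a), Finset.sum_add_distrib, ← Finset.mul_sum,
      Finset.sum_ite_eq' Finset.univ (0 : F), if_pos (Finset.mem_univ _)]
    have h2 : ∑ a : F, (nv F m (c - a) : ℤ) = q ^ m := by
      rw [Fintype.sum_equiv (Equiv.subLeft c) (fun a => (nv F m (c - a) : ℤ))
        (fun a => (nv F m a : ℤ)) (fun a => rfl), hq]
      exact_mod_cast nv_total F m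
    rw [h2]
  have h0 : ∀ c : F, c ≠ 0 → (nv F 0 c : ℤ) = 0 := by
    intro c hc
    have : IsEmpty {v : Fin 0 → F // ∑ i, v i ^ 2 = c} := ⟨fun v => hc (by simpa using v.2.symm)⟩
    unfold nv
    rw [Nat.card_of_isEmpty]
    rfl
  have h1s : ∀ c : F, c ≠ 0 → IsSquare c → (nv F 1 c : ℤ) = 2 := by
    rintro c hc ⟨r, rfl⟩
    have hr : r ≠ 0 := fun h => hc (by rw [h, mul_zero])
    have h3 : nv F 1 (r * r) = {v : Fin 1 → F | ∑ i, v i ^ 2 = r * r}.ncard := rfl
    have h4 : {v : Fin 1 → F | ∑ i, v i ^ 2 = r * r} = {(fun _ => r), (fun _ => -r)} := by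
      ext v
      simp only [Set.mem_setOf_eq, Finset.univ_unique, Finset.sum_singleton,
        Set.mem_insert_iff, Set.mem_singleton_iff]
      constructor
      · intro h
        have h5 : (v default - r) * (v default + r) = 0 := by linear_combination h
        rcases mul_eq_zero.1 h5 with h6 | h6
        · left
          funext i
          rw [Subsingleton.elim i default]
          exact sub_eq_zero.1 h6
        · right
          funext i
          rw [Subsingleton.elim i default]
          exact eq_neg_of_add_eq_zero_left h6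
      · rintro (rfl | rfl) <;> ring
    rw [h3, h4, Set.ncard_pair]
    · rfl
    · intro h
      have h5 : r = -r := congrFun h 0
      have h6 : 2 * r = 0 := by linear_combination h5
      rcases mul_eq_zero.1 h6 with h7 | h7
      · exact h2F h7
      · exact hr h7
  have h1n : ∀ c : F, ¬ IsSquare c → (nv F 1 c : ℤ) = 0 := by
    intro c hc
    have : IsEmpty {v : Fin 1 → F // ∑ i, v i ^ 2 = c} :=
      ⟨fun v => hc ⟨v.1 0, by have := v.2; simp at this; exact this.symm.trans (sq _)⟩⟩
    unfold nv
    rw [Nat.card_of_isEmpty]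
    rfl
  intro n c hc
  rw [← hq]
  induction n with
  | zero =>
    refine ⟨?_, ?_, ?_⟩
    · have := hstep 0 c
      rw [h0 c hc] at this
      rw [show 2 * (0 + 1) = 0 + 2 from rfl, this]
      ring
    · intro hs
      rw [show 2 * 0 + 1 = 1 from rfl, h1s c hc hs]
      ring
    · intro hs
      rw [show 2 * 0 + 1 = 1 from rfl, h1n c hs]
      ring
  | succ n ih =>
    obtain ⟨i1, i2, i3⟩ := ih
    refine ⟨?_, ?_, ?_⟩
    · rw [show 2 * (n + 1 + 1) = 2 * (n + 1) + 2 from rfl, hstep, i1]
      ring
    · intro hs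
      rw [show 2 * (n + 1) + 1 = 2 * n + 1 + 2 from rfl, hstep, i2 hs]
      ring
    · intro hs
      rw [show 2 * (n + 1) + 1 = 2 * n + 1 + 2 from rfl, hstep, i3 hs]
      ring

end Pool.Agent.Helper79.PS
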