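import Pool.Agent.Helper79.PS.Goals

/-!
Goal OME of project PS.
-/

open Module Matrix
open scoped commutatorElement

namespace Pool.Agent.Helper79.PS

universe u

section
variable {F : Type u} [Field F] {m : ℕ}

theorem nr_mulVec (v x : Fin m → F) : nr v *ᵥ x = (2 / (v ⬝ᵥ v) * (v ⬝ᵥ x)) • v - x := by
  unfold nr
  rw [Matrix.sub_mulVec, Matrix.smul_mulVec, Matrix.vecMulVec_mulVec, Matrix.one_mulVec]
  congr 1
  ext i
  simp only [Pi.smul_apply, smul_eq_mul, MulOpposite.smul_eq_mul_unop, MulOpposite.unop_op]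
  ring

theorem nr_transpose (v : Fin m → F) : (nr v)ᵀ = nr v := by
  unfold nr
  rw [Matrix.transpose_sub, Matrix.transpose_smul, Matrix.transpose_vecMulVec,
    Matrix.transpose_one]

theorem nr_sq (v : Fin m → F) (hv : v ⬝ᵥ v ≠ 0) : nr v * nr v = 1 := by
  apply Matrix.ext_of_mulVec_single
  intro i
  rw [← Matrix.mulVec_mulVec, Matrix.one_mulVec, nr_mulVec, nr_mulVec]
  rw [dotProduct_sub, dotProduct_smul, smul_eq_mul]
  have e : 2 / (v ⬝ᵥ v) * (2 / (v ⬝ᵥ v) * (v ⬝ᵥ Pi.single i 1) * (v ⬝ᵥ v) - v ⬝ᵥ Pi.single i 1) =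
      2 / (v ⬝ᵥ v) * (v ⬝ᵥ Pi.single i 1) := by
    field_simp
    ring
  rw [e]
  abel

theorem nr_mem (v : Fin m → F) (hv : v ⬝ᵥ v ≠ 0) : nr v ∈ Matrix.orthogonalGroup (Fin m) F := by
  rw [Matrix.mem_orthogonalGroup_iff, nr_transpose, nr_sq v hv]

/-- `nr v` as an element of the orthogonal group -/
def no (v : Fin m → F) (hv : v ⬝ᵥ v ≠ 0) : Matrix.orthogonalGroup (Fin m) F := ⟨nr v, nr_mem v hv⟩

theorem og_norm (g : Matrix.orthogonalGroup (Fin m) F) (u v : Fin m → F) :
    ((g : Matrix (Fin m) (Fin m) F) *ᵥ u) ⬝ᵥ ((g : Matrix (Fin m) (Fin m) F) *ᵥ v) = u ⬝ᵥ v := by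
  have h := (Matrix.mem_orthogonalGroup_iff' (Fin m) F).1 g.2
  rw [Matrix.dotProduct_mulVec, ← Matrix.mulVec_transpose, Matrix.mulVec_mulVec, h,
    Matrix.one_mulVec]

theorem og_inv (g : Matrix.orthogonalGroup (Fin m) F) :
    ((g⁻¹ : Matrix.orthogonalGroup (Fin m) F) : Matrix (Fin m) (Fin m) F) =
      (g : Matrix (Fin m) (Fin m) F)ᵀ := rfl

theorem nr_conj (g : Matrix.orthogonalGroup (Fin m) F) (v : Fin m → F) :
    nr ((g : Matrix (Fin m) (Fin m) F) *ᵥ v) =
      (g : Matrix (Fin m) (Fin m) F) * nr v * (g : Matrix (Fin m) (Fin m) F)ᵀ := by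
  have h := (Matrix.mem_orthogonalGroup_iff (Fin m) F).1 g.2
  unfold nr
  rw [og_norm, Matrix.mul_sub, Matrix.mul_one, Matrix.sub_mul, h, Matrix.mul_smul,
    Matrix.smul_mul, Matrix.mul_vecMulVec, Matrix.vecMulVec_mul, Matrix.vecMul_transpose]

theorem no_conj (g : Matrix.orthogonalGroup (Fin m) F) (v : Fin m → F) (hv : v ⬝ᵥ v ≠ 0)
    (w : Fin m → F) (hw : w ⬝ᵥ w ≠ 0) (h : (g : Matrix (Fin m) (Fin m) F) *ᵥ v = w) :
    no w hw = g * no v hv * g⁻¹ := by
  apply Subtype.ext
  show nr w = (g : Matrix (Fin m) (Fin m) F) * nr v * (g : Matrix (Fin m) (Fin m) F)ᵀ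
  rw [← h, nr_conj]

theorem nr_smul (t : F) (ht : t ≠ 0) (v : Fin m → F) : nr (t • v) = nr v := by
  unfold nr
  congr 1
  rw [dotProduct_smul, smul_dotProduct, smul_eq_mul, smul_eq_mul, Matrix.smul_vecMulVec,
    Matrix.vecMulVec_smul, smul_smul, smul_smul]
  congr 1
  by_cases h : v ⬝ᵥ v = 0
  · rw [h]; simp
  · field_simp

theorem witt (h2F : (2 : F) ≠ 0) (a : F) (ha : a ≠ 0) (u v : Fin m → F) (hu : u ⬝ᵥ u = a)
    (hv : v ⬝ᵥ v = a) : ∃ g : Matrix.orthogonalGroup (Fin m) F,
    (g : Matrix (Fin m) (Fin m) F) *ᵥ u = v := by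
  have e1 : (u + v) ⬝ᵥ (u + v) = 2 * ((u + v) ⬝ᵥ u) := by
    simp only [add_dotProduct, dotProduct_add]
    rw [hu, hv, dotProduct_comm v u]
    ring
  by_cases h : (u + v) ⬝ᵥ (u + v) ≠ 0
  · refine ⟨no (u + v) h, ?_⟩
    show nr (u + v) *ᵥ u = v
    rw [nr_mulVec]
    have e2 : 2 / ((u + v) ⬝ᵥ (u + v)) * ((u + v) ⬝ᵥ u) = 1 := by
      rw [div_mul_eq_mul_div, ← e1, div_self h]
    rw [e2, one_smul]
    abel
  · push Not at h
    -- use u - v, with minus
    have e3 : (u - v) ⬝ᵥ (u - v) = 2 * ((u - v) ⬝ᵥ u) := by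
      simp only [sub_dotProduct, dotProduct_sub]
      rw [hu, hv, dotProduct_comm v u]
      ring
    have h' : (u - v) ⬝ᵥ (u - v) ≠ 0 := by
      intro h3
      have e4 : (u + v) ⬝ᵥ (u + v) + (u - v) ⬝ᵥ (u - v) = 2 * 2 * a := by
        simp only [add_dotProduct, dotProduct_add, sub_dotProduct, dotProduct_sub]
        rw [hu, hv, dotProduct_comm v u]
        ring
      rw [h, h3, add_zero] at e4
      exact mul_ne_zero (mul_ne_zero h2F h2F) ha e4.symm
    refine ⟨⟨-nr (u - v), ?_⟩, ?_⟩
    · rw [Matrix.mem_orthogonalGroup_iff, Matrix.transpose_neg, nr_transpose, Matrix.neg_mul,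
        Matrix.mul_neg, neg_neg, nr_sq _ h']
    · show (-nr (u - v)) *ᵥ u = v
      rw [Matrix.neg_mulVec, nr_mulVec]
      have e2 : 2 / ((u - v) ⬝ᵥ (u - v)) * ((u - v) ⬝ᵥ u) = 1 := by
        rw [div_mul_eq_mul_div, ← e3, div_self h']
      rw [e2, one_smul]
      abel

theorem no_mul_mem (h2F : (2 : F) ≠ 0) (u v : Fin m → F) (hu : u ⬝ᵥ u ≠ 0) (hv : v ⬝ᵥ v ≠ 0)
    (h : u ⬝ᵥ u = v ⬝ᵥ v) :
    no u hu * no v hv ∈ commutator (Matrix.orthogonalGroup (Fin m) F) := by
  obtain ⟨g, hg⟩ := witt h2F (u ⬝ᵥ u) hu u v rfl h.symm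
  have h1 := no_conj g u hu v hv hg
  have h2 : (no u hu)⁻¹ = no u hu := by
    rw [inv_eq_iff_mul_eq_one]
    apply Subtype.ext
    exact nr_sq u hu
  have h3 : no u hu * no v hv = ⁅no u hu, g⁆ := by
    rw [h1, commutatorElement_def, h2]
    group
  rw [h3, commutator_def]
  exact Subgroup.commutator_mem_commutator (Subgroup.mem_top _) (Subgroup.mem_top _)

end

section
variable {F : Type u} [Field F] {n : ℕ}

theorem single_dot (i : Fin (2 * n + 1)) :
    (Pi.single i (1 : F) : Fin (2 * n + 1) → F) ⬝ᵥ Pi.single i 1 = 1 := by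
  simp

/-- diagonal sign matrices -/
def dg : (Fin (2 * n + 1) → ℤˣ) →* Matrix.orthogonalGroup (Fin (2 * n + 1)) F where
  toFun ε := ⟨Matrix.diagonal fun i => ((ε i : ℤ) : F), by
    rw [Matrix.mem_orthogonalGroup_iff, Matrix.diagonal_transpose, Matrix.diagonal_mul_diagonal]
    rw [← Matrix.diagonal_one]
    congr 1
    funext i
    rcases Int.units_eq_one_or (ε i) with h | h <;> rw [h] <;> simp⟩
  map_one' := by
    apply Subtype.ext
    show Matrix.diagonal (fun i => (((1 : Fin (2 * n + 1) → ℤˣ) i : ℤ) : F)) = 1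
    rw [← Matrix.diagonal_one]
    congr 1
    funext i
    simp
  map_mul' a b := by
    apply Subtype.ext
    show Matrix.diagonal (fun i => (((a * b) i : ℤ) : F)) =
      Matrix.diagonal (fun i => ((a i : ℤ) : F)) * Matrix.diagonal (fun i => ((b i : ℤ) : F))
    rw [Matrix.diagonal_mul_diagonal]
    congr 1
    funext i
    simp

theorem dg_single (i : Fin (2 * n + 1)) :
    (dg (F := F) fun j => if j = i then 1 else -1) =
      no (Pi.single i 1) (by rw [single_dot]; exact one_ne_zero) := by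
  apply Subtype.ext
  show Matrix.diagonal (fun j => (((if j = i then 1 else -1 : ℤˣ) : ℤ) : F)) = nr (Pi.single i 1)
  unfold nr
  ext a b
  rw [single_dot, Matrix.sub_apply, Matrix.smul_apply, Matrix.vecMulVec_apply,
    Matrix.diagonal_apply, Matrix.one_apply]
  by_cases hab : a = b
  · subst hab
    by_cases hai : a = i
    · subst hai
      simp
      norm_num
    · simp [hai, Pi.single_apply]
  · have : (Pi.single i (1 : F) : Fin (2 * n + 1) → F) a * (Pi.single i (1 : F) : Fin (2 * n + 1) → F) b = 0 := by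
      by_cases hai : a = i
      · subst hai
        rw [Pi.single_apply _ _ b, if_neg (Ne.symm hab), mul_zero]
      · rw [Pi.single_apply _ _ a, if_neg hai, zero_mul]
    rw [if_neg hab, if_neg hab, this]
    simp

theorem no_zero_mem (h2F : (2 : F) ≠ 0) :
    no (Pi.single (0 : Fin (2 * n + 1)) (1 : F)) (by rw [single_dot]; exact one_ne_zero) ∈
      commutator (Matrix.orthogonalGroup (Fin (2 * n + 1)) F) := by
  let O := Matrix.orthogonalGroup (Fin (2 * n + 1)) F
  let φ : (Fin (2 * n + 1) → ℤˣ) →* Abelianization O := Abelianization.of.comp dg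
  let ε : Fin (2 * n + 1) → (Fin (2 * n + 1) → ℤˣ) := fun i j => if j = i then 1 else -1
  obtain ⟨x, hx⟩ : ∃ x, x = φ (ε 0) := ⟨_, rfl⟩
  have hφ : ∀ i, φ (ε i) = x := by
    intro i
    have h1 := no_mul_mem (m := 2 * n + 1) h2F (Pi.single i (1 : F)) (Pi.single 0 1)
      (by rw [single_dot]; exact one_ne_zero) (by rw [single_dot]; exact one_ne_zero)
      (by rw [single_dot, single_dot])
    rw [← dg_single, ← dg_single] at h1
    have h2 : φ (ε i * ε 0) = 1 := by
      show Abelianization.of (dg (ε i * ε 0)) = 1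
      rw [map_mul]
      exact (QuotientGroup.eq_one_iff _).2 h1
    have h3 : φ (ε 0) * φ (ε 0) = 1 := by
      rw [← map_mul]
      have : ε 0 * ε 0 = 1 := by
        funext j
        show ε 0 j * ε 0 j = 1
        exact Int.units_mul_self _
      rw [this, map_one]
    rw [map_mul] at h2
    rw [hx]
    have h4 : φ (ε i) = (φ (ε 0))⁻¹ := eq_inv_of_mul_eq_one_left h2
    rw [h4, inv_eq_iff_mul_eq_one]
    exact h3
  have hx2 : x * x = 1 := by
    rw [hx, ← map_mul]
    have : ε 0 * ε 0 = 1 := by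
      funext j
      show ε 0 j * ε 0 j = 1
      exact Int.units_mul_self _
    rw [this, map_one]
  have hprod : ∏ i, ε i = 1 := by
    funext j
    rw [Finset.prod_apply]
    show ∏ i, (if j = i then (1 : ℤˣ) else -1) = 1
    rw [Finset.prod_ite, Finset.prod_const_one, one_mul, Finset.prod_const]
    have : (Finset.univ.filter fun i : Fin (2 * n + 1) => ¬ j = i).card = 2 * n := by
      have h1 : (Finset.univ.filter fun i : Fin (2 * n + 1) => ¬ j = i) = Finset.univ.erase j := by
        ext i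
        simp [eq_comm]
      rw [h1, Finset.card_erase_of_mem (Finset.mem_univ _), Finset.card_univ, Fintype.card_fin]
      rfl
    rw [this, pow_mul]
    norm_num
  have h1 : x ^ (2 * n + 1) = 1 := by
    have h2 := congrArg φ hprod
    rw [map_prod, map_one, Finset.prod_congr rfl (fun i _ => hφ i), Finset.prod_const,
      Finset.card_univ, Fintype.card_fin] at h2
    exact h2
  have h2 : x = 1 := by
    rw [pow_succ, pow_mul, sq, hx2, one_pow, one_mul] at h1
    exact h1
  rw [← dg_single]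
  have h3 : Abelianization.of (dg (F := F) (ε 0)) = 1 := by
    rw [← h2, hx]
    rfl
  exact (QuotientGroup.eq_one_iff _).1 h3

/-- the vectors of norm 1 -/
def Sph (F : Type u) [Field F] (m : ℕ) : Type u := {v : Fin m → F // v ⬝ᵥ v = 1}

instance (F : Type u) [Field F] [Finite F] (m : ℕ) : Finite (Sph F m) := Subtype.finite

theorem card_sph (F : Type u) [Field F] (m : ℕ) : Nat.card (Sph F m) = nv F m 1 := by
  unfold nv Sph
  apply Nat.card_congr
  apply Equiv.subtypeEquivRight
  intro v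
  have : v ⬝ᵥ v = ∑ i, v i ^ 2 := by
    unfold dotProduct
    exact Finset.sum_congr rfl (fun i _ => (sq (v i)).symm)
  rw [this]

/-- action on the sphere -/
def sphAct (F : Type u) [Field F] (m : ℕ) :
    Matrix.orthogonalGroup (Fin m) F →* Equiv.Perm (Sph F m) where
  toFun g :=
    { toFun := fun v => ⟨(g : Matrix (Fin m) (Fin m) F) *ᵥ v.1, by rw [og_norm]; exact v.2⟩
      invFun := fun v => ⟨((g⁻¹ : Matrix.orthogonalGroup (Fin m) F) : Matrix (Fin m) (Fin m) F) *ᵥ v.1,
        by rw [og_norm]; exact v.2⟩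
      left_inv := by
        intro v
        apply Subtype.ext
        show ((g⁻¹ : Matrix.orthogonalGroup (Fin m) F) : Matrix (Fin m) (Fin m) F) *ᵥ
          ((g : Matrix (Fin m) (Fin m) F) *ᵥ v.1) = v.1
        rw [Matrix.mulVec_mulVec, og_inv, (Matrix.mem_orthogonalGroup_iff' (Fin m) F).1 g.2,
          Matrix.one_mulVec]
      right_inv := by
        intro v
        apply Subtype.ext
        show (g : Matrix (Fin m) (Fin m) F) *ᵥ
          (((g⁻¹ : Matrix.orthogonalGroup (Fin m) F) : Matrix (Fin m) (Fin m) F) *ᵥ v.1) = v.1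
        rw [Matrix.mulVec_mulVec, og_inv, (Matrix.mem_orthogonalGroup_iff (Fin m) F).1 g.2,
          Matrix.one_mulVec] }
  map_one' := by
    ext v : 1
    apply Subtype.ext
    show (1 : Matrix (Fin m) (Fin m) F) *ᵥ v.1 = v.1
    rw [Matrix.one_mulVec]
  map_mul' g h := by
    ext v : 1
    apply Subtype.ext
    show ((g : Matrix (Fin m) (Fin m) F) * (h : Matrix (Fin m) (Fin m) F)) *ᵥ v.1 =
      (g : Matrix (Fin m) (Fin m) F) *ᵥ ((h : Matrix (Fin m) (Fin m) F) *ᵥ v.1)
    rw [Matrix.mulVec_mulVec]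

end

open Classical in
theorem sign_no {F : Type u} [Field F] [Finite F] (h2F : (2 : F) ≠ 0) {m : ℕ} [Fintype (Sph F m)]
    (v : Fin m → F) (hv : v ⬝ᵥ v ≠ 0) (k : ℕ)
    (hk : Nat.card (Function.fixedPoints (sphAct F m (no v hv))) = k) :
    Equiv.Perm.sign (sphAct F m (no v hv)) = (-1) ^ ((Nat.card (Sph F m) - k) / 2) := by
  have h1 : (sphAct F m (no v hv)) ^ 2 = 1 := by
    rw [← map_pow]
    have : (no v hv) ^ 2 = 1 := by
      apply Subtype.ext
      show nr v ^ 2 = 1
      rw [sq, nr_sq v hv]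
    rw [this, map_one]
  rw [Equiv.Perm.sign_of_pow_two_eq_one h1, Nat.card_eq_fintype_card, ← hk,
    Nat.card_eq_fintype_card]

theorem p_ome : S_OME.{u} := by
  intro hNV F _ _ n h2F hn v hv
  classical
  refine ⟨nr_mem v hv, ?_⟩
  haveI : Fintype (Sph F (2 * n + 1)) := Fintype.ofFinite _
  have hmain : ∀ w : Fin (2 * n + 1) → F, ∀ hw : w ⬝ᵥ w ≠ 0, IsSquare (w ⬝ᵥ w) →
      no w hw ∈ commutator (Matrix.orthogonalGroup (Fin (2 * n + 1)) F) := by
    rintro w hw ⟨t, ht⟩
    have ht0 : t ≠ 0 := by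
      rintro rfl
      apply hw
      rw [ht, mul_zero]
    have h1 : (t⁻¹ • w) ⬝ᵥ (t⁻¹ • w) = 1 := by
      rw [dotProduct_smul, smul_dotProduct, ht, smul_eq_mul, smul_eq_mul]
      field_simp
    have h1' : (t⁻¹ • w) ⬝ᵥ (t⁻¹ • w) ≠ 0 := by rw [h1]; exact one_ne_zero
    have h2 : no w hw = no (t⁻¹ • w) h1' := by
      apply Subtype.ext
      exact (nr_smul _ (inv_ne_zero ht0) w).symm
    have h3 := no_mul_mem (m := 2 * n + 1) h2F (t⁻¹ • w) (Pi.single 0 1) h1'
      (by rw [single_dot]; exact one_ne_zero) (by rw [h1, single_dot])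
    rw [h2]
    have h4 := no_zero_mem (F := F) (n := n) h2F
    exact (Subgroup.mul_mem_cancel_right _ h4).1 h3
  constructor
  · intro hmem
    by_contra hns
    -- signs
    obtain ⟨sg, hsg⟩ : ∃ sg : Matrix.orthogonalGroup (Fin (2 * n + 1)) F →* ℤˣ,
      sg = Equiv.Perm.sign.comp (sphAct F (2 * n + 1)) := ⟨_, rfl⟩
    have hker := Abelianization.commutator_subset_ker sg
    have hs1 : sg (no v hv) = 1 := hker hmem
    have he0 : (Pi.single 0 1 : Fin (2 * n + 1) → F) ⬝ᵥ Pi.single 0 1 ≠ 0 := by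
      rw [single_dot]; exact one_ne_zero
    have hs2 : sg (no (Pi.single 0 1) he0) = 1 := hker (no_zero_mem (F := F) (n := n) h2F)
    have hk1 : Nat.card (Function.fixedPoints (sphAct F (2 * n + 1) (no v hv))) = 0 := by
      rw [Nat.card_eq_zero]
      left
      constructor
      rintro ⟨⟨w, hw⟩, hfix⟩
      have h1 : nr v *ᵥ w = w := congrArg Subtype.val hfix
      rw [nr_mulVec] at h1
      apply hns
      -- w = c v
      obtain ⟨c, hc⟩ : ∃ c, w = c • v := by
        refine ⟨1 / (v ⬝ᵥ v) * (v ⬝ᵥ w), ?_⟩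
        funext i
        have h2 := congrFun h1 i
        simp only [Pi.sub_apply, Pi.smul_apply, smul_eq_mul] at h2 ⊢
        have h3 : (2 : F) * (w i - 1 / (v ⬝ᵥ v) * (v ⬝ᵥ w) * v i) = 0 := by
          linear_combination -h2
        rcases mul_eq_zero.1 h3 with h | h
        · exact absurd h h2F
        · exact sub_eq_zero.1 h
      rw [hc, dotProduct_smul, smul_dotProduct, smul_eq_mul, smul_eq_mul] at hw
      have hc0 : c ≠ 0 := by
        rintro rfl
        rw [zero_mul] at hw
        exact zero_ne_one hw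
      refine ⟨c⁻¹, ?_⟩
      field_simp
      linear_combination hw
    have hk2 : Nat.card (Function.fixedPoints (sphAct F (2 * n + 1) (no (Pi.single 0 1) he0))) = 2 := by
      obtain ⟨s1, hs1⟩ : ∃ s1 : Sph F (2 * n + 1), s1.1 = Pi.single 0 1 :=
        ⟨⟨Pi.single 0 1, single_dot 0⟩, rfl⟩
      obtain ⟨s2, hs2⟩ : ∃ s2 : Sph F (2 * n + 1), s2.1 = -Pi.single 0 1 :=
        ⟨⟨-Pi.single 0 1, by rw [neg_dotProduct_neg, single_dot]⟩, rfl⟩
      have h1 : Nat.card (Function.fixedPoints (sphAct F (2 * n + 1) (no (Pi.single 0 1) he0))) =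
          ({s1, s2} : Set (Sph F (2 * n + 1))).ncard := by
        rw [Nat.card_coe_set_eq]
        congr 1
        ext z
        rw [Set.mem_insert_iff, Set.mem_singleton_iff, Function.mem_fixedPoints]
        obtain ⟨w, hw'⟩ : ∃ w, w = z.1 := ⟨_, rfl⟩
        have hw : w ⬝ᵥ w = 1 := by rw [hw']; exact z.2
        constructor
        · intro hfix
          have h1 : nr (Pi.single 0 1) *ᵥ w = w := by rw [hw']; exact congrArg Subtype.val hfix
          rw [nr_mulVec, single_dot] at h1
          have h2 : ∀ i, i ≠ 0 → w i = 0 := by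
            intro i hi
            have h3 := congrFun h1 i
            simp only [Pi.sub_apply, Pi.smul_apply, smul_eq_mul, Pi.single_apply, if_neg hi,
              mul_zero] at h3
            have h4 : (2 : F) * w i = 0 := by linear_combination -h3
            rcases mul_eq_zero.1 h4 with h | h
            · exact absurd h h2F
            · exact h
          have h3 : w = Pi.single 0 (w 0) := by
            funext i
            by_cases hi : i = 0
            · subst hi; simp
            · rw [h2 i hi, Pi.single_apply, if_neg hi]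
          have h4 : w 0 * w 0 = 1 := by
            rw [h3] at hw
            simpa using hw
          have h5 : (w 0 - 1) * (w 0 + 1) = 0 := by linear_combination h4
          rcases mul_eq_zero.1 h5 with h | h
          · left
            apply Subtype.ext
            rw [hs1, ← hw', h3, sub_eq_zero.1 h]
          · right
            apply Subtype.ext
            have h6 : w 0 = -1 := eq_neg_of_add_eq_zero_left h
            rw [hs2, ← hw', h3, h6]
            exact Pi.single_neg 0 1
        · intro h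
          have key : nr (Pi.single 0 1 : Fin (2 * n + 1) → F) *ᵥ (Pi.single 0 1) = Pi.single 0 1 := by
            rw [nr_mulVec, single_dot]
            module
          rcases h with h | h
          · have h' : z.1 = Pi.single 0 1 := by rw [h, hs1]
            apply Subtype.ext
            show nr (Pi.single 0 1) *ᵥ z.1 = z.1
            rw [h', key]
          · have h' : z.1 = -Pi.single 0 1 := by rw [h, hs2]
            apply Subtype.ext
            show nr (Pi.single 0 1) *ᵥ z.1 = z.1
            rw [h', Matrix.mulVec_neg, key]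
      rw [h1]
      apply Set.ncard_pair
      intro h
      have h2 : (Pi.single 0 1 : Fin (2 * n + 1) → F) = -Pi.single 0 1 :=
        hs1.symm.trans ((congrArg Subtype.val h).trans hs2)
      have h3 := congrFun h2 0
      simp only [Pi.single_eq_same, Pi.neg_apply] at h3
      apply h2F
      linear_combination h3
    have e1 := sign_no h2F v hv 0 hk1
    have e2 := sign_no h2F (Pi.single 0 1) he0 2 hk2
    have hs1' : Equiv.Perm.sign (sphAct F (2 * n + 1) (no v hv)) = 1 := by
      rw [hsg] at hs1; exact hs1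
    have hs2' : Equiv.Perm.sign (sphAct F (2 * n + 1) (no (Pi.single 0 1) he0)) = 1 := by
      rw [hsg] at hs2; exact hs2
    rw [e1] at hs1'
    rw [e2] at hs2'
    have hge : 2 ≤ Nat.card (Sph F (2 * n + 1)) := by
      have h9 := Nat.card_le_card_of_injective
        (fun z : Function.fixedPoints (sphAct F (2 * n + 1) (no (Pi.single 0 1) he0)) => z.1)
        Subtype.val_injective
      rw [hk2] at h9
      exact h9
    have h3 : (Nat.card (Sph F (2 * n + 1)) - 0) / 2 = (Nat.card (Sph F (2 * n + 1)) - 2) / 2 + 1 := by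
      omega
    rw [h3, pow_succ, hs2', one_mul] at hs1'
    exact absurd hs1' (by decide)
  · intro hs
    exact hmain v hv hs

end Pool.Agent.Helper79.PS
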