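import Pool.Agent.Helper79.PS.Spc
import Pool.Agent.Helper79.PS.Ome

/-!
Goal OC of project PS.
-/

open Module Matrix

namespace Pool.Agent.Helper79.PS

open Pool.Agent.Helper10.RS

universe u

section
variable (F : Type u) [Field F] (m : ℕ)

/-- the group `Ω` -/
abbrev Om : Type u := commutator (Matrix.orthogonalGroup (Fin m) F)

/-- the inclusion in the matrices -/
def omInc : Om F m →* Matrix (Fin m) (Fin m) F :=
  (Matrix.orthogonalGroup (Fin m) F).subtype.comp (commutator (Matrix.orthogonalGroup (Fin m) F)).subtype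

theorem omInc_inj : Function.Injective (omInc F m) :=
  Subtype.val_injective.comp Subtype.val_injective

variable {F m}

theorem omInc_tr (g : Om F m) : (omInc F m g)ᵀ * (1 : Matrix (Fin m) (Fin m) F) * omInc F m g = 1 := by
  rw [Matrix.mul_one]
  exact (Matrix.mem_orthogonalGroup_iff' (Fin m) F).1 g.1.2

theorem om_det (g : Om F m) : (omInc F m g).det = 1 := by
  let δ : Matrix.orthogonalGroup (Fin m) F →* Fˣ :=
    MonoidHom.toHomUnits ((Matrix.detMonoidHom (n := Fin m) (R := F)).comp
      (Matrix.orthogonalGroup (Fin m) F).subtype)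
  have h := Abelianization.commutator_subset_ker δ g.2
  have h2 : δ g.1 = 1 := h
  have h3 := congrArg Units.val h2
  exact h3

theorem nr_inj (h2F : (2 : F) ≠ 0) (v w : Fin m → F) (hv : v ⬝ᵥ v = 1) (hw : w ⬝ᵥ w = 1)
    (h : nr v = nr w) : w = v ∨ w = -v := by
  have h1 : nr v *ᵥ w = nr w *ᵥ w := by rw [h]
  rw [nr_mulVec, nr_mulVec, hv, hw] at h1
  have h2 : w = (v ⬝ᵥ w) • v := by
    funext i
    have h3 := congrFun h1 i
    simp only [Pi.sub_apply, Pi.smul_apply, smul_eq_mul] at h3 ⊢
    have h4 : (2 : F) * (w i - (v ⬝ᵥ w) * v i) = 0 := by linear_combination -h3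
    rcases mul_eq_zero.1 h4 with h | h
    · exact absurd h h2F
    · exact sub_eq_zero.1 h
  obtain ⟨c, hc⟩ : ∃ c, c = v ⬝ᵥ w := ⟨_, rfl⟩
  rw [← hc] at h2
  have h5 : c * c = 1 := by
    rw [h2, dotProduct_smul, smul_dotProduct, hv, smul_eq_mul, smul_eq_mul] at hw
    linear_combination hw
  have h6 : (c - 1) * (c + 1) = 0 := by linear_combination h5
  rcases mul_eq_zero.1 h6 with h | h
  · left; rw [h2, sub_eq_zero.1 h, one_smul]
  · right; rw [h2, eq_neg_of_add_eq_zero_left h, neg_one_smul]

end

theorem conj_back {G : Type*} [Group G] (g y : G) : y = g⁻¹ * (g * y * g⁻¹) * g := by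
  group

theorem p_oc : S_OC.{u} := by
  intro hCLS hOME hX F _ _ p n _ _ hn h2F hdvd
  classical
  haveI := Fintype.ofFinite F
  have hp : p.Prime := Fact.out
  have hn1 : 1 ≤ n := by omega
  obtain ⟨f, -, hf⟩ := FiniteField.card F p
  rw [← Nat.card_eq_fintype_card] at hf
  let G := Om F (2 * n + 1)
  haveI hfin : Finite (Matrix.orthogonalGroup (Fin (2 * n + 1)) F) := Subtype.finite
  haveI : Finite G := Subtype.finite
  obtain ⟨ι, hι⟩ : ∃ ι : G →* Matrix (Fin (2 * n + 1)) (Fin (2 * n + 1)) F,
    ι = omInc F (2 * n + 1) := ⟨_, rfl⟩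
  have hinj : Function.Injective ι := by rw [hι]; exact omInc_inj F _
  have htr : ∀ g : G, (ι g)ᵀ * (1 : Matrix (Fin (2 * n + 1)) (Fin (2 * n + 1)) F) * ι g = 1 := by
    rw [hι]; exact omInc_tr
  have hιc : ∀ g : G, ι g = ((g.1 : Matrix.orthogonalGroup (Fin (2 * n + 1)) F) :
      Matrix (Fin (2 * n + 1)) (Fin (2 * n + 1)) F) := by
    intro g; rw [hι]; rfl
  let Y : Set G := {g | ¬ p ∣ orderOf g ∧ g ≠ 1 ∧
    ∀ v : Fin (2 * n + 1) → F, v ⬝ᵥ v ≠ 0 → ι g ≠ nr v}
  -- the form
  obtain ⟨B, hB⟩ : ∃ B, B = Matrix.toBilin' (1 : Matrix (Fin (2 * n + 1)) (Fin (2 * n + 1)) F) :=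
    ⟨_, rfl⟩
  have hBd : ∀ u v, B u v = u ⬝ᵥ v := by
    intro u v
    rw [hB, Matrix.toBilin'_apply', Matrix.one_mulVec]
  have hnd : B.Nondegenerate := by
    rw [hB]
    exact LinearMap.BilinForm.nondegenerate_toBilin'_of_det_ne_zero' _
      (by rw [Matrix.det_one]; exact one_ne_zero)
  have hsym : B.IsSymm := by
    constructor
    intro u v
    rw [hBd, hBd, dotProduct_comm]
  have hY : p ^ ((f : ℕ) * n + 1) ∣ Nat.card Y := by
    apply hCLS G p ((f : ℕ) * n ^ 2) ((f : ℕ) * n) Y
    · rw [hf, ← pow_mul] at hdvd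
      exact hdvd
    · intro g y hy
      obtain ⟨h1, h2, h3⟩ := hy
      refine ⟨?_, ?_, ?_⟩
      · have : orderOf (g * y * g⁻¹) = orderOf y := by
          have := orderOf_injective (MulAut.conj g).toMonoidHom (MulAut.conj g).injective y
          simpa using this
        rw [this]
        exact h1
      · intro h
        apply h2
        have := mul_inv_eq_iff_eq_mul.1 h
        rw [one_mul] at this
        exact mul_left_cancel (this.trans (mul_one g).symm)
      · intro v hv h
        have h4 : y = g⁻¹ * (g * y * g⁻¹) * g := conj_back g y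
        have h5 : ι y = ι g⁻¹ * nr v * ι g := by
          conv_lhs => rw [h4]
          rw [map_mul, map_mul, h]
        have h6 : ι g = (ι g⁻¹)ᵀ := by
          rw [hιc, hιc]
          show (g.1 : Matrix (Fin (2 * n + 1)) (Fin (2 * n + 1)) F) =
            (((g.1⁻¹ : Matrix.orthogonalGroup (Fin (2 * n + 1)) F) :
              Matrix (Fin (2 * n + 1)) (Fin (2 * n + 1)) F))ᵀ
          rw [og_inv, Matrix.transpose_transpose]
        have h7 := nr_conj (g⁻¹).1 v
        rw [← hιc] at h7
        have h8 : ((ι g⁻¹) *ᵥ v) ⬝ᵥ ((ι g⁻¹) *ᵥ v) ≠ 0 := by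
          rw [hιc, og_norm]
          exact hv
        apply h3 _ h8
        rw [h5, h6, h7]
    · intro y hy R hR hRy
      obtain ⟨h1, h2, h3⟩ := hy
      have hmain := hX F (Fin (2 * n + 1) → F) R p B (matHom ι y)
        ((matHom ι).comp R.subtype) n (orderOf y) hn
        (by rw [Module.finrank_fintype_fun_eq_card, Fintype.card_fin])
        h2F hnd hsym (by rw [hB]; exact matHom_isom _ _ htr y) hR
        (by rw [hB]; exact fun g => matHom_isom _ _ htr g.1)
        (by
          intro g u
          have h4 := hRy g.1 g.2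
          have h5 : matHom ι g.1 * matHom ι y = matHom ι y * matHom ι g.1 := by
            rw [← map_mul, ← map_mul, h4]
          exact congrArg (fun e : (Fin (2 * n + 1) → F) ≃ₗ[F] (Fin (2 * n + 1) → F) => e u) h5)
        ((matHom_inj _ hinj).comp R.subtype_injective)
        (not_dvd_cast F p _ h1)
        (by
          intro v
          rw [← map_pow, pow_orderOf_eq_one, map_one]
          rfl)
        (by
          rw [matHom_toLin, LinearMap.det_toLin', hι]
          exact om_det y)
        (by
          by_contra hcon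
          push Not at hcon
          apply h2
          apply matHom_inj _ hinj
          rw [map_one]
          ext v
          rw [hcon]
          rfl)
        (by
          intro v hv
          rw [hBd] at hv
          by_contra hcon
          push Not at hcon
          apply h3 v hv
          apply Matrix.toLin'.injective
          apply LinearMap.ext
          intro u
          have h5 := hcon u
          rw [matHom_apply, hBd, hBd] at h5
          rw [Matrix.toLin'_apply, Matrix.toLin'_apply, h5, nr_mulVec, dotProduct_comm v u]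
          congr 2
          ring)
      rw [hf, ← pow_mul, ← pow_mul] at hmain
      exact hmain
  -- counting
  have hp2 : p ≠ 2 := by
    rintro rfl
    apply h2F
    have := CharP.cast_eq_zero F 2
    exact_mod_cast this
  let T : Set G := {g | ∃ v : Fin (2 * n + 1) → F, v ⬝ᵥ v = 1 ∧ ι g = nr v}
  have hT1 : (1 : G) ∉ T := by
    rintro ⟨v, hv, h⟩
    rw [map_one] at h
    -- choose a vector orthogonal ... use trace-free argument: nr v = 1 gives u = (v.u) v for all u
    have h1 : ∀ u : Fin (2 * n + 1) → F, u = (v ⬝ᵥ u) • v := by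
      intro u
      have h2 := congrArg (fun M => M *ᵥ u) h
      simp only [Matrix.one_mulVec] at h2
      rw [nr_mulVec, hv] at h2
      funext i
      have h3 := congrFun h2 i
      simp only [Pi.sub_apply, Pi.smul_apply, smul_eq_mul] at h3 ⊢
      have h4 : (2 : F) * (u i - (v ⬝ᵥ u) * v i) = 0 := by linear_combination h3
      rcases mul_eq_zero.1 h4 with h | h
      · exact absurd h h2F
      · exact sub_eq_zero.1 h
    have h0 := h1 (Pi.single ⟨0, by omega⟩ 1)
    have h01 := congrFun h0 ⟨0, by omega⟩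
    have h02 := congrFun h0 ⟨1, by omega⟩
    have h11 := congrFun (h1 (Pi.single ⟨1, by omega⟩ 1)) ⟨1, by omega⟩
    simp [Pi.single_apply] at h01 h02 h11
    rcases h02 with h | h
    · rw [h, zero_mul] at h01; exact one_ne_zero h01
    · rw [h, zero_mul] at h11; exact one_ne_zero h11
  have hTord : ∀ g ∈ T, orderOf g = 2 := by
    rintro g ⟨v, hv, h⟩
    rw [orderOf_eq_prime_iff]
    refine ⟨?_, ?_⟩
    · apply hinj
      rw [map_pow, h, sq, nr_sq v (by rw [hv]; exact one_ne_zero), map_one]
    · rintro rfl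
      exact hT1 ⟨v, hv, h⟩
  have hTY : Disjoint T Y := by
    rw [Set.disjoint_left]
    rintro g ⟨v, hv, h⟩ hY'
    exact hY'.2.2 v (by rw [hv]; exact one_ne_zero) h
  have hset : {g : G | ¬ p ∣ orderOf g} = insert 1 (T ∪ Y) := by
    ext g
    simp only [Set.mem_insert_iff, Set.mem_setOf_eq, Set.mem_union]
    constructor
    · intro h
      by_cases h1 : g = 1
      · left; exact h1
      · by_cases h2 : ∃ v : Fin (2 * n + 1) → F, v ⬝ᵥ v ≠ 0 ∧ ι g = nr v
        · right; left
          obtain ⟨v, hv, hgv⟩ := h2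
          obtain ⟨hm, hiff⟩ := hOME F n h2F hn1 v hv
          have h3 : (⟨nr v, hm⟩ : Matrix.orthogonalGroup (Fin (2 * n + 1)) F) = g.1 := by
            apply Subtype.ext
            rw [← hιc]
            exact hgv.symm
          rw [h3] at hiff
          obtain ⟨t, ht⟩ := hiff.1 g.2
          have ht0 : t ≠ 0 := by
            rintro rfl
            apply hv
            rw [ht, mul_zero]
          refine ⟨t⁻¹ • v, ?_, ?_⟩
          · rw [dotProduct_smul, smul_dotProduct, ht, smul_eq_mul, smul_eq_mul]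
            field_simp
          · rw [nr_smul _ (inv_ne_zero ht0), hgv]
        · right; right
          push Not at h2
          exact ⟨h, h1, h2⟩
    · rintro (rfl | h | h)
      · rw [orderOf_one]
        intro h
        exact hp.one_lt.ne' (Nat.dvd_one.1 h)
      · rw [hTord g h]
        intro h
        exact hp2 ((Nat.prime_dvd_prime_iff_eq hp Nat.prime_two).1 h)
      · exact h.1
  have hcount : reg G p = 1 + Nat.card T + Nat.card Y := by
    have h1 : reg G p = {g : G | ¬ p ∣ orderOf g}.ncard := rfl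
    have h3 : (1 : G) ∉ T ∪ Y := by
      intro h
      rcases h with h | h
      · exact hT1 h
      · exact h.2.1 rfl
    rw [h1, hset, Set.ncard_insert_of_notMem h3 (Set.toFinite _),
      Set.ncard_union_eq hTY (Set.toFinite _) (Set.toFinite _)]
    rw [← Nat.card_coe_set_eq, ← Nat.card_coe_set_eq]
    ring
  have hTcard : nv F (2 * n + 1) 1 = Nat.card T * 2 := by
    rw [← card_sph]
    have hsq : ∀ v : Sph F (2 * n + 1), ∃ t : T, ι t.1 = nr v.1 := by
      intro v
      have hv : v.1 ⬝ᵥ v.1 ≠ 0 := by rw [v.2]; exact one_ne_zero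
      obtain ⟨hm, hiff⟩ := hOME F n h2F hn1 v.1 hv
      have h1 := hiff.2 (by rw [v.2]; exact ⟨1, (mul_one 1).symm⟩)
      have h2 : ι (⟨_, h1⟩ : G) = nr v.1 := by rw [hιc]
      exact ⟨⟨⟨_, h1⟩, ⟨v.1, v.2, h2⟩⟩, h2⟩
    choose φ hφ using hsq
    haveI := Fintype.ofFinite T
    rw [Nat.card_congr (Equiv.sigmaFiberEquiv φ).symm, Nat.card_sigma]
    have hfib : ∀ t : T, Nat.card {v : Sph F (2 * n + 1) // φ v = t} = 2 := by
      rintro ⟨g, v0, hv0, hg⟩
      have e0 : Nat.card {v : Sph F (2 * n + 1) // φ v = ⟨g, v0, hv0, hg⟩} =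
        {v : Sph F (2 * n + 1) | φ v = ⟨g, v0, hv0, hg⟩}.ncard := rfl
      rw [e0]
      obtain ⟨s1, hs1⟩ : ∃ s1 : Sph F (2 * n + 1), s1.1 = v0 := ⟨⟨v0, hv0⟩, rfl⟩
      obtain ⟨s2, hs2⟩ : ∃ s2 : Sph F (2 * n + 1), s2.1 = -v0 :=
        ⟨⟨-v0, by rw [neg_dotProduct_neg, hv0]⟩, rfl⟩
      have hnrneg : nr (-v0) = nr v0 := by
        have := nr_smul (-1 : F) (by simp) v0
        rwa [neg_one_smul] at this
      have hset2 : {v : Sph F (2 * n + 1) | φ v = ⟨g, v0, hv0, hg⟩} = {s1, s2} := by
        ext v
        rw [Set.mem_insert_iff, Set.mem_singleton_iff, Set.mem_setOf_eq]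
        constructor
        · intro h
          have h1 : nr v0 = nr v.1 := by
            rw [← hφ v, h, hg]
          rcases nr_inj h2F v0 v.1 hv0 v.2 h1 with h2 | h2
          · left; apply Subtype.ext; rw [h2, hs1]
          · right; apply Subtype.ext; rw [h2, hs2]
        · intro h
          apply Subtype.ext
          apply hinj
          rw [hφ, hg]
          rcases h with h | h
          · rw [h, hs1]
          · rw [h, hs2, hnrneg]
      rw [hset2]
      apply Set.ncard_pair
      intro h
      have h1 : v0 = -v0 := hs1.symm.trans ((congrArg Subtype.val h).trans hs2)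
      have h2 : v0 ⬝ᵥ v0 = -(v0 ⬝ᵥ v0) := by
        conv_lhs => rw [h1]
        rw [neg_dotProduct, ← h1]
      rw [hv0] at h2
      apply h2F
      linear_combination h2
    rw [Finset.sum_congr rfl (fun t _ => hfib t), Finset.sum_const, Finset.card_univ,
      smul_eq_mul, Nat.card_eq_fintype_card]
  obtain ⟨k, hk⟩ := hY
  refine ⟨k, ?_⟩
  show 2 * reg G p = _
  rw [hcount, hTcard, hk, hf, ← pow_mul, pow_succ]
  ring

end Pool.Agent.Helper79.PS
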