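import Pool.Agent.Helper79.PS.Spx

/-!
Goal OX of project PS.
-/

open Module

namespace Pool.Agent.Helper79.PS

universe u v w

/-- parity: an isometry without eigenvalue `1` has determinant `(-1)^dim` -/
theorem det_of_no_one {F : Type u} {V : Type v} [Field F] [AddCommGroup V] [Module F V]
    [FiniteDimensional F V] (B : LinearMap.BilinForm F V) (hB : B.Nondegenerate)
    (y : V →ₗ[F] V) (hy : ∀ u v, B (y u) (y v) = B u v) (h1 : ∀ v, y v = v → v = 0) :
    LinearMap.det y = (-1) ^ finrank F V := by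
  classical
  let b := Module.finBasis F V
  obtain ⟨G, hG⟩ : ∃ G, G = LinearMap.BilinForm.toMatrix b B := ⟨_, rfl⟩
  obtain ⟨Y, hY⟩ : ∃ Y, Y = LinearMap.toMatrix b b y := ⟨_, rfl⟩
  have hGd : G.det ≠ 0 := by
    rw [hG]
    exact (LinearMap.BilinForm.nondegenerate_iff_det_ne_zero b).1 hB
  have hYG : Y.transpose * G * Y = G := by
    have h2 := LinearMap.BilinForm.toMatrix_comp b b B y y
    have h3 : B.comp y y = B := by
      ext u v
      exact hy u v
    rw [h3] at h2
    rw [hY, hG]
    exact h2.symm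
  have hd1 : (Y - 1).det ≠ 0 := by
    have h4 : Y - 1 = LinearMap.toMatrix b b (y - LinearMap.id) := by
      rw [map_sub, LinearMap.toMatrix_id, hY]
    rw [h4, LinearMap.det_toMatrix]
    intro h5
    have h6 := LinearMap.bot_lt_ker_of_det_eq_zero h5
    obtain ⟨v, hv, hv0⟩ := (Submodule.ne_bot_iff _).1 h6.ne'
    apply hv0
    apply h1
    have h7 : y v - v = 0 := by simpa using hv
    exact sub_eq_zero.1 h7
  have hdet : LinearMap.det y = Y.det := by rw [hY, LinearMap.det_toMatrix]
  have e1 : (1 - Y).transpose * G = Y.transpose * G * (Y - 1) := by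
    rw [Matrix.mul_sub, hYG, Matrix.transpose_sub, Matrix.sub_mul, Matrix.transpose_one,
      Matrix.one_mul, Matrix.mul_one]
  have e2 := congrArg Matrix.det e1
  rw [Matrix.det_mul, Matrix.det_mul, Matrix.det_mul, Matrix.det_transpose,
    Matrix.det_transpose] at e2
  have e3 : (1 - Y).det = (-1) ^ finrank F V * (Y - 1).det := by
    have : 1 - Y = -(Y - 1) := by abel
    rw [this, Matrix.det_neg, Fintype.card_fin]
  rw [e3] at e2
  have e4 : (-1) ^ finrank F V = Y.det := by
    have h8 : ((-1) ^ finrank F V - Y.det) * ((Y - 1).det * G.det) = 0 := by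
      linear_combination e2
    rcases mul_eq_zero.1 h8 with h | h
    · exact sub_eq_zero.1 h
    · exact absurd h (mul_ne_zero hd1 hGd)
  rw [hdet, e4]

section
variable {F : Type u} {V : Type v} {R : Type w} [Field F] [Finite F] [AddCommGroup V]
  [Module F V] [FiniteDimensional F V] [Group R] [Finite R] {p : ℕ} [Fact p.Prime] [CharP F p]

theorem bo1 (hS : S_STEP.{u, v, w}) (hBO : S_BO.{u, v, w}) (B : LinearMap.BilinForm F V)
    (hB : B.Nondegenerate) (hsym : B.IsSymm) (h2F : (2 : F) ≠ 0) (ρ : R →* (V ≃ₗ[F] V))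
    (hR : IsPGroup p R) (hρ : ∀ g u v, B (ρ g u) (ρ g v) = B u v)
    (A : Submodule F V) (hRA : ∀ g, ∀ a ∈ A, ρ g a ∈ A) (hA : A ⊓ B.orthogonal A = ⊥) :
    Nat.card R ^ 4 ≤ Nat.card F ^ ((finrank F A - 1) ^ 2) * Nat.card (fixSub ρ A) ^ 4 := by
  have h1 := hBO hS F V R p B ρ A hB hsym h2F hR hρ hRA
  rwa [nd_of_inf B A hA, kn_of_inf B ρ A hRA hA] at h1

theorem two_o (hS : S_STEP.{u, v, w}) (hBO : S_BO.{u, v, w}) (B : LinearMap.BilinForm F V)
    (hB : B.Nondegenerate) (hsym : B.IsSymm) (h2F : (2 : F) ≠ 0) (ρ : R →* (V ≃ₗ[F] V))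
    (hR : IsPGroup p R) (hρ : ∀ g u v, B (ρ g u) (ρ g v) = B u v)
    (A A' : Submodule F V) (hRA : ∀ g, ∀ a ∈ A, ρ g a ∈ A) (hA : A ⊓ B.orthogonal A = ⊥)
    (hRA' : ∀ g, ∀ a ∈ A', ρ g a ∈ A') (hA' : A' ⊓ B.orthogonal A' = ⊥)
    (hfix : ∀ g, (∀ a ∈ A, ρ g a = a) → (∀ a ∈ A', ρ g a = a) → g = 1) :
    Nat.card R ^ 4 ≤ Nat.card F ^ ((finrank F A - 1) ^ 2 + (finrank F A' - 1) ^ 2) := by
  have h1 := bo1 hS hBO B hB hsym h2F ρ hR hρ A hRA hA
  let ρ' : fixSub ρ A →* (V ≃ₗ[F] V) := ρ.comp (fixSub ρ A).subtype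
  have h2 := bo1 hS hBO B hB hsym h2F ρ' (hR.to_subgroup _) (fun g => hρ g.1) A'
    (fun g => hRA' g.1) hA'
  have h3 : Nat.card (fixSub ρ' A') = 1 := by
    rw [Nat.card_eq_one_iff_unique]
    refine ⟨⟨?_⟩, ⟨1⟩⟩
    have key : ∀ g : fixSub ρ' A', g = 1 := by
      intro g
      apply Subtype.ext
      apply Subtype.ext
      exact hfix g.1.1 g.1.2 g.2
    intro g h
    rw [key g, key h]
  rw [h3] at h2
  simp only [mul_one, one_pow] at h2
  calc Nat.card R ^ 4 ≤ Nat.card F ^ ((finrank F A - 1) ^ 2) * Nat.card (fixSub ρ A) ^ 4 := h1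
    _ ≤ Nat.card F ^ ((finrank F A - 1) ^ 2) * Nat.card F ^ ((finrank F A' - 1) ^ 2) :=
        Nat.mul_le_mul le_rfl h2
    _ = _ := by rw [pow_add]

end

theorem p_ox : S_OX.{u, v, w} := by
  intro hS hBG hBO hPGL hEIG F V R _ _ _ _ _ _ _ p _ _ B x ρ n m hn hV h2F hB hsym hx hR hρ hc hinj
    hm hxm hdet hx1 hxr
  have hr : B.IsRefl := hsym.isRefl
  haveI : Fintype F := Fintype.ofFinite F
  have hq : 1 < Nat.card F := Finite.one_lt_card
  have hone : (1 : F) ≠ 0 := one_ne_zero
  -- E1 and W
  obtain ⟨E1, hE1⟩ : ∃ E1, E1 = LinearMap.ker ((x : V →ₗ[F] V) - (1 : F) • LinearMap.id) := ⟨_, rfl⟩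
  have hE1m : ∀ u, u ∈ E1 ↔ x u = u := by
    intro u; rw [hE1, mem_ker_sub', one_smul]
  have hE1i : E1 ⊓ B.orthogonal E1 = ⊥ := by
    have h1 := (hEIG F V B x m 1 E1 hB hr hx hm hxm hone (by rw [inv_one, sup_idem, hE1])).1
    exact h1
  obtain ⟨W, hW⟩ : ∃ W, W = B.orthogonal E1 := ⟨_, rfl⟩
  have hE1W : E1 ⊓ W = ⊥ := by rw [hW, hE1i]
  have hWi : W ⊓ B.orthogonal W = ⊥ := by
    rw [hW, LinearMap.BilinForm.orthogonal_orthogonal hB hr, inf_comm, hE1i]
  have hsup : E1 ⊔ W = ⊤ := by
    have h5 := perp_inf hB hr E1 W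
    rw [hE1W, hW, LinearMap.BilinForm.orthogonal_orthogonal hB hr,
      LinearMap.BilinForm.orthogonal_bot] at h5
    rw [hW, sup_comm]
    exact h5.symm
  have hdim : finrank F W + finrank F E1 = 2 * n + 1 := by
    rw [hW, ← hV]; exact finrank_perp hB E1
  have hRE1 : ∀ g, ∀ a ∈ E1, ρ g a ∈ E1 := by
    intro g a ha
    rw [hE1m] at ha ⊢
    rw [← hc, ha]
  have hRW : ∀ g, ∀ a ∈ W, ρ g a ∈ W := by
    rw [hW]
    exact fun g => perp_inv (ρ g) (hρ g) E1 (hRE1 g)
  have hxE1 : ∀ a ∈ E1, x a ∈ E1 := by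
    intro a ha
    rw [(hE1m a).1 ha]; exact ha
  have hxW : ∀ a ∈ W, x a ∈ W := by
    rw [hW]
    exact perp_inv x hx E1 hxE1
  have hnoone : ∀ a ∈ W, x a = a → a = 0 := by
    intro a ha h
    have h1 : a ∈ E1 ⊓ W := ⟨(hE1m a).2 h, ha⟩
    rwa [hE1W, Submodule.mem_bot] at h1
  -- parity
  have hWev : Even (finrank F W) := by
    have he : W ≤ W.comap (x : V →ₗ[F] V) := fun a ha => hxW a ha
    have h1 := LinearMap.det_eq_det_mul_det W (x : V →ₗ[F] V) he
    have h2 : W.mapQ W (x : V →ₗ[F] V) he = LinearMap.id := by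
      ext v
      show W.mkQ (x v) = W.mkQ v
      have hv : v ∈ E1 ⊔ W := by rw [hsup]; trivial
      obtain ⟨e, he', w, hw, rfl⟩ := Submodule.mem_sup.1 hv
      rw [Submodule.mkQ_apply, Submodule.mkQ_apply, Submodule.Quotient.eq, map_add,
        (hE1m e).1 he']
      have : e + x w - (e + w) = x w - w := by abel
      rw [this]
      exact W.sub_mem (hxW w hw) hw
    rw [hdet, h2, LinearMap.det_id, mul_one] at h1
    have h3 := det_of_no_one (B.restrict W)
      (LinearMap.BilinForm.nondegenerate_restrict_of_disjoint_orthogonal B hr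
        (disjoint_iff.2 hWi)) ((x : V →ₗ[F] V).restrict he)
      (fun u v => hx u.1 v.1)
      (fun v hv => Subtype.ext (hnoone v.1 v.2 (congrArg Subtype.val hv)))
    rw [← h1] at h3
    by_contra hodd
    rw [Nat.not_even_iff_odd] at hodd
    rw [hodd.neg_one_pow] at h3
    apply h2F
    linear_combination h3
  have hWne : W ≠ ⊥ := by
    intro h
    obtain ⟨v, hv⟩ := hx1
    apply hv
    rw [← hE1m]
    rw [h, sup_bot_eq] at hsup
    rw [hsup]; trivial
  have hN2 : 2 ≤ finrank F W := by
    obtain ⟨k, hk⟩ := hWev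
    have h1 : finrank F W ≠ 0 := by
      intro h
      exact hWne (Submodule.finrank_eq_zero.1 h)
    omega
  by_cases hN1 : 2 ≤ finrank F E1
  · -- N1 ≥ 2
    have h1 := two_o hS hBO B hB hsym h2F ρ hR hρ E1 W hRE1 hE1i hRW hWi (by
      intro g h1 h2
      apply fix_top ρ hinj
      intro v
      have hv : v ∈ E1 ⊔ W := by rw [hsup]; trivial
      obtain ⟨e, he', w, hw, rfl⟩ := Submodule.mem_sup.1 hv
      rw [map_add, h1 e he', h2 w hw])
    apply fin_bound _ _ n _ 4 hq (by norm_num) h1
    obtain ⟨a, ha⟩ : ∃ a, finrank F E1 = a + 2 := ⟨finrank F E1 - 2, by omega⟩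
    obtain ⟨b, hb⟩ : ∃ b, finrank F W = b + 2 := ⟨finrank F W - 2, by omega⟩
    rw [ha, hb]
    have e1 : a + 2 - 1 = a + 1 := by omega
    have e2 : b + 2 - 1 = b + 1 := by omega
    rw [e1, e2]
    have h5 : a + b + 3 = 2 * n := by omega
    nlinarith [Nat.zero_le (a * b)]
  · -- N1 = 1
    have hN1' : finrank F E1 = 1 := by
      obtain ⟨k, hk⟩ := hWev
      omega
    have hNW : finrank F W = 2 * n := by omega
    -- the subgroup fixing E1
    obtain ⟨R1, hR1⟩ : ∃ R1, R1 = fixSub ρ E1 := ⟨_, rfl⟩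
    have hcard : Nat.card R ≤ Nat.card R1 := by
      have h1 := bo1 hS hBO B hB hsym h2F ρ hR hρ E1 hRE1 hE1i
      rw [hN1'] at h1
      norm_num at h1
      rw [hR1]
      exact (Nat.pow_le_pow_iff_left (by norm_num)).1 h1
    let ρ1 : R1 →* (V ≃ₗ[F] V) := ρ.comp R1.subtype
    have hρ1 : ∀ g, ρ1 g = ρ g.1 := fun g => rfl
    have hinj1 : Function.Injective ρ1 := hinj.comp R1.subtype_injective
    have hfix1 : ∀ g : R1, ∀ a ∈ E1, ρ1 g a = a := by
      intro g a ha
      have h1 : g.1 ∈ fixSub ρ E1 := by rw [← hR1]; exact g.2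
      exact h1 a ha
    have hpR1 : IsPGroup p R1 := hR.to_subgroup _
    suffices hgoal : Nat.card R1 * Nat.card F ^ n < Nat.card F ^ (n ^ 2) from
      lt_of_le_of_lt (Nat.mul_le_mul hcard le_rfl) hgoal
    -- decomposition of W
    have hdec : ∀ A : Submodule F V, A ≤ W → (∀ g, ∀ a ∈ A, ρ g a ∈ A) →
        A ⊓ B.orthogonal A = ⊥ → A ≠ ⊥ → A ≠ W →
        Nat.card R1 * Nat.card F ^ n < Nat.card F ^ (n ^ 2) := by
      intro A hAW hRA hA hbot hneW
      obtain ⟨A', hA'⟩ : ∃ A', A' = B.orthogonal (A ⊔ E1) := ⟨_, rfl⟩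
      have hAE : A ⊓ E1 = ⊥ := by
        rw [Submodule.eq_bot_iff]
        rintro a ⟨h1, h2⟩
        have h3 : a ∈ E1 ⊓ W := ⟨h2, hAW h1⟩
        rwa [hE1W, Submodule.mem_bot] at h3
      have hAE2 : (A ⊔ E1) ⊓ B.orthogonal (A ⊔ E1) = ⊥ := by
        rw [Submodule.eq_bot_iff, perp_sup]
        rintro z ⟨h1, h2, h3⟩
        obtain ⟨a, ha, e, he, rfl⟩ := Submodule.mem_sup.1 h1
        have h4 : a ∈ A ⊓ B.orthogonal A := by
          refine ⟨ha, ?_⟩
          intro b hb
          have h5 : B b (a + e) = 0 := h2 b hb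
          have h6 : B b e = 0 := by
            have h7 : b ∈ B.orthogonal E1 := by rw [← hW]; exact hAW hb
            exact hr _ _ (h7 e he)
          rw [map_add, h6, add_zero] at h5
          exact h5
        rw [hA, Submodule.mem_bot] at h4
        have h5 : e ∈ E1 ⊓ B.orthogonal E1 := by
          refine ⟨he, ?_⟩
          intro b hb
          have h6 : B b (a + e) = 0 := h3 b hb
          rw [h4, zero_add] at h6
          exact h6
        rw [hE1i, Submodule.mem_bot] at h5
        rw [h4, h5, add_zero]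
      have hA'i : A' ⊓ B.orthogonal A' = ⊥ := by
        rw [hA', LinearMap.BilinForm.orthogonal_orthogonal hB hr, inf_comm, hAE2]
      have hRAE : ∀ g, ∀ a ∈ A ⊔ E1, ρ g a ∈ A ⊔ E1 := by
        intro g a ha
        obtain ⟨y, hy, z, hz, rfl⟩ := Submodule.mem_sup.1 ha
        rw [map_add]
        exact Submodule.add_mem _ (Submodule.mem_sup_left (hRA g y hy))
          (Submodule.mem_sup_right (hRE1 g z hz))
      have hRA' : ∀ g, ∀ a ∈ A', ρ g a ∈ A' := by
        rw [hA']
        exact fun g => perp_inv (ρ g) (hρ g) _ (hRAE g)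
      have htop : (A ⊔ E1) ⊔ A' = ⊤ := by
        have h5 := perp_inf hB hr (A ⊔ E1) A'
        rw [hA', hAE2, LinearMap.BilinForm.orthogonal_orthogonal hB hr,
          LinearMap.BilinForm.orthogonal_bot] at h5
        rw [hA', sup_comm]
        exact h5.symm
      have h1 := two_o hS hBO B hB hsym h2F ρ1 hpR1 (fun g => hρ g.1) A A' (fun g => hRA g.1) hA
        (fun g => hRA' g.1) hA'i (by
        intro g h1 h2
        apply fix_top ρ1 hinj1
        intro v
        have hv : v ∈ (A ⊔ E1) ⊔ A' := by rw [htop]; trivial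
        obtain ⟨y, hy, z, hz, rfl⟩ := Submodule.mem_sup.1 hv
        obtain ⟨a, ha, e, he, rfl⟩ := Submodule.mem_sup.1 hy
        rw [map_add, map_add, h1 a ha, hfix1 g e he, h2 z hz])
      have hd1 : finrank F A' + finrank F (A ⊔ E1 : Submodule F V) = 2 * n + 1 := by
        rw [hA', ← hV]; exact finrank_perp hB _
      have hd2 := Submodule.finrank_sup_add_finrank_inf_eq A E1
      rw [hAE, finrank_bot, add_zero] at hd2
      have hd3 : finrank F A < finrank F W := by
        apply Submodule.finrank_lt_finrank_of_lt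
        exact lt_of_le_of_ne hAW hneW
      have hd4 : finrank F A ≠ 0 := by
        intro h
        exact hbot (Submodule.finrank_eq_zero.1 h)
      apply fin_bound _ _ n _ 4 hq (by norm_num) h1
      obtain ⟨a, ha⟩ : ∃ a, finrank F A = a + 1 := ⟨finrank F A - 1, by omega⟩
      obtain ⟨b, hb⟩ : ∃ b, finrank F A' = b + 1 := ⟨finrank F A' - 1, by omega⟩
      rw [ha, hb]
      have e1 : a + 1 - 1 = a := by omega
      have e2 : b + 1 - 1 = b := by omega
      rw [e1, e2]
      have h5 : a + b + 2 = 2 * n := by omega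
      nlinarith [Nat.zero_le (a * b)]
    by_cases hev : ∃ (c : F) (v : V), v ∈ W ∧ v ≠ 0 ∧ x v = c • v
    · obtain ⟨c, v, hvW, hv, hxv⟩ := hev
      have hc0 : c ≠ 0 := by
        intro h
        rw [h, zero_smul] at hxv
        exact hv (x.map_eq_zero_iff.1 hxv)
      have hc1 : c ≠ 1 := by
        intro h
        rw [h, one_smul] at hxv
        exact hv (hnoone v hvW hxv)
      have hci1 : c⁻¹ ≠ 1 := by
        intro h
        exact hc1 (inv_eq_one.1 h)
      obtain ⟨E, hE⟩ : ∃ E, E = LinearMap.ker ((x : V →ₗ[F] V) - c • LinearMap.id) := ⟨_, rfl⟩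
      obtain ⟨E', hE'⟩ : ∃ E', E' = LinearMap.ker ((x : V →ₗ[F] V) - c⁻¹ • LinearMap.id) :=
        ⟨_, rfl⟩
      have hEm : ∀ u, u ∈ E ↔ x u = c • u := by intro u; rw [hE]; exact mem_ker_sub' x c u
      have hEm' : ∀ u, u ∈ E' ↔ x u = c⁻¹ • u := by intro u; rw [hE']; exact mem_ker_sub' x _ u
      have hRE : ∀ g, ∀ a ∈ E, ρ g a ∈ E := by
        intro g a ha
        rw [hEm] at ha ⊢
        rw [← hc, ha, map_smul]
      have hRE' : ∀ g, ∀ a ∈ E', ρ g a ∈ E' := by
        intro g a ha
        rw [hEm'] at ha ⊢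
        rw [← hc, ha, map_smul]
      have hEW : E ≤ W := by
        intro a ha
        rw [hW]
        intro b hb
        apply eig_orth' B x hx 1 c (by rw [one_mul]; exact hc1) b a
        · rw [one_smul]; exact (hE1m b).1 hb
        · exact (hEm a).1 ha
      have hEW' : E' ≤ W := by
        intro a ha
        rw [hW]
        intro b hb
        apply eig_orth' B x hx 1 c⁻¹ (by rw [one_mul]; exact hci1) b a
        · rw [one_smul]; exact (hE1m b).1 hb
        · exact (hEm' a).1 ha
      obtain ⟨A, hA⟩ : ∃ A, A = E ⊔ E' := ⟨_, rfl⟩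
      have hAW : A ≤ W := by rw [hA]; exact sup_le hEW hEW'
      obtain ⟨h1, h2⟩ := hEIG F V B x m c A hB hr hx hm hxm hc0 (by rw [hA, hE, hE'])
      have hRA : ∀ g, ∀ a ∈ A, ρ g a ∈ A := by
        intro g a ha
        rw [hA] at ha ⊢
        obtain ⟨y, hy, z, hz, rfl⟩ := Submodule.mem_sup.1 ha
        rw [map_add]
        exact Submodule.add_mem _ (Submodule.mem_sup_left (hRE g y hy))
          (Submodule.mem_sup_right (hRE' g z hz))
      by_cases htop : A = W
      · by_cases hcc : c = c⁻¹
        · exfalso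
          have hc2 : (c - 1) * (c + 1) = 0 := by
            have : c * c = 1 := by
              conv_lhs => rw [hcc]
              rw [← hcc]
              conv_lhs => arg 2; rw [hcc]
              exact mul_inv_cancel₀ hc0
            linear_combination this
          have hcm : c = -1 := by
            rcases mul_eq_zero.1 hc2 with h | h
            · exact absurd (sub_eq_zero.1 h) hc1
            · exact eq_neg_of_add_eq_zero_left h
          have hall : ∀ u ∈ W, x u = -u := by
            intro u hu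
            rw [← htop, hA] at hu
            obtain ⟨y, hy, z, hz, rfl⟩ := Submodule.mem_sup.1 hu
            rw [hEm, hcm, neg_one_smul] at hy
            rw [hEm', ← hcc, hcm, neg_one_smul] at hz
            rw [map_add, hy, hz]
            abel
          -- E1 is spanned by e
          have hE1ne : E1 ≠ ⊥ := by
            intro h
            rw [h, finrank_bot] at hN1'
            exact absurd hN1' (by norm_num)
          obtain ⟨e, he, he0⟩ := (Submodule.ne_bot_iff E1).1 hE1ne
          have hspan : (F ∙ e) = E1 := by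
            apply Submodule.eq_of_le_of_finrank_le
            · rw [Submodule.span_singleton_le_iff_mem]; exact he
            · rw [finrank_span_singleton he0, hN1']
          have hee : B e e ≠ 0 := by
            intro h
            have h3 : e ∈ E1 ⊓ B.orthogonal E1 := by
              refine ⟨he, ?_⟩
              intro y hy
              rw [← hspan] at hy
              obtain ⟨t, rfl⟩ := Submodule.mem_span_singleton.1 hy
              show B (t • e) e = 0
              rw [map_smul, LinearMap.smul_apply, h, smul_zero]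
            rw [hE1i, Submodule.mem_bot] at h3
            exact he0 h3
          obtain ⟨u, hu⟩ := hxr e hee
          apply hu
          have hu2 : u ∈ E1 ⊔ W := by rw [hsup]; trivial
          obtain ⟨y, hy, w, hw, rfl⟩ := Submodule.mem_sup.1 hu2
          have hwe : B w e = 0 := by
            rw [hW] at hw
            exact hr _ _ (hw e he)
          rw [map_add, (hE1m y).1 hy, hall w hw]
          rw [← hspan] at hy
          obtain ⟨t, rfl⟩ := Submodule.mem_span_singleton.1 hy
          have h4 : B (t • e + w) e = t * B e e := by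
            rw [map_add, LinearMap.add_apply, hwe, map_smul, LinearMap.smul_apply, smul_eq_mul,
              add_zero]
          have h5 : 2 * B (t • e + w) e / B e e = 2 * t := by
            rw [h4]
            field_simp
          rw [h5]
          module
        · have hiE : ∀ u ∈ E, ∀ v ∈ E, B u v = 0 := by
            intro u hu v hv
            exact h2 hcc u v ((hEm u).1 hu) ((hEm v).1 hv)
          have hiE' : ∀ u ∈ E', ∀ v ∈ E', B u v = 0 := by
            intro u hu v hv
            rw [hEm'] at hu hv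
            apply eig_orth' B x hx c⁻¹ c⁻¹ _ u v hu hv
            intro h
            apply hcc
            have : c * (c⁻¹ * c⁻¹) = c := by rw [h, mul_one]
            rw [← mul_assoc, mul_inv_cancel₀ hc0, one_mul] at this
            exact this.symm
          have hd1 := iso_dim B hB E hiE
          have hd2 := iso_dim B hB E' hiE'
          have hd3 : 2 * n ≤ finrank F E + finrank F E' := by
            have := Submodule.finrank_add_le_finrank_add_finrank E E'
            rw [← hA, htop, hNW] at this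
            exact this
          have hEn : finrank F E = n := by omega
          have hb := iso_bound hPGL B hB ρ1 hpR1 (fun g => hρ g.1) E E' (fun g => hRE g.1)
            (fun g => hRE' g.1) hiE' E1 hfix1
            (by
              intro u hu v hv
              have h3 := hEW' hv
              rw [hW] at h3
              exact h3 u hu)
            hinj1 (by rw [← hA, htop, hsup])
          rw [hEn] at hb
          apply fin_bound _ _ n _ 1 hq (by norm_num) (by rw [pow_one]; exact hb)
          obtain ⟨k, rfl⟩ : ∃ k, n = k + 1 := ⟨n - 1, by omega⟩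
          have h4 : (k + 1) * (k + 1 - 1) / 2 * 2 ≤ (k + 1) * (k + 1 - 1) :=
            Nat.div_mul_le_self _ _
          have e1 : k + 1 - 1 = k := by omega
          rw [e1] at h4 ⊢
          nlinarith
      · apply hdec A hAW hRA h1 _ htop
        intro h
        apply hv
        have : v ∈ A := by
          rw [hA]
          exact Submodule.mem_sup_left ((hEm v).2 hxv)
        rw [h, Submodule.mem_bot] at this
        exact this
    · push Not at hev
      have hno : ∀ (c : F) (v : V), v ∈ W → x v = c • v → v = 0 := by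
        intro c v hvW h
        by_contra hv
        exact hev c v hvW hv h
      have h1 := hBG hS F V R1 p B x ρ1 2 W hB hr hx hpR1 (fun g => hρ g.1) (fun g => hc g.1)
        (fun A0 U h1 h2 h3 h4 => dim2 x W hno A0 U h1 h2 h3 h4) hxW (fun g => hRW g.1)
      rw [nd_of_inf B W hWi, kn_of_inf B ρ1 W (fun g => hRW g.1) hWi, hNW] at h1
      have h3 : Nat.card (fixSub ρ1 W) = 1 := by
        rw [Nat.card_eq_one_iff_unique]
        refine ⟨⟨?_⟩, ⟨1⟩⟩
        have key : ∀ g : fixSub ρ1 W, g = 1 := by
          intro g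
          apply Subtype.ext
          apply fix_top ρ1 hinj1
          intro v
          have hv : v ∈ E1 ⊔ W := by rw [hsup]; trivial
          obtain ⟨e, he', w, hw, rfl⟩ := Submodule.mem_sup.1 hv
          rw [map_add, hfix1 g.1 e he']
          have h5 : ρ1 g.1 w = w := g.2 w hw
          rw [h5]
        intro g h
        rw [key g, key h]
      rw [h3, one_pow, mul_one] at h1
      apply fin_bound _ _ n _ 8 hq (by norm_num) h1
      nlinarith

end Pool.Agent.Helper79.PS
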