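import Pool.Agent.Helper79.PS.Bounds
import Pool.Agent.Helper79.PS.Eig
import Pool.Agent.Helper79.PS.Cls
import Pool.Agent.Helper79.PS.Gl
import Pool.Agent.Helper79.PS.Ox
import Pool.Agent.Helper79.PS.Nv
import Pool.Agent.Helper79.PS.Oc
import Pool.Agent.Helper3.RS.FROB
import Pool.Agent.Helper59.RS.FROB2
import Pool.Agent.Helper22.RS.MUEQ
import Pool.Agent.Helper24.RS.QUO

/-!
Main theorem of project PS.
-/

open Module Matrix

namespace Pool.Agent.Helper79.PS

open Pool.Agent.Helper10.RS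

universe u

theorem neg1_card (F : Type u) [Field F] (n : ℕ) (h2F : (2 : F) ≠ 0) (hn : 1 ≤ n) :
    Nat.card (Subgroup.zpowers (neg1 n F)) = 2 := by
  rw [Nat.card_zpowers, orderOf_eq_prime_iff]
  refine ⟨?_, ?_⟩
  · apply Subtype.ext
    show ((-1 : Matrix (Fin n ⊕ Fin n) (Fin n ⊕ Fin n) F)) ^ 2 = 1
    simp
  · intro h
    have h1 : (-1 : Matrix (Fin n ⊕ Fin n) (Fin n ⊕ Fin n) F) = 1 := congrArg Subtype.val h
    have h2 := congrFun (congrFun h1 (Sum.inl ⟨0, by omega⟩)) (Sum.inl ⟨0, by omega⟩)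
    rw [Matrix.neg_apply, Matrix.one_apply_eq] at h2
    apply h2F
    linear_combination -h2

theorem p_main : MAIN.{u} := by
  intro F _ _ n h2F hn heq
  classical
  haveI := Fintype.ofFinite F
  obtain ⟨p, hpF⟩ := CharP.exists F
  haveI : Fact p.Prime := ⟨CharP.char_is_prime F p⟩
  have hp : p.Prime := Fact.out
  have hp2 : p ≠ 2 := by
    rintro rfl
    apply h2F
    have := CharP.cast_eq_zero F 2
    exact_mod_cast this
  haveI : Finite (Matrix.symplecticGroup (Fin n) F) := Subtype.finite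
  haveI : Finite (Matrix.orthogonalGroup (Fin (2 * n + 1)) F) := Subtype.finite
  obtain ⟨hcard, hreg⟩ := Pool.Agent.Helper22.RS.p_mueq.{u, u}
    (fun G _ _ p hp => ⟨Pool.Agent.Helper3.RS.p_frob G p hp, Pool.Agent.Helper59.RS.p_frob2 G p hp⟩)
    (fun G _ _ p hp => ⟨Pool.Agent.Helper3.RS.p_frob G p hp, Pool.Agent.Helper59.RS.p_frob2 G p hp⟩)
    _ _ heq
  have hZ := neg1_card F n h2F (by omega)
  -- regular elements of the quotient
  obtain ⟨-, hquo, -⟩ := Pool.Agent.Helper24.RS.p_quo (Matrix.symplecticGroup (Fin n) F)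
    (Subgroup.zpowers (neg1 n F)) p hp
  have hq1 := hquo (by
    rw [hZ]
    intro h
    exact hp2 ((Nat.prime_dvd_prime_iff_eq hp Nat.prime_two).1 h))
  have hcq := Subgroup.card_eq_card_quotient_mul_card_subgroup (Subgroup.zpowers (neg1 n F))
  rw [hZ] at hcq
  have hposq : 0 < Nat.card (Matrix.symplecticGroup (Fin n) F ⧸ Subgroup.zpowers (neg1 n F)) :=
    Nat.card_pos
  have hregq : reg (Matrix.symplecticGroup (Fin n) F) p =
      reg (Matrix.symplecticGroup (Fin n) F ⧸ Subgroup.zpowers (neg1 n F)) p * 2 := by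
    rw [hcq] at hq1
    apply Nat.eq_of_mul_eq_mul_right hposq
    rw [hq1]
    ring
  obtain ⟨k1, hk1⟩ := p_spc.{u} p_cls p_spl (p_spx.{u, u, u} p_step p_bg p_pgl p_eig) F p n hn h2F
  -- the order of Ω
  have hdvd : Nat.card F ^ (n ^ 2) ∣
      Nat.card (commutator (Matrix.orthogonalGroup (Fin (2 * n + 1)) F)) := by
    rw [← hcard]
    have h1 := p_spl.{u} F n
    rw [hcq] at h1
    have h2 : Nat.Coprime (Nat.card F ^ (n ^ 2)) 2 := by
      obtain ⟨f, -, hf⟩ := FiniteField.card F p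
      rw [Nat.card_eq_fintype_card, hf]
      apply Nat.Coprime.pow_left
      apply Nat.Coprime.pow_left
      rw [Nat.coprime_primes hp Nat.prime_two]
      exact hp2
    exact h2.dvd_of_dvd_mul_right h1
  obtain ⟨k2, hk2⟩ := p_oc.{u} p_cls (p_ome.{u} p_nv)
    (p_ox.{u, u, u} p_step p_bg p_bo p_pgl p_eig) F p n hn h2F hdvd
  have hr := hreg p hp
  obtain ⟨e, he, hnv⟩ := p_nv.{u} F h2F
  have h1 := ((hnv n 1 one_ne_zero).2.1 ⟨1, (mul_one 1).symm⟩)
  -- compare
  have h3 : (2 + nv F (2 * n + 1) 1 + 2 * (p * Nat.card F ^ n * k2) : ℤ) =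
      2 + p * Nat.card F ^ n * k1 := by
    have h4 : 2 + nv F (2 * n + 1) 1 + 2 * (p * Nat.card F ^ n * k2) =
        2 + p * Nat.card F ^ n * k1 := by
      rw [← hk2, ← hr, ← hk1, hregq]
      ring
    exact_mod_cast h4
  rw [h1] at h3
  have hqn : (Nat.card F : ℤ) ^ n ≠ 0 := by
    have : (0 : ℤ) < Nat.card F := by exact_mod_cast Nat.card_pos
    positivity
  have h5 : (Nat.card F : ℤ) ^ n + e ^ n = p * (k1 - 2 * k2) := by
    apply mul_left_cancel₀ hqn
    have e2 : (Nat.card F : ℤ) ^ (2 * n) = (Nat.card F : ℤ) ^ n * (Nat.card F : ℤ) ^ n := by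
      rw [← pow_add]
      congr 1
      omega
    rw [e2] at h3
    linear_combination h3
  have h6 : (p : ℤ) ∣ (Nat.card F : ℤ) ^ n := by
    have h7 : p ∣ Nat.card F ^ n := by
      obtain ⟨f, -, hf⟩ := FiniteField.card F p
      rw [Nat.card_eq_fintype_card, hf, ← pow_mul]
      exact dvd_pow_self p (by have := f.pos; positivity)
    exact_mod_cast h7
  have h7 : (p : ℤ) ∣ e ^ n := by
    have h8 : (p : ℤ) ∣ (Nat.card F : ℤ) ^ n + e ^ n := ⟨_, h5⟩
    exact (dvd_add_right h6).1 h8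
  have h9 : IsUnit (e ^ n) := by
    apply IsUnit.pow
    rcases he with h | h
    · rw [h]; exact isUnit_one
    · rw [h]; exact isUnit_one.neg
  have h10 : IsUnit (p : ℤ) := isUnit_of_dvd_unit h7 h9
  have h11 := Int.isUnit_iff.1 h10
  have := hp.one_lt
  omega

end Pool.Agent.Helper79.PS
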