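import Pool.Agent.Helper79.PS.Goals

/-!
Goal SPC of project PS.
-/

open Module Matrix

namespace Pool.Agent.Helper79.PS

open Pool.Agent.Helper10.RS

universe u

section
variable {F : Type u} [Field F] {ι : Type} [Fintype ι] [DecidableEq ι]

/-- action of a group of matrices on vectors -/
def matHom {G : Type u} [Group G] (f : G →* Matrix ι ι F) : G →* ((ι → F) ≃ₗ[F] (ι → F)) where
  toFun g := LinearEquiv.ofLinear (Matrix.toLin' (f g)) (Matrix.toLin' (f g⁻¹))
    (by rw [← Matrix.toLin'_mul, ← map_mul, mul_inv_cancel, map_one, Matrix.toLin'_one])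
    (by rw [← Matrix.toLin'_mul, ← map_mul, inv_mul_cancel, map_one, Matrix.toLin'_one])
  map_one' := by
    apply LinearEquiv.toLinearMap_injective
    show Matrix.toLin' (f 1) = _
    rw [map_one, Matrix.toLin'_one]
    rfl
  map_mul' g h := by
    apply LinearEquiv.toLinearMap_injective
    show Matrix.toLin' (f (g * h)) = _
    rw [map_mul, Matrix.toLin'_mul]
    rfl

theorem matHom_apply {G : Type u} [Group G] (f : G →* Matrix ι ι F) (g : G) (v : ι → F) :
    matHom f g v = f g *ᵥ v := rfl

theorem matHom_toLin {G : Type u} [Group G] (f : G →* Matrix ι ι F) (g : G) :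
    ((matHom f g : (ι → F) ≃ₗ[F] (ι → F)) : (ι → F) →ₗ[F] (ι → F)) = Matrix.toLin' (f g) := rfl

theorem matHom_inj {G : Type u} [Group G] (f : G →* Matrix ι ι F) (hf : Function.Injective f) :
    Function.Injective (matHom f) := by
  intro g h hgh
  apply hf
  have h1 := congrArg (fun e : (ι → F) ≃ₗ[F] (ι → F) => (e : (ι → F) →ₗ[F] (ι → F))) hgh
  simp only [matHom_toLin] at h1
  exact Matrix.toLin'.injective h1

theorem matHom_isom {G : Type u} [Group G] (f : G →* Matrix ι ι F) (J : Matrix ι ι F)
    (hJ : ∀ g, (f g)ᵀ * J * f g = J) (g : G) (u v : ι → F) :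
    Matrix.toBilin' J (matHom f g u) (matHom f g v) = Matrix.toBilin' J u v := by
  have h1 := Matrix.toBilin'_comp J (f g) (f g)
  rw [hJ] at h1
  exact congrArg (fun b : LinearMap.BilinForm F (ι → F) => b u v) h1

end

/-- the inclusion -/
def spInc (n : ℕ) (F : Type u) [Field F] :
    Matrix.symplecticGroup (Fin n) F →* Matrix (Fin n ⊕ Fin n) (Fin n ⊕ Fin n) F :=
  (Matrix.symplecticGroup (Fin n) F).subtype

theorem not_dvd_cast (F : Type u) [Field F] (p : ℕ) [CharP F p] (m : ℕ) (h : ¬ p ∣ m) :
    (m : F) ≠ 0 := by
  intro h1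
  exact h ((CharP.cast_eq_zero_iff F p m).1 h1)

theorem p_spc : S_SPC.{u} := by
  intro hCLS hSPL hX F _ _ p n _ _ hn h2F
  classical
  haveI := Fintype.ofFinite F
  have hp : p.Prime := Fact.out
  obtain ⟨f, -, hf⟩ := FiniteField.card F p
  rw [← Nat.card_eq_fintype_card] at hf
  let G := Matrix.symplecticGroup (Fin n) F
  haveI : Finite G := Subtype.finite
  let Y : Set G := {g | ¬ p ∣ orderOf g ∧ g ≠ 1 ∧ g ≠ neg1 n F}
  have hneg : ∀ g : G, g * neg1 n F = neg1 n F * g := by
    intro g
    apply Subtype.ext
    simp [neg1]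
  -- the form
  obtain ⟨B, hB⟩ : ∃ B, B = Matrix.toBilin' (Matrix.J (Fin n) F) := ⟨_, rfl⟩
  have hdet : (Matrix.J (Fin n) F).det ≠ 0 := by
    intro h
    have := Matrix.J_det_mul_J_det (Fin n) F
    rw [h, mul_zero] at this
    exact zero_ne_one this
  have hnd : B.Nondegenerate := by
    rw [hB]
    exact LinearMap.BilinForm.nondegenerate_toBilin'_of_det_ne_zero' _ hdet
  have halt : B.IsAlt := by
    intro v
    have h1 : B v v = - B v v := by
      rw [hB, Matrix.toBilin'_apply']
      conv_lhs => rw [dotProduct_comm, ← Matrix.vecMul_transpose, Matrix.J_transpose,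
        ← Matrix.dotProduct_mulVec]
      rw [Matrix.neg_mulVec, dotProduct_neg]
    have h2 : (2 : F) * B v v = 0 := by linear_combination h1
    rcases mul_eq_zero.1 h2 with h | h
    · exact absurd h h2F
    · exact h
  have hinc : Function.Injective (spInc n F) := Subtype.val_injective
  have hJ : ∀ g : G, (spInc n F g)ᵀ * Matrix.J (Fin n) F * spInc n F g = Matrix.J (Fin n) F :=
    fun g => SymplecticGroup.mem_iff'.1 g.2
  have hY : p ^ ((f : ℕ) * n + 1) ∣ Nat.card Y := by
    apply hCLS G p ((f : ℕ) * n ^ 2) ((f : ℕ) * n) Y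
    · have := hSPL F n
      rw [hf, ← pow_mul] at this
      exact this
    · intro g y hy
      obtain ⟨h1, h2, h3⟩ := hy
      refine ⟨?_, ?_, ?_⟩
      · have : orderOf (g * y * g⁻¹) = orderOf y := by
          have := orderOf_injective (MulAut.conj g).toMonoidHom (MulAut.conj g).injective y
          simpa using this
        rw [this]
        exact h1
      · intro h
        apply h2
        have := mul_inv_eq_iff_eq_mul.1 h
        rw [one_mul] at this
        exact mul_left_cancel (this.trans (mul_one g).symm)
      · intro h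
        apply h3
        have := mul_inv_eq_iff_eq_mul.1 h
        rw [← hneg] at this
        exact mul_left_cancel this
    · intro y hy R hR hRy
      obtain ⟨h1, h2, h3⟩ := hy
      have hmain := hX F (Fin n ⊕ Fin n → F) R p B (matHom (spInc n F) y)
        ((matHom (spInc n F)).comp R.subtype) n (orderOf y) hn
        (by rw [Module.finrank_fintype_fun_eq_card, Fintype.card_sum, Fintype.card_fin]; ring)
        h2F hnd halt (by rw [hB]; exact matHom_isom _ _ hJ y) hR
        (by rw [hB]; exact fun g => matHom_isom _ _ hJ g.1)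
        (by
          intro g u
          have h4 := hRy g.1 g.2
          have h5 : matHom (spInc n F) g.1 * matHom (spInc n F) y =
              matHom (spInc n F) y * matHom (spInc n F) g.1 := by
            rw [← map_mul, ← map_mul, h4]
          exact congrArg (fun e : (Fin n ⊕ Fin n → F) ≃ₗ[F] (Fin n ⊕ Fin n → F) => e u) h5)
        ((matHom_inj _ hinc).comp R.subtype_injective)
        (not_dvd_cast F p _ h1)
        (by
          intro v
          rw [← map_pow, pow_orderOf_eq_one, map_one]
          rfl)
        (by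
          by_contra hcon
          push Not at hcon
          apply h2
          apply matHom_inj _ hinc
          rw [map_one]
          ext v
          rw [hcon]
          rfl)
        (by
          by_contra hcon
          push Not at hcon
          apply h3
          apply matHom_inj _ hinc
          apply LinearEquiv.ext
          intro v
          rw [hcon v, matHom_apply]
          show -v = (-1 : Matrix (Fin n ⊕ Fin n) (Fin n ⊕ Fin n) F) *ᵥ v
          rw [Matrix.neg_mulVec, Matrix.one_mulVec])
      rw [hf, ← pow_mul, ← pow_mul] at hmain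
      exact hmain
  -- counting
  have hone : (1 : G) ≠ neg1 n F := by
    intro h
    have h1 : (1 : Matrix (Fin n ⊕ Fin n) (Fin n ⊕ Fin n) F) = -1 := congrArg Subtype.val h
    have h2 := congrFun (congrFun h1 (Sum.inl ⟨0, by omega⟩)) (Sum.inl ⟨0, by omega⟩)
    rw [Matrix.neg_apply, Matrix.one_apply_eq] at h2
    apply h2F
    linear_combination h2
  have hneg2 : orderOf (neg1 n F) = 2 := by
    rw [orderOf_eq_prime_iff]
    refine ⟨?_, hone.symm⟩
    apply Subtype.ext
    show ((-1 : Matrix (Fin n ⊕ Fin n) (Fin n ⊕ Fin n) F)) ^ 2 = 1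
    simp
  have hp2 : p ≠ 2 := by
    rintro rfl
    apply h2F
    have := CharP.cast_eq_zero F 2
    exact_mod_cast this
  have hset : {g : G | ¬ p ∣ orderOf g} = insert 1 (insert (neg1 n F) Y) := by
    ext g
    simp only [Set.mem_insert_iff, Set.mem_setOf_eq, Y]
    constructor
    · intro h
      by_cases h1 : g = 1
      · left; exact h1
      · by_cases h2 : g = neg1 n F
        · right; left; exact h2
        · right; right; exact ⟨h, h1, h2⟩
    · rintro (rfl | rfl | h)
      · rw [orderOf_one]
        intro h
        exact hp.one_lt.ne' (Nat.dvd_one.1 h)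
      · rw [hneg2]
        intro h
        exact hp2 ((Nat.prime_dvd_prime_iff_eq hp Nat.prime_two).1 h)
      · exact h.1
  have hcount : reg G p = 2 + Nat.card Y := by
    have h1 : reg G p = {g : G | ¬ p ∣ orderOf g}.ncard := rfl
    have h2 : neg1 n F ∉ Y := fun h => h.2.2 rfl
    have h3 : (1 : G) ∉ insert (neg1 n F) Y := by
      intro h
      rcases h with h | h
      · exact hone h
      · exact h.2.1 rfl
    rw [h1, hset, Set.ncard_insert_of_notMem h3 (Set.toFinite _),
      Set.ncard_insert_of_notMem h2 (Set.toFinite _)]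
    rw [← Nat.card_coe_set_eq]
    ring
  obtain ⟨k, hk⟩ := hY
  refine ⟨k, ?_⟩
  rw [hcount, hk, hf, ← pow_mul, pow_succ]
  ring

end Pool.Agent.Helper79.PS
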