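import Pool.Agent.Helper79.PS.Common

/-!
Goal SPX of project PS.
-/

open Module

namespace Pool.Agent.Helper79.PS

universe u v w

theorem iso_dim {F : Type u} {V : Type v} [Field F] [AddCommGroup V] [Module F V]
    [FiniteDimensional F V] (B : LinearMap.BilinForm F V) (hB : B.Nondegenerate)
    (E : Submodule F V) (hi : ∀ u ∈ E, ∀ v ∈ E, B u v = 0) :
    2 * finrank F E ≤ finrank F V := by
  have h1 : E ≤ B.orthogonal E := fun v hv u hu => hi u hu v hv
  have h2 := Submodule.finrank_mono h1
  have h3 := finrank_perp hB E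
  omega

theorem p_spx : S_SPX.{u, v, w} := by
  intro hS hBG hPGL hEIG F V R _ _ _ _ _ _ _ p _ _ B x ρ n m hn hV h2F hB halt hx hR hρ hc hinj hm
    hxm hx1 hxn1
  have hr : B.IsRefl := halt.isRefl
  haveI : Fintype F := Fintype.ofFinite F
  have hq : 1 < Nat.card F := Finite.one_lt_card
  -- decomposable case
  have hdec : ∀ A : Submodule F V, (∀ g, ∀ a ∈ A, ρ g a ∈ A) → A ⊓ B.orthogonal A = ⊥ →
      A ≠ ⊥ → A ≠ ⊤ → Nat.card R * Nat.card F ^ n < Nat.card F ^ (n ^ 2) := by
    intro A hRA hA hbot htop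
    have h1 := two hS hBG B hB hr ρ hR hρ hinj A hRA hA
    have h2 := finrank_perp hB A
    have hge : ∀ X : Submodule F V, X ⊓ B.orthogonal X = ⊥ → X ≠ ⊥ → 2 ≤ finrank F X := by
      intro X hX hXb
      by_contra hcon
      obtain ⟨v, hv, hv0⟩ := (Submodule.ne_bot_iff X).1 hXb
      have h3 : (F ∙ v) = X := by
        apply Submodule.eq_of_le_of_finrank_le
        · rw [Submodule.span_singleton_le_iff_mem]; exact hv
        · rw [finrank_span_singleton hv0]
          omega
      have h4 : v ∈ X ⊓ B.orthogonal X := by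
        refine ⟨hv, ?_⟩
        intro y hy
        rw [← h3] at hy
        obtain ⟨c, rfl⟩ := Submodule.mem_span_singleton.1 hy
        show B (c • v) v = 0
        rw [map_smul, LinearMap.smul_apply, halt v, smul_zero]
      rw [hX, Submodule.mem_bot] at h4
      exact hv0 h4
    have ha := hge A hA hbot
    have hA' : B.orthogonal A ⊓ B.orthogonal (B.orthogonal A) = ⊥ := by
      rw [LinearMap.BilinForm.orthogonal_orthogonal hB hr, inf_comm, hA]
    have hb := hge (B.orthogonal A) hA' (by
      intro h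
      rw [h, finrank_bot] at h2
      apply htop
      apply Submodule.eq_top_of_finrank_eq
      omega)
    apply fin_bound _ _ n _ 4 hq (by norm_num) h1
    obtain ⟨a, ha'⟩ : ∃ a, finrank F A = a + 2 := ⟨finrank F A - 2, by omega⟩
    obtain ⟨b, hb'⟩ : ∃ b, finrank F (B.orthogonal A) = b + 2 :=
      ⟨finrank F (B.orthogonal A) - 2, by omega⟩
    rw [ha', hb']
    have h5 : a + b + 4 = 2 * n := by omega
    nlinarith [Nat.zero_le (a * b), mul_self_nonneg ((a : ℤ) - b)]
  by_cases hev : ∃ (c : F) (v : V), v ≠ 0 ∧ x v = c • v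
  · obtain ⟨c, v, hv, hxv⟩ := hev
    have hc0 : c ≠ 0 := by
      intro h
      rw [h, zero_smul] at hxv
      exact hv (x.map_eq_zero_iff.1 hxv)
    obtain ⟨E, hE⟩ : ∃ E, E = LinearMap.ker ((x : V →ₗ[F] V) - c • LinearMap.id) := ⟨_, rfl⟩
    obtain ⟨E', hE'⟩ : ∃ E', E' = LinearMap.ker ((x : V →ₗ[F] V) - c⁻¹ • LinearMap.id) := ⟨_, rfl⟩
    have hEm : ∀ u, u ∈ E ↔ x u = c • u := by intro u; rw [hE]; exact mem_ker_sub' x c u
    have hEm' : ∀ u, u ∈ E' ↔ x u = c⁻¹ • u := by intro u; rw [hE']; exact mem_ker_sub' x _ u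
    have hRE : ∀ g, ∀ a ∈ E, ρ g a ∈ E := by
      intro g a ha
      rw [hEm] at ha ⊢
      rw [← hc, ha, map_smul]
    have hRE' : ∀ g, ∀ a ∈ E', ρ g a ∈ E' := by
      intro g a ha
      rw [hEm'] at ha ⊢
      rw [← hc, ha, map_smul]
    obtain ⟨A, hA⟩ : ∃ A, A = E ⊔ E' := ⟨_, rfl⟩
    obtain ⟨h1, h2⟩ := hEIG F V B x m c A hB hr hx hm hxm hc0 (by rw [hA, hE, hE'])
    have hRA : ∀ g, ∀ a ∈ A, ρ g a ∈ A := by
      intro g a ha
      rw [hA] at ha ⊢
      obtain ⟨y, hy, z, hz, rfl⟩ := Submodule.mem_sup.1 ha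
      rw [map_add]
      exact Submodule.add_mem _ (Submodule.mem_sup_left (hRE g y hy))
        (Submodule.mem_sup_right (hRE' g z hz))
    by_cases htop : A = ⊤
    · by_cases hcc : c = c⁻¹
      · exfalso
        have hall : ∀ u, x u = c • u := by
          intro u
          have hu : u ∈ E ⊔ E' := by rw [← hA, htop]; trivial
          obtain ⟨y, hy, z, hz, rfl⟩ := Submodule.mem_sup.1 hu
          rw [hEm] at hy
          rw [hEm', ← hcc] at hz
          rw [map_add, hy, hz, smul_add]
        have hc2 : (c - 1) * (c + 1) = 0 := by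
          have : c * c = 1 := by
            conv_lhs => rw [hcc]
            rw [← hcc]
            conv_lhs => arg 2; rw [hcc]
            exact mul_inv_cancel₀ hc0
          linear_combination this
        rcases mul_eq_zero.1 hc2 with h | h
        · obtain ⟨u, hu⟩ := hx1
          apply hu
          rw [hall, sub_eq_zero.1 h, one_smul]
        · obtain ⟨u, hu⟩ := hxn1
          apply hu
          rw [hall, eq_neg_of_add_eq_zero_left h, neg_one_smul]
      · have hiE : ∀ u ∈ E, ∀ v ∈ E, B u v = 0 := by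
          intro u hu v hv
          exact h2 hcc u v ((hEm u).1 hu) ((hEm v).1 hv)
        have hiE' : ∀ u ∈ E', ∀ v ∈ E', B u v = 0 := by
          intro u hu v hv
          rw [hEm'] at hu hv
          apply eig_orth' B x hx c⁻¹ c⁻¹ _ u v hu hv
          intro h
          apply hcc
          have : c * (c⁻¹ * c⁻¹) = c := by rw [h, mul_one]
          rw [← mul_assoc, mul_inv_cancel₀ hc0, one_mul] at this
          exact this.symm
        have hd1 := iso_dim B hB E hiE
        have hd2 := iso_dim B hB E' hiE'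
        have hd3 : finrank F V ≤ finrank F E + finrank F E' := by
          have := Submodule.finrank_add_le_finrank_add_finrank E E'
          rw [← hA, htop, finrank_top] at this
          exact this
        have hEn : finrank F E = n := by omega
        have hb := iso_bound hPGL B hB ρ hR hρ E E' hRE hRE' hiE' ⊥
          (by intro g a ha; rw [Submodule.mem_bot] at ha; rw [ha, map_zero])
          (by intro u hu v _; rw [Submodule.mem_bot] at hu; rw [hu]; simp)
          hinj (by rw [bot_sup_eq, ← hA, htop])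
        rw [hEn] at hb
        apply fin_bound _ _ n _ 1 hq (by norm_num) (by rw [pow_one]; exact hb)
        have h3 : n * (n - 1) / 2 ≤ n * (n - 1) := Nat.div_le_self _ _
        obtain ⟨k, rfl⟩ : ∃ k, n = k + 1 := ⟨n - 1, by omega⟩
        have h4 : (k + 1) * (k + 1 - 1) / 2 * 2 ≤ (k + 1) * (k + 1 - 1) := Nat.div_mul_le_self _ _
        have e1 : k + 1 - 1 = k := by omega
        rw [e1] at h4 ⊢
        nlinarith
    · apply hdec A hRA h1 _ htop
      intro h
      apply hv
      have : v ∈ A := by
        rw [hA]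
        exact Submodule.mem_sup_left ((hEm v).2 hxv)
      rw [h, Submodule.mem_bot] at this
      exact this
  · push Not at hev
    have hno : ∀ (c : F) (v : V), v ∈ (⊤ : Submodule F V) → x v = c • v → v = 0 := by
      intro c v _ h
      by_contra hv
      exact hev c v hv h
    have hPtop : B.orthogonal ⊤ = ⊥ := LinearMap.BilinForm.orthogonal_top_eq_bot hB
    have hinf : (⊤ : Submodule F V) ⊓ B.orthogonal ⊤ = ⊥ := by rw [hPtop, inf_bot_eq]
    have h1 := hBG hS F V R p B x ρ 2 ⊤ hB hr hx hR hρ hc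
      (fun A0 U h1 h2 h3 h4 => dim2 x ⊤ hno A0 U h1 h2 h3 h4) (fun _ _ => trivial)
      (fun _ _ _ => trivial)
    rw [nd_of_inf B ⊤ hinf, kn_of_inf B ρ ⊤ (fun _ _ _ => trivial) hinf, finrank_top, hV] at h1
    have h3 : Nat.card (fixSub ρ (⊤ : Submodule F V)) = 1 := by
      rw [Nat.card_eq_one_iff_unique]
      refine ⟨⟨?_⟩, ⟨1⟩⟩
      have key : ∀ g : fixSub ρ (⊤ : Submodule F V), g = 1 := by
        intro g
        apply Subtype.ext
        apply fix_top ρ hinj
        intro v
        exact g.2 v trivial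
      intro g h
      rw [key g, key h]
    rw [h3, one_pow, mul_one] at h1
    apply fin_bound _ _ n _ 8 hq (by norm_num) h1
    nlinarith

end Pool.Agent.Helper79.PS
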