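import Pool.Agent.Helper79.PS.Goals

/-!
Lemma STEP of project PS.
-/

open Module

namespace Pool.Agent.Helper79.PS

universe u v w

section perp
variable {F : Type u} {V : Type v} [Field F] [AddCommGroup V] [Module F V]
  [FiniteDimensional F V] {B : LinearMap.BilinForm F V}

theorem map_eq_of_inv (x : V ≃ₗ[F] V) (A : Submodule F V) (h : ∀ a ∈ A, x a ∈ A) :
    ∀ a ∈ A, ∃ b ∈ A, x b = a := by
  have h1 : A.map (x : V →ₗ[F] V) ≤ A := by
    rintro _ ⟨a, ha, rfl⟩
    exact h a ha
  have h2 : A.map (x : V →ₗ[F] V) = A :=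
    Submodule.eq_of_le_of_finrank_eq h1 (LinearEquiv.finrank_map_eq x A)
  intro a ha
  rw [← h2] at ha
  obtain ⟨b, hb, rfl⟩ := ha
  exact ⟨b, hb, rfl⟩

theorem perp_inv (x : V ≃ₗ[F] V) (hx : ∀ u v, B (x u) (x v) = B u v) (A : Submodule F V)
    (h : ∀ a ∈ A, x a ∈ A) : ∀ b ∈ B.orthogonal A, x b ∈ B.orthogonal A := by
  intro b hb a ha
  obtain ⟨c, hc, rfl⟩ := map_eq_of_inv x A h a ha
  show B (x c) (x b) = 0
  rw [hx]
  exact hb c hc

theorem perp_sup (X Y : Submodule F V) : B.orthogonal (X ⊔ Y) = B.orthogonal X ⊓ B.orthogonal Y := by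
  apply le_antisymm
  · exact le_inf (LinearMap.BilinForm.orthogonal_le le_sup_left)
      (LinearMap.BilinForm.orthogonal_le le_sup_right)
  · rintro m ⟨h1, h2⟩ n hn
    obtain ⟨a, ha, b, hb, rfl⟩ := Submodule.mem_sup.1 hn
    show B (a + b) m = 0
    have e1 : B a m = 0 := h1 a ha
    have e2 : B b m = 0 := h2 b hb
    rw [map_add, LinearMap.add_apply, e1, e2, add_zero]

theorem perp_inf (hB : B.Nondegenerate) (hr : B.IsRefl) (X Y : Submodule F V) :
    B.orthogonal (X ⊓ Y) = B.orthogonal X ⊔ B.orthogonal Y := by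
  have h := perp_sup (B := B) (B.orthogonal X) (B.orthogonal Y)
  rw [LinearMap.BilinForm.orthogonal_orthogonal hB hr,
    LinearMap.BilinForm.orthogonal_orthogonal hB hr] at h
  rw [← h, LinearMap.BilinForm.orthogonal_orthogonal hB hr]

theorem finrank_perp (hB : B.Nondegenerate) (W : Submodule F V) :
    finrank F (B.orthogonal W) + finrank F W = finrank F V := by
  have := LinearMap.BilinForm.finrank_orthogonal hB W
  have h2 := Submodule.finrank_le W
  omega

end perp

section fixed
variable {F : Type u} {V : Type v} {R : Type w} [Field F] [Finite F] [AddCommGroup V] [Module F V]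
  [FiniteDimensional F V] [Group R] [Finite R] {p : ℕ} [Fact p.Prime] [CharP F p]

/-- fixed vectors modulo an invariant subspace -/
theorem exists_fixed (ρ : R →* (V ≃ₗ[F] V)) (hR : IsPGroup p R) (A0 U : Submodule F V)
    (h0 : A0 < U) (hA0 : ∀ g, ∀ a ∈ A0, ρ g a ∈ A0) (hU : ∀ g, ∀ a ∈ U, ρ g a ∈ U) :
    ∃ u ∈ U, u ∉ A0 ∧ ∀ g, ρ g u - u ∈ A0 := by
  classical
  haveI : Finite V := Module.finite_of_finite F
  let f : R → (V ⧸ A0) →ₗ[F] (V ⧸ A0) := fun g =>
    A0.mapQ A0 (ρ g : V →ₗ[F] V) (fun a ha => hA0 g a ha)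
  have hf : ∀ g v, f g (A0.mkQ v) = A0.mkQ (ρ g v) := fun g v => rfl
  let T : Submodule F (V ⧸ A0) := U.map A0.mkQ
  have hT : ∀ g, ∀ t ∈ T, f g t ∈ T := by
    rintro g _ ⟨v, hv, rfl⟩
    exact ⟨ρ g v, hU g v hv, (hf g v).symm⟩
  letI act : MulAction R T :=
    { smul := fun g t => ⟨f g t.1, hT g t.1 t.2⟩
      one_smul := by
        rintro ⟨_, ⟨v, hv, rfl⟩⟩
        apply Subtype.ext
        show f 1 (A0.mkQ v) = A0.mkQ v
        rw [hf, map_one]
        rfl
      mul_smul := by
        rintro g h ⟨_, ⟨v, hv, rfl⟩⟩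
        apply Subtype.ext
        show f (g * h) (A0.mkQ v) = f g (f h (A0.mkQ v))
        rw [hf, hf, hf, map_mul]
        rfl }
  haveI : Finite T := Module.finite_of_finite F
  have hcard : p ∣ Nat.card T := by
    obtain ⟨u, huU, huA⟩ := SetLike.exists_of_lt h0
    have hne : Nontrivial T := by
      refine ⟨⟨⟨A0.mkQ u, ⟨u, huU, rfl⟩⟩, 0, ?_⟩⟩
      intro h
      have h2 : A0.mkQ u = 0 := congrArg Subtype.val h
      rw [Submodule.mkQ_apply, Submodule.Quotient.mk_eq_zero] at h2
      exact huA h2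
    have h3 : 0 < finrank F T := finrank_pos_iff.2 hne
    rw [Module.natCard_eq_pow_finrank (K := F)]
    refine dvd_pow ?_ h3.ne'
    haveI : Fintype F := Fintype.ofFinite F
    rw [Nat.card_eq_fintype_card]
    obtain ⟨n, hp, hn⟩ := FiniteField.card F p
    rw [hn]
    exact dvd_pow_self p n.ne_zero
  have hz : (0 : T) ∈ MulAction.fixedPoints R T := by
    intro g
    apply Subtype.ext
    show f g 0 = 0
    exact map_zero _
  obtain ⟨b, hb, hne⟩ := hR.exists_fixed_point_of_prime_dvd_card_of_fixed_point T hcard hz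
  obtain ⟨⟨_, ⟨u, hu, rfl⟩⟩, hb'⟩ : ∃ t : T, t = b := ⟨b, rfl⟩
  refine ⟨u, hu, ?_, ?_⟩
  · intro h
    apply hne
    rw [← hb']
    apply Subtype.ext
    show (0 : V ⧸ A0) = A0.mkQ u
    rw [Submodule.mkQ_apply, eq_comm, Submodule.Quotient.mk_eq_zero]
    exact h
  · intro g
    have h1 := hb g
    rw [← hb'] at h1
    have h2 : f g (A0.mkQ u) = A0.mkQ u := congrArg Subtype.val h1
    rw [hf, Submodule.mkQ_apply, Submodule.mkQ_apply, Submodule.Quotient.eq] at h2
    exact h2

/-- counting by fibres -/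
theorem card_le_mul_of_fiber {K T : Type*} [Finite K] [Finite T] (f : K → T) (m : ℕ)
    (h : ∀ k0 : K, Nat.card {k : K // f k = f k0} ≤ m) : Nat.card K ≤ Nat.card T * m := by
  classical
  haveI := Fintype.ofFinite K
  haveI := Fintype.ofFinite T
  have h1 : (Finset.univ : Finset K).card ≤ m * (Finset.univ : Finset T).card := by
    refine Finset.card_le_mul_card_image_of_maps_to (f := f) (fun _ _ => Finset.mem_univ _) m ?_
    intro t _
    by_cases ht : ∃ k0, f k0 = t
    · obtain ⟨k0, rfl⟩ := ht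
      have := h k0
      rw [Nat.card_eq_fintype_card, Fintype.card_subtype] at this
      exact this
    · have : (Finset.univ.filter fun k => f k = t) = ∅ := by
        apply Finset.filter_eq_empty_iff.2
        intro k _ hk
        exact ht ⟨k, hk⟩
      rw [this]
      simp
  rw [Nat.card_eq_fintype_card, Nat.card_eq_fintype_card, mul_comm]
  simpa [Finset.card_univ] using h1

theorem card_quot_sub (A0 A1 : Submodule F V) (h : A0 ≤ A1) :
    Nat.card (A1.map A0.mkQ) = Nat.card F ^ (finrank F A1 - finrank F A0) := by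
  rw [Module.natCard_eq_pow_finrank (K := F)]
  congr 1
  have h1 := LinearMap.finrank_range_add_finrank_ker (A0.mkQ.comp A1.subtype)
  have h2 : LinearMap.range (A0.mkQ.comp A1.subtype) = A1.map A0.mkQ := by
    rw [LinearMap.range_comp, Submodule.range_subtype]
  have h3 : LinearMap.ker (A0.mkQ.comp A1.subtype) = A0.comap A1.subtype := by
    rw [LinearMap.ker_comp, Submodule.ker_mkQ]
  have h4 : finrank F (A0.comap A1.subtype) = finrank F A0 :=
    LinearEquiv.finrank_eq (Submodule.comapSubtypeEquivOfLe h)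
  rw [h2, h3, h4] at h1
  omega

end fixed

theorem p_step : S_STEP.{u, v, w} := by
  intro F V R _ _ _ _ _ _ _ p _ _ B x ρ d A hB hr hx hR hρ hc hd hxA hRA hne
  classical
  haveI : Finite V := Module.finite_of_finite F
  have hsw : ∀ {u v : V}, B u v = 0 → B v u = 0 := fun {u v} h => hr u v h
  -- the radical
  obtain ⟨A0, hA0⟩ : ∃ A0, A0 = A ⊓ B.orthogonal A := ⟨_, rfl⟩
  have hA0A : A0 ≤ A := hA0 ▸ inf_le_left
  have hA0P : A0 ≤ B.orthogonal A := hA0 ▸ inf_le_right
  have hA0mem : ∀ {v : V}, v ∈ A → v ∈ B.orthogonal A → v ∈ A0 := by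
    intro v h1 h2
    rw [hA0]
    exact ⟨h1, h2⟩
  have hPx : ∀ (X : Submodule F V), (∀ a ∈ X, x a ∈ X) → ∀ b ∈ B.orthogonal X,
      x b ∈ B.orthogonal X := fun X h => perp_inv x hx X h
  have hPR : ∀ (X : Submodule F V), (∀ g, ∀ a ∈ X, ρ g a ∈ X) → ∀ g, ∀ b ∈ B.orthogonal X,
      ρ g b ∈ B.orthogonal X := fun X h g => perp_inv (ρ g) (hρ g) X (h g)
  have hxA0 : ∀ a ∈ A0, x a ∈ A0 := fun a ha => hA0mem (hxA a (hA0A ha)) (hPx A hxA a (hA0P ha))
  have hRA0 : ∀ g, ∀ a ∈ A0, ρ g a ∈ A0 := fun g a ha =>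
    hA0mem (hRA g a (hA0A ha)) (hPR A hRA g a (hA0P ha))
  have hlt : A0 < A := by
    refine lt_of_le_of_ne hA0A ?_
    intro h
    apply hne
    rw [← h]
    rw [h]
    exact h ▸ hA0P
  -- the minimal subspace
  let P : Submodule F V → Prop := fun U =>
    A0 < U ∧ U ≤ A ∧ (∀ a ∈ U, x a ∈ U) ∧ ∀ g, ∀ a ∈ U, ρ g a ∈ U
  obtain ⟨U, ⟨hU0, hUA, hxU, hRU⟩, hmin⟩ :=
    WellFounded.has_min (wellFounded_lt : WellFounded ((· < ·) : Submodule F V → _ → Prop))
      {U | P U} ⟨A, hlt, le_rfl, hxA, hRA⟩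
  have hA0U : A0 ≤ U := hU0.le
  -- R acts trivially on U / A0
  have htriv : ∀ g, ∀ u ∈ U, ρ g u - u ∈ A0 := by
    let U1 : Submodule F V :=
      { carrier := {u | u ∈ U ∧ ∀ g, ρ g u - u ∈ A0}
        add_mem' := by
          rintro a b ⟨ha, ha'⟩ ⟨hb, hb'⟩
          refine ⟨U.add_mem ha hb, fun g => ?_⟩
          have : ρ g (a + b) - (a + b) = (ρ g a - a) + (ρ g b - b) := by
            rw [map_add]; abel
          rw [this]
          exact A0.add_mem (ha' g) (hb' g)
        zero_mem' := ⟨U.zero_mem, fun g => by simp⟩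
        smul_mem' := by
          rintro c a ⟨ha, ha'⟩
          refine ⟨U.smul_mem c ha, fun g => ?_⟩
          have : ρ g (c • a) - c • a = c • (ρ g a - a) := by
            rw [map_smul, smul_sub]
          rw [this]
          exact A0.smul_mem c (ha' g) }
    have hU1 : ∀ {v}, v ∈ U1 ↔ v ∈ U ∧ ∀ g, ρ g v - v ∈ A0 := fun {v} => Iff.rfl
    have hU1U : U1 ≤ U := fun v hv => hv.1
    have hP1 : P U1 := by
      refine ⟨?_, hU1U.trans hUA, ?_, ?_⟩
      · obtain ⟨u, hu, hu0, hug⟩ := exists_fixed (p := p) ρ hR A0 U hU0 hRA0 hRU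
        refine lt_of_le_of_ne ?_ ?_
        · intro a ha
          exact ⟨hA0U ha, fun g => A0.sub_mem (hRA0 g a ha) ha⟩
        · intro h
          apply hu0
          rw [h]
          exact ⟨hu, hug⟩
      · rintro a ⟨ha, ha'⟩
        refine ⟨hxU a ha, fun g => ?_⟩
        rw [hc, ← map_sub]
        exact hxA0 _ (ha' g)
      · rintro g a ⟨ha, ha'⟩
        have e : ρ g a = a + (ρ g a - a) := by abel
        have hm : ρ g a - a ∈ U1 :=
          ⟨hA0U (ha' g), fun h => A0.sub_mem (hRA0 h _ (ha' g)) (ha' g)⟩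
        rw [e]
        exact U1.add_mem ⟨ha, ha'⟩ hm
    have hEq : U1 = U := by
      by_contra hne'
      exact hmin U1 hP1 (lt_of_le_of_ne hU1U hne')
    intro g u hu
    have : u ∈ U1 := by rw [hEq]; exact hu
    exact this.2 g
  have hMin : ∀ U' : Submodule F V, A0 ≤ U' → U' ≤ U → (∀ a ∈ U', x a ∈ U') → U' = A0 ∨ U' = U := by
    intro U' h1 h2 h3
    by_contra hcon
    push Not at hcon
    apply hmin U' ⟨lt_of_le_of_ne h1 (Ne.symm hcon.1), h2.trans hUA, h3, ?_⟩
      (lt_of_le_of_ne h2 hcon.2)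
    intro g a ha
    have e : ρ g a = a + (ρ g a - a) := by abel
    rw [e]
    exact U'.add_mem ha (h1 (htriv g a (h2 ha)))
  -- dimension of U / A0
  obtain ⟨e, he⟩ : ∃ e, finrank F U = finrank F A0 + e :=
    ⟨finrank F U - finrank F A0, by have := Submodule.finrank_mono hA0U; omega⟩
  have he1 : 1 ≤ e := by
    have := Submodule.finrank_lt_finrank_of_lt hU0
    omega
  have hed : d ≤ e := by
    have := hd A0 U hUA hU0 hxA0 hxU
    omega
  have hex : (∀ u, x u = u) → e = 1 := by
    intro hxid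
    obtain ⟨u, huU, huA⟩ := SetLike.exists_of_lt hU0
    have h1 : A0 ⊔ (F ∙ u) ≤ U := sup_le hA0U (by
      rw [Submodule.span_singleton_le_iff_mem]; exact huU)
    rcases hMin (A0 ⊔ (F ∙ u)) le_sup_left h1 (fun a ha => by rw [hxid]; exact ha) with h | h
    · exfalso
      apply huA
      rw [← h]
      exact Submodule.mem_sup_right (Submodule.mem_span_singleton_self u)
    · have h2 := Submodule.finrank_add_le_finrank_add_finrank A0 (F ∙ u)
      have h3 : finrank F (F ∙ u) = 1 := finrank_span_singleton (fun h0 => huA (h0 ▸ A0.zero_mem))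
      rw [h] at h2
      omega
  -- A1
  obtain ⟨A1, hA1⟩ : ∃ A1, A1 = A ⊓ B.orthogonal U := ⟨_, rfl⟩
  have hA1A : A1 ≤ A := hA1 ▸ inf_le_left
  have hA1U : A1 ≤ B.orthogonal U := hA1 ▸ inf_le_right
  have hA1mem : ∀ {v : V}, v ∈ A → v ∈ B.orthogonal U → v ∈ A1 := by
    intro v h1 h2
    rw [hA1]
    exact ⟨h1, h2⟩
  have hxA1 : ∀ a ∈ A1, x a ∈ A1 := fun a ha =>
    hA1mem (hxA a (hA1A ha)) (hPx U hxU a (hA1U ha))
  have hRA1 : ∀ g, ∀ a ∈ A1, ρ g a ∈ A1 := fun g a ha =>
    hA1mem (hRA g a (hA1A ha)) (hPR U hRU g a (hA1U ha))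
  have hPUA : B.orthogonal A ≤ B.orthogonal U := LinearMap.BilinForm.orthogonal_le hUA
  have hA0A1 : A0 ≤ A1 := fun a ha => hA1mem (hA0A ha) (hPUA (hA0P ha))
  have hPA1 : B.orthogonal A1 = B.orthogonal A ⊔ U := by
    rw [hA1, perp_inf hB hr, LinearMap.BilinForm.orthogonal_orthogonal hB hr]
  have hUPA1 : U ≤ B.orthogonal A1 := hPA1 ▸ le_sup_right
  have hPAPA1 : B.orthogonal A ≤ B.orthogonal A1 := hPA1 ▸ le_sup_left
  have hinfU : B.orthogonal A ⊓ U = A0 := by
    apply le_antisymm
    · rintro v ⟨h1, h2⟩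
      exact hA0mem (hUA h2) h1
    · exact le_inf hA0P hA0U
  have hrad : A1 ⊓ B.orthogonal A1 = U ⊓ B.orthogonal U := by
    apply le_antisymm
    · rintro v ⟨h1, h2⟩
      rw [hPA1] at h2
      obtain ⟨a, ha, b, hb, hab⟩ := Submodule.mem_sup.1 h2
      have h3 : a ∈ A := by
        have : a = v - b := by rw [← hab]; abel
        rw [this]
        exact A.sub_mem (hA1A h1) (hUA hb)
      have h4 : v ∈ U := by
        rw [← hab]
        exact U.add_mem (hA0U (hA0mem h3 ha)) hb
      exact ⟨h4, hA1U h1⟩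
    · rintro v ⟨h1, h2⟩
      exact ⟨hA1mem (hUA h1) h2, hUPA1 h1⟩
  have hdA1 : finrank F A1 + e = finrank F A := by
    have h1 := finrank_perp hB A1
    have h2 := finrank_perp hB A
    have h3 := Submodule.finrank_sup_add_finrank_inf_eq (B.orthogonal A) U
    rw [hinfU, ← hPA1] at h3
    omega
  have hndA : nd B A = finrank F A - finrank F A0 := by rw [hA0]; rfl
  have hdA0 : finrank F A0 ≤ finrank F A := Submodule.finrank_mono hA0A
  have hxUU : ∀ a ∈ U ⊓ B.orthogonal U, x a ∈ U ⊓ B.orthogonal U :=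
    fun a ha => ⟨hxU a ha.1, hPx U hxU a ha.2⟩
  refine ⟨A1, e, hA1A, hxA1, hRA1, he1, hed, hex, ?_⟩
  rcases hMin (U ⊓ B.orthogonal U) (le_inf hA0U (hA0P.trans hPUA)) inf_le_left hxUU with hcase | hcase
  · -- case (a)
    left
    constructor
    · have : nd B A1 = finrank F A1 - finrank F A0 := by
        unfold nd
        rw [hrad, hcase]
      have h2 := Submodule.finrank_mono hA0A1
      omega
    · have hsup : U ⊔ A1 = A := by
        apply Submodule.eq_of_le_of_finrank_eq (sup_le hUA hA1A)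
        have h3 := Submodule.finrank_sup_add_finrank_inf_eq U A1
        have h4 : U ⊓ A1 = A0 := by
          rw [← hcase]
          apply le_antisymm
          · rintro v ⟨h1, h2⟩
            exact ⟨h1, hA1U h2⟩
          · rintro v ⟨h1, h2⟩
            exact ⟨h1, hA1mem (hUA h1) h2⟩
        rw [h4] at h3
        omega
      refine Nat.card_le_card_of_injective
        (fun g : {g : R // ∀ a ∈ A1, ρ g a - a ∈ B.orthogonal A1} =>
          (⟨g.1, ?_⟩ : {g : R // ∀ a ∈ A, ρ g a - a ∈ B.orthogonal A})) ?_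
      · intro a ha
        rw [← hsup] at ha
        obtain ⟨u, hu, b, hb, rfl⟩ := Submodule.mem_sup.1 ha
        have e1 : ρ g.1 (u + b) - (u + b) = (ρ g.1 u - u) + (ρ g.1 b - b) := by
          rw [map_add]; abel
        rw [e1]
        refine Submodule.add_mem _ (hA0P (htriv _ u hu)) ?_
        have h5 : ρ g.1 b - b ∈ A1 ⊓ B.orthogonal A1 :=
          ⟨A1.sub_mem (hRA1 _ b hb) hb, g.2 b hb⟩
        rw [hrad, hcase] at h5
        exact hA0P h5
      · intro g h hgh
        have h1 := congrArg Subtype.val hgh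
        exact Subtype.ext h1
  · -- case (b)
    right
    have hUU : U ≤ B.orthogonal U := by
      intro v hv
      rw [← hcase] at hv
      exact hv.2
    have hUA1 : U ≤ A1 := fun v hv => hA1mem (hUA hv) (hUU hv)
    have hradU : A1 ⊓ B.orthogonal A1 = U := by rw [hrad, hcase]
    have hdUA1 := Submodule.finrank_mono hUA1
    have hnd1 : nd B A1 + 2 * e = nd B A := by
      have : nd B A1 = finrank F A1 - finrank F U := by
        unfold nd
        rw [hradU]
      omega
    -- w
    obtain ⟨w, hwA, hwU⟩ : ∃ w ∈ A, w ∉ B.orthogonal U := by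
      by_contra hcon
      push Not at hcon
      have h1 : U ≤ A0 := by
        intro u hu
        apply hA0mem (hUA hu)
        intro a ha
        exact hsw (hcon a ha u hu)
      exact absurd hU0 (not_lt_of_ge h1)
    -- values
    have hval : ∀ g, ρ g w - w ∈ A1 := by
      intro g
      apply hA1mem (A.sub_mem (hRA g w hwA) hwA)
      intro u hu
      obtain ⟨a0, ha0, hau⟩ : ∃ a0 ∈ A0, u = ρ g u - a0 :=
        ⟨ρ g u - u, htriv g u hu, by abel⟩
      show B u (ρ g w - w) = 0
      have h1 : B a0 (ρ g w) = 0 := hsw (hA0P ha0 _ (hRA g w hwA))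
      have h2 : B u (ρ g w) = B u w := by
        calc B u (ρ g w) = B (ρ g u - a0) (ρ g w) := by rw [← hau]
          _ = B (ρ g u) (ρ g w) - B a0 (ρ g w) := by rw [map_sub, LinearMap.sub_apply]
          _ = B u w := by rw [hρ, h1, sub_zero]
      rw [map_sub, h2, sub_self]
    -- the claim
    have hclaim : ∀ k : R, (∀ a ∈ A1, ρ k a - a ∈ B.orthogonal A1) → ρ k w - w ∈ A0 →
        ∀ a ∈ A, ρ k a - a ∈ B.orthogonal A := by
      intro k hk hkw
      let S : Submodule F V :=
        { carrier := {a | a ∈ A ∧ ρ k a - a ∈ A0}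
          add_mem' := by
            rintro a b ⟨ha, ha'⟩ ⟨hb, hb'⟩
            refine ⟨A.add_mem ha hb, ?_⟩
            have : ρ k (a + b) - (a + b) = (ρ k a - a) + (ρ k b - b) := by
              rw [map_add]; abel
            rw [this]
            exact A0.add_mem ha' hb'
          zero_mem' := ⟨A.zero_mem, by simp⟩
          smul_mem' := by
            rintro c a ⟨ha, ha'⟩
            refine ⟨A.smul_mem c ha, ?_⟩
            have : ρ k (c • a) - c • a = c • (ρ k a - a) := by
              rw [map_smul, smul_sub]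
            rw [this]
            exact A0.smul_mem c ha' }
      have hSA : S ≤ A := fun v hv => hv.1
      have hxS : ∀ a ∈ S, x a ∈ S := by
        rintro a ⟨ha, ha'⟩
        refine ⟨hxA a ha, ?_⟩
        rw [hc, ← map_sub]
        exact hxA0 _ ha'
      obtain ⟨X, hX⟩ : ∃ X, X = A1 ⊔ S := ⟨_, rfl⟩
      have hXA : X ≤ A := hX ▸ sup_le hA1A hSA
      have hA1X : A1 ≤ X := hX ▸ le_sup_left
      have hSX : S ≤ X := hX ▸ le_sup_right
      have hxX : ∀ a ∈ X, x a ∈ X := by
        intro a ha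
        rw [hX] at ha
        obtain ⟨b, hb, s, hs, rfl⟩ := Submodule.mem_sup.1 ha
        rw [map_add]
        exact X.add_mem (hA1X (hxA1 b hb)) (hSX (hxS s hs))
      have hwX : w ∈ X := hSX ⟨hwA, hkw⟩
      have hPAX : B.orthogonal A ≤ B.orthogonal X := LinearMap.BilinForm.orthogonal_le hXA
      have hPXA1 : B.orthogonal X ≤ B.orthogonal A1 := LinearMap.BilinForm.orthogonal_le hA1X
      have hUX : U ⊓ B.orthogonal X = A0 := by
        rcases hMin (U ⊓ B.orthogonal X) (le_inf hA0U (hA0P.trans hPAX)) inf_le_left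
          (fun a ha => ⟨hxU a ha.1, hPx X hxX a ha.2⟩) with h | h
        · exact h
        · exfalso
          apply hwU
          intro u hu
          rw [← h] at hu
          exact hsw (hu.2 w hwX)
      have hXX : X = A := by
        have h1 : B.orthogonal X = B.orthogonal A := by
          apply le_antisymm _ hPAX
          intro v hv
          have h2 := hPXA1 hv
          rw [hPA1] at h2
          obtain ⟨a, ha, u, hu, rfl⟩ := Submodule.mem_sup.1 h2
          have h3 : u ∈ B.orthogonal X := by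
            have : u = (a + u) - a := by abel
            rw [this]
            exact Submodule.sub_mem _ hv (hPAX ha)
          have h4 : u ∈ A0 := by
            rw [← hUX]
            exact ⟨hu, h3⟩
          exact Submodule.add_mem _ ha (hA0P h4)
        rw [← LinearMap.BilinForm.orthogonal_orthogonal hB hr X, h1,
          LinearMap.BilinForm.orthogonal_orthogonal hB hr]
      have hA1S : A1 ≤ S := by
        intro a ha
        refine ⟨hA1A ha, ?_⟩
        have hcA : ρ k a - a ∈ A := A.sub_mem (hRA k a (hA1A ha)) (hA1A ha)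
        apply hA0mem hcA
        rw [← hXX]
        intro y hy
        rw [hX] at hy
        obtain ⟨b, hb, s, hs, rfl⟩ := Submodule.mem_sup.1 hy
        show B (b + s) (ρ k a - a) = 0
        have h1 : B b (ρ k a - a) = 0 := hk a ha b hb
        have h2 : B s (ρ k a - a) = 0 := by
          have h3 : B (ρ k s - s) (ρ k a) = 0 :=
            hsw (hA0P hs.2 _ (hRA k a (hA1A ha)))
          have h4 : B s (ρ k a) = B s a := by
            calc B s (ρ k a) = B (ρ k s - (ρ k s - s)) (ρ k a) := by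
                  rw [sub_sub_cancel]
              _ = B (ρ k s) (ρ k a) - B (ρ k s - s) (ρ k a) := by
                  rw [map_sub B (ρ k s) (ρ k s - s), LinearMap.sub_apply]
              _ = B s a := by rw [hρ, h3, sub_zero]
          rw [map_sub, h4, sub_self]
        rw [map_add, LinearMap.add_apply, h1, h2, add_zero]
      intro a ha
      have h5 : X ≤ S := by rw [hX]; exact sup_le hA1S le_rfl
      rw [← hXX] at ha
      exact hA0P (h5 ha).2
    -- differences
    have hdiff : ∀ g h : R, (∀ a ∈ A1, ρ g a - a ∈ B.orthogonal A1) →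
        (∀ a ∈ A1, ρ h a - a ∈ B.orthogonal A1) →
        ∀ a ∈ A1, ρ (h⁻¹ * g) a - a ∈ B.orthogonal A1 := by
      intro g h hg hh a ha
      have e1 : ρ (h⁻¹ * g) a - a = ρ h⁻¹ ((ρ g a - a) - (ρ h a - a)) := by
        have e2 : ρ h⁻¹ (ρ h a) = a := by
          have : ρ h⁻¹ (ρ h a) = (ρ h⁻¹ * ρ h) a := rfl
          rw [this, ← map_mul, inv_mul_cancel, map_one]
          rfl
        have e3 : ρ (h⁻¹ * g) a = ρ h⁻¹ (ρ g a) := by
          rw [map_mul]; rfl
        rw [e3, sub_sub_sub_cancel_right, map_sub, e2]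
      rw [e1]
      exact hPR A1 hRA1 _ _ (Submodule.sub_mem _ (hg a ha) (hh a ha))
    have hdw : ∀ (g h : R) (Y : Submodule F V), (∀ g, ∀ a ∈ Y, ρ g a ∈ Y) →
        ρ g w - ρ h w ∈ Y → ρ (h⁻¹ * g) w - w ∈ Y := by
      intro g h Y hY hm
      have e1 : ρ (h⁻¹ * g) w - w = ρ h⁻¹ (ρ g w - ρ h w) := by
        have e2 : ρ h⁻¹ (ρ h w) = w := by
          have : ρ h⁻¹ (ρ h w) = (ρ h⁻¹ * ρ h) w := rfl
          rw [this, ← map_mul, inv_mul_cancel, map_one]
          rfl
        have e3 : ρ (h⁻¹ * g) w = ρ h⁻¹ (ρ g w) := by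
          rw [map_mul]; rfl
        rw [e3, map_sub, e2]
      rw [e1]
      exact hY _ _ hm
    -- general counting
    have hcount : ∀ Y : Submodule F V, Y ≤ A1 → (∀ g, ∀ a ∈ Y, ρ g a ∈ Y) →
        (∀ k : R, (∀ a ∈ A1, ρ k a - a ∈ B.orthogonal A1) → ρ k w - w ∈ Y → ρ k w - w ∈ A0) →
        kn B ρ A1 ≤ Nat.card F ^ (finrank F A1 - finrank F Y) * kn B ρ A := by
      intro Y hYA1 hRY hY
      rw [← card_quot_sub Y A1 hYA1]
      haveI : Finite (A1.map Y.mkQ : Submodule F (V ⧸ Y)) := Module.finite_of_finite F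
      unfold kn
      refine card_le_mul_of_fiber
        (f := fun g : {g : R // ∀ a ∈ A1, ρ g a - a ∈ B.orthogonal A1} =>
          (⟨Y.mkQ (ρ g.1 w - w), ⟨_, hval g.1, rfl⟩⟩ : (A1.map Y.mkQ : Submodule F (V ⧸ Y)))) _ ?_
      intro h
      refine Nat.card_le_card_of_injective
        (fun g => (⟨h.1⁻¹ * g.1.1, ?_⟩ : {g : R // ∀ a ∈ A, ρ g a - a ∈ B.orthogonal A})) ?_
      · have h1 := congrArg Subtype.val g.2
        have h2' : (ρ g.1.1 w - w) - (ρ h.1 w - w) ∈ Y := (Submodule.Quotient.eq Y).1 h1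
        have h2 : ρ g.1.1 w - ρ h.1 w ∈ Y := by
          have e : (ρ g.1.1 w - w) - (ρ h.1 w - w) = ρ g.1.1 w - ρ h.1 w := by abel
          exact e ▸ h2'
        have h3 := hdiff g.1.1 h.1 g.1.2 h.2
        exact hclaim _ h3 (hY _ h3 (hdw _ _ Y hRY h2))
      · intro g g' hgg
        have h1 := congrArg Subtype.val hgg
        have h2 : g.1.1 = g'.1.1 := mul_left_cancel h1
        exact Subtype.ext (Subtype.ext h2)
    refine ⟨hnd1, ?_, ?_⟩
    · have h1 := hcount A0 hA0A1 hRA0 (fun k _ h => h)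
      have h2 : finrank F A1 - finrank F A0 = nd B A - e := by omega
      rwa [h2] at h1
    · intro hsym h2F he1'
      have h1 := hcount U hUA1 hRU ?_
      · have h2 : finrank F A1 - finrank F U = nd B A - 2 := by omega
        rwa [h2] at h1
      · intro k hk hkU
        obtain ⟨u, hu⟩ : ∃ u, u = ρ k w - w := ⟨_, rfl⟩
        rw [← hu] at hkU ⊢
        have hkw : ρ k w = w + u := by rw [hu]; abel
        have h3 : B (w + u) (w + u) = B w w := by rw [← hkw, hρ]
        have h4 : B u u = 0 := hUU hkU u hkU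
        have h5 : B u w = B w u := hsym.eq u w
        have h6 : B w u = 0 := by
          have h33 : B (w + u) (w + u) = B w w + B w u + (B u w + B u u) := by
            simp only [map_add, LinearMap.add_apply]
            ring
          rw [h33, h4, h5] at h3
          have h7 : (2 : F) * B w u = 0 := by linear_combination h3
          rcases mul_eq_zero.1 h7 with h | h
          · exact absurd h h2F
          · exact h
        -- U ∩ w^⊥ = A0
        have h8 : A0 ≤ U ⊓ B.orthogonal (F ∙ w) := by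
          intro a ha
          refine ⟨hA0U ha, ?_⟩
          intro y hy
          obtain ⟨c, rfl⟩ := Submodule.mem_span_singleton.1 hy
          exact hA0P ha _ (A.smul_mem c hwA)
        have h9 : U ⊓ B.orthogonal (F ∙ w) ≠ U := by
          intro h
          apply hwU
          intro y hy
          rw [← h] at hy
          exact hsw (hy.2 w (Submodule.mem_span_singleton_self w))
        have h10 : U ⊓ B.orthogonal (F ∙ w) < U := lt_of_le_of_ne inf_le_left h9
        have h11 := Submodule.finrank_lt_finrank_of_lt h10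
        have h12 : A0 = U ⊓ B.orthogonal (F ∙ w) := by
          apply Submodule.eq_of_le_of_finrank_le h8
          omega
        rw [h12]
        refine ⟨hkU, ?_⟩
        intro y hy
        obtain ⟨c, rfl⟩ := Submodule.mem_span_singleton.1 hy
        show B (c • w) u = 0
        rw [map_smul, LinearMap.smul_apply, h6, smul_zero]

end Pool.Agent.Helper79.PS
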